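import Pool.Agent.Lib.MP_5d015b_lc.JJ.Basic

/-!
# Algebraically independent reals have linearly independent differentials
-/

set_option autoImplicit false
set_option linter.unusedSectionVars false
set_option linter.style.haveILetI false

namespace Pool.Agent.Lib.MP_5d015b_lc.JJ

open TensorProduct

theorem D_of_transcendenceBasis {κ : Type*} {b : κ → ℝ} (hb : IsTranscendenceBasis ℚ b) :
    LinearIndependent ℝ (fun k => KaehlerDifferential.D ℚ ℝ (b k)) := by
  letI alg : Algebra (MvPolynomial κ ℚ) ℝ := (MvPolynomial.aeval b).toRingHom.toAlgebra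
  have halg : ∀ x : MvPolynomial κ ℚ, algebraMap (MvPolynomial κ ℚ) ℝ x = MvPolynomial.aeval b x :=
    fun x => rfl
  haveI tow : IsScalarTower ℚ (MvPolynomial κ ℚ) ℝ := IsScalarTower.of_algebraMap_eq fun x => by
    rw [halg, AlgHom.commutes]
  have hinj : Function.Injective (algebraMap (MvPolynomial κ ℚ) ℝ) := hb.1
  haveI : FaithfulSMul (MvPolynomial κ ℚ) ℝ := (faithfulSMul_iff_algebraMap_injective _ _).2 hinj
  letI := FractionRing.liftAlgebra (MvPolynomial κ ℚ) ℝ
  haveI := FractionRing.isScalarTower_liftAlgebra (MvPolynomial κ ℚ) ℝ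
  haveI h1 : Algebra.FormallyEtale (MvPolynomial κ ℚ) (FractionRing (MvPolynomial κ ℚ)) :=
    Algebra.FormallyEtale.of_isLocalization (nonZeroDivisors (MvPolynomial κ ℚ))
  haveI h2 : Algebra.IsAlgebraic (MvPolynomial κ ℚ) ℝ := by
    haveI h3 := hb.isAlgebraic
    refine Algebra.IsAlgebraic.of_ringHom_of_comp_eq (S := Algebra.adjoin ℚ (Set.range b))
      (B := ℝ) hb.1.aevalEquiv (RingHom.id ℝ) hb.1.aevalEquiv.surjective
      Function.injective_id ?_
    refine RingHom.ext fun x => ?_
    rw [RingHom.comp_apply, RingHom.comp_apply, halg]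
    rfl
  haveI h3 : Algebra.IsAlgebraic (FractionRing (MvPolynomial κ ℚ)) ℝ :=
    IsFractionRing.comap_isAlgebraic_iff.1 h2
  haveI h4 : Algebra.FormallyEtale (FractionRing (MvPolynomial κ ℚ)) ℝ :=
    Algebra.FormallyEtale.of_isSeparable _ _
  haveI h5 : Algebra.FormallyEtale (MvPolynomial κ ℚ) ℝ :=
    Algebra.FormallyEtale.comp _ (FractionRing (MvPolynomial κ ℚ)) _
  have h6 := (((KaehlerDifferential.mvPolynomialBasis ℚ κ).baseChange ℝ).map
    (KaehlerDifferential.tensorKaehlerEquivOfFormallyEtale ℚ (MvPolynomial κ ℚ) ℝ)).linearIndependent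
  convert h6 using 2 with k
  rw [Module.Basis.map_apply, Module.Basis.baseChange_apply, KaehlerDifferential.mvPolynomialBasis_apply,
    KaehlerDifferential.tensorKaehlerEquivOfFormallyEtale_apply, KaehlerDifferential.mapBaseChange_tmul,
    one_smul, KaehlerDifferential.map_D, halg, MvPolynomial.aeval_X]

theorem dR_of_algInd {ι : Type*} {a : ι → ℝ} (h : AlgebraicIndependent ℚ a) :
    LinearIndependent ℝ (fun i => dR (a i)) := by
  obtain ⟨t, hst, ht⟩ := exists_isTranscendenceBasis_superset (AlgebraicIndependent.coe_range h)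
  have h1 := D_of_transcendenceBasis ht
  have h2 : LinearIndependent ℝ (fun k : t => dR (k : ℝ)) := by
    have h3 : (fun k : t => dR (k : ℝ)) = fun k : t => KaehlerDifferential.D ℚ ℝ (k : ℝ) :=
      funext fun k => dR_def _
    rw [h3]
    exact h1
  have h4 : Function.Injective (fun i => (⟨a i, hst ⟨i, rfl⟩⟩ : t)) := fun i j hij =>
    h.injective (Subtype.mk.inj hij)
  exact h2.comp _ h4

end Pool.Agent.Lib.MP_5d015b_lc.JJ
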