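import Pool.Agent.Lib.MP_5d015b_lc.JJ.Basic

/-!
# Reals with linearly independent differentials are algebraically independent
-/

set_option autoImplicit false
set_option linter.unusedSectionVars false

namespace Pool.Agent.Lib.MP_5d015b_lc.JJ

open MvPolynomial

/-- the differential of the value of a polynomial -/
theorem dR_aeval {ι : Type*} [Fintype ι] (a : ι → ℝ) (p : MvPolynomial ι ℚ) :
    dR (aeval a p) = ∑ i, (aeval a (pderiv i p) : ℝ) • dR (a i) := by
  classical
  induction p using MvPolynomial.induction_on with
  | C r =>
    rw [aeval_C]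
    have h1 : (algebraMap ℚ ℝ) r = (r : ℝ) := rfl
    rw [h1, dR_rat]
    symm
    refine Finset.sum_eq_zero fun i _ => ?_
    rw [pderiv_C, map_zero, zero_smul]
  | add p q hp hq =>
    rw [map_add, dR_add, hp, hq, ← Finset.sum_add_distrib]
    refine Finset.sum_congr rfl fun i _ => ?_
    rw [map_add, map_add, add_smul]
  | mul_X p j hp =>
    rw [map_mul, aeval_X, dR_mul, hp, Finset.smul_sum]
    have h1 : ∀ i, (aeval a (pderiv i (p * X j)) : ℝ) • dR (a i) =
        (a j) • ((aeval a (pderiv i p) : ℝ) • dR (a i)) +
          (if i = j then (aeval a p : ℝ) • dR (a j) else 0) := by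
      intro i
      rw [pderiv_mul, map_add, map_mul, map_mul, aeval_X, add_smul, smul_smul, mul_comm (a j)]
      congr 1
      by_cases h : i = j
      · subst h
        rw [pderiv_X_self, map_one, mul_one, if_pos rfl]
      · rw [pderiv_X_of_ne (Ne.symm h), map_zero, mul_zero, zero_smul, if_neg h]
    rw [Finset.sum_congr rfl fun i _ => h1 i, Finset.sum_add_distrib, Finset.sum_ite_eq',
      if_pos (Finset.mem_univ j), add_comm]

theorem algInd_of_dR_fin {ι : Type*} [Fintype ι] {a : ι → ℝ}
    (h : LinearIndependent ℝ (fun i => dR (a i))) : AlgebraicIndependent ℚ a := by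
  classical
  have key : ∀ n : ℕ, ∀ p : MvPolynomial ι ℚ, (∀ m ∈ p.support, m.degree ≤ n) →
      aeval a p = 0 → p = 0 := by
    intro n
    induction n with
    | zero =>
      intro p hp h0
      have hp1 : p = C (coeff 0 p) := by
        ext m
        rw [coeff_C]
        by_cases hm : 0 = m
        · rw [if_pos hm, hm]
        · rw [if_neg hm]
          by_contra hc
          have h1 := hp m (mem_support_iff.2 hc)
          exact hm ((Finsupp.degree_eq_zero_iff m).1 (Nat.le_zero.1 h1)).symm
      rw [hp1, aeval_C] at h0
      have h2 : coeff 0 p = 0 := by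
        have h3 : ((coeff 0 p : ℚ) : ℝ) = 0 := h0
        exact_mod_cast h3
      rw [hp1, h2, C_0]
    | succ n ih =>
      intro p hp h0
      have h1 : ∑ i, (aeval a (pderiv i p) : ℝ) • dR (a i) = 0 := by
        rw [← dR_aeval, h0, dR_zero]
      have h2 := Fintype.linearIndependent_iff.1 h _ h1
      have h3 : ∀ i, pderiv i p = 0 := by
        intro i
        refine ih _ ?_ (h2 i)
        intro m hm
        rw [mem_support_iff, coeff_pderiv] at hm
        have h4 : m + Finsupp.single i 1 ∈ p.support := by
          rw [mem_support_iff]
          exact left_ne_zero_of_mul hm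
        have h5 := hp _ h4
        rw [map_add, Finsupp.degree_single] at h5
        omega
      have hp1 : p = C (coeff 0 p) := by
        ext m
        rw [coeff_C]
        by_cases hm : 0 = m
        · rw [if_pos hm, hm]
        · rw [if_neg hm]
          obtain ⟨i, hi⟩ : ∃ i, m i ≠ 0 := by
            by_contra hc
            push Not at hc
            exact hm (Finsupp.ext fun i => (hc i).symm)
          have h4 := congrArg (coeff (m - Finsupp.single i 1)) (h3 i)
          rw [coeff_pderiv, coeff_zero] at h4
          have h5 : m - Finsupp.single i 1 + Finsupp.single i 1 = m := by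
            refine tsub_add_cancel_of_le ?_
            rw [Finsupp.single_le_iff]
            omega
          rw [h5] at h4
          rcases mul_eq_zero.1 h4 with h6 | h6
          · exact h6
          · exfalso
            have h7 : ∀ k : ℕ, (k : ℚ) + 1 ≠ 0 := fun k => by positivity
            exact h7 _ h6
      rw [hp1, aeval_C] at h0
      have h2 : coeff 0 p = 0 := by
        have h3 : ((coeff 0 p : ℚ) : ℝ) = 0 := h0
        exact_mod_cast h3
      rw [hp1, h2, C_0]
  rw [algebraicIndependent_iff]
  intro p hp
  exact key p.totalDegree p (fun m hm => by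
    have := le_totalDegree hm
    rwa [Finsupp.degree_eq_sum, ← Finsupp.sum_fintype m (fun _ e => e) fun _ => rfl]) hp

theorem algInd_of_dR {ι : Type*} {a : ι → ℝ} (h : LinearIndependent ℝ (fun i => dR (a i))) :
    AlgebraicIndependent ℚ a := by
  have hinj : Function.Injective a := by
    intro i j hij
    by_contra hne
    exact hne (h.injective (congrArg dR hij))
  rw [← algebraicIndependent_subtype_range hinj]
  refine algebraicIndependent_of_finite _ fun t ht ft => ?_
  have : Fintype t := ft.fintype
  refine algInd_of_dR_fin ?_
  choose f hf using fun x : t => ht x.2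
  have h1 : (fun x : t => dR (x : ℝ)) = (fun i => dR (a i)) ∘ f := by
    funext x
    rw [Function.comp_apply, hf x]
  rw [h1]
  refine h.comp _ fun x y hxy => ?_
  rw [Subtype.ext_iff, ← hf x, ← hf y, hxy]

end Pool.Agent.Lib.MP_5d015b_lc.JJ
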