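import Pool.Agent.Lib.MP_5d015b_lc.JJ.A4

/-!
# Generic points are dense
-/

set_option autoImplicit false
set_option linter.unusedSectionVars false

namespace Pool.Agent.Lib.MP_5d015b_lc.JJ

theorem exists_box_indep (ι : Type) [Finite ι] : ∀ l u : ι → ℝ, (∀ i, l i < u i) →
    ∃ a : ι → ℝ, (∀ i, a i ∈ Set.Ioo (l i) (u i)) ∧ LinearIndependent ℝ (fun i => dR (a i)) := by
  refine Finite.induction_empty_option (P := fun ι => ∀ l u : ι → ℝ, (∀ i, l i < u i) →
    ∃ a : ι → ℝ, (∀ i, a i ∈ Set.Ioo (l i) (u i)) ∧ LinearIndependent ℝ (fun i => dR (a i)))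
    ?_ ?_ ?_ ι
  · intro α β e h l u hlu
    obtain ⟨a, ha, hi⟩ := h (l ∘ e) (u ∘ e) fun i => hlu (e i)
    refine ⟨a ∘ e.symm, fun i => ?_, hi.comp e.symm e.symm.injective⟩
    have h1 := ha (e.symm i)
    rw [Function.comp_apply, Function.comp_apply, e.apply_symm_apply] at h1
    exact h1
  · intro l u _
    exact ⟨fun i => i.elim, fun i => i.elim, linearIndependent_empty_type⟩
  · intro α _ h l u hlu
    obtain ⟨c, hc, hi⟩ := h (fun i => l (some i)) (fun i => u (some i)) fun i => hlu (some i)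
    obtain ⟨t, ht, hi2⟩ := exists_indep_mem hi (hlu none)
    refine ⟨fun i => i.elim t c, fun i => ?_, hi2⟩
    cases i with
    | none => exact ht
    | some i => exact hc i

theorem exists_algInd_mem {ι : Type} [Finite ι] {U : Set (ι → ℝ)} (hU : IsOpen U)
    (hne : U.Nonempty) : ∃ a ∈ U, AlgebraicIndependent ℚ a := by
  have : Fintype ι := Fintype.ofFinite ι
  obtain ⟨x, hx⟩ := hne
  obtain ⟨ε, hε, hb⟩ := Metric.isOpen_iff.1 hU x hx
  obtain ⟨a, ha, hi⟩ := exists_box_indep ι (fun i => x i - ε) (fun i => x i + ε)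
    fun i => by linarith
  refine ⟨a, hb ?_, algInd_of_dR hi⟩
  rw [Metric.mem_ball, dist_pi_lt_iff hε]
  intro i
  rw [Real.dist_eq, abs_lt]
  have := ha i
  constructor <;> linarith [this.1, this.2]

theorem exists_gen_mem {V : Type} [Fintype V] [DecidableEq V] {O : Set (V → Fin 2 → ℝ)}
    (hO : IsOpen O) (hne : O.Nonempty) : ∃ p ∈ O, Gen Finset.univ p := by
  obtain ⟨x, hx⟩ := hne
  let F : (V × Fin 2 → ℝ) → (V → Fin 2 → ℝ) := fun a v i => a (v, i)
  have hF : Continuous F := continuous_pi fun v => continuous_pi fun i => continuous_apply (v, i)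
  obtain ⟨a, ha, hi⟩ := exists_algInd_mem (hO.preimage hF)
    ⟨fun y => x y.1 y.2, hx⟩
  refine ⟨F a, ha, ?_⟩
  unfold Gen
  have h1 := dR_of_algInd hi
  exact h1.comp (fun x : ↥(Finset.univ : Finset V) × Fin 2 => ((x.1 : V), x.2)) fun x y hxy => by
    obtain ⟨⟨a, _⟩, i⟩ := x
    obtain ⟨⟨b, _⟩, j⟩ := y
    simp only [Prod.mk.injEq] at hxy
    obtain ⟨h1, h2⟩ := hxy
    subst h1 h2
    rfl

end Pool.Agent.Lib.MP_5d015b_lc.JJ
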