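import Pool.Agent.Lib.MP_5d015b_lc.JJ.A1
import Pool.Agent.Lib.MP_5d015b_lc.JJ.A2

/-!
# Every interval contains a real number which is independent of finitely many given ones
-/

set_option autoImplicit false
set_option linter.unusedSectionVars false

namespace Pool.Agent.Lib.MP_5d015b_lc.JJ

theorem countable_mvPolynomial (ι : Type*) [Finite ι] : Countable (MvPolynomial ι ℚ) := by
  rw [← Cardinal.mk_le_aleph0_iff]
  refine MvPolynomial.cardinalMk_le_max_lift.trans ?_
  refine sup_le (sup_le ?_ ?_) le_rfl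
  · rw [Cardinal.lift_le_aleph0]
    exact Cardinal.mk_le_aleph0
  · rw [Cardinal.lift_le_aleph0]
    exact (Cardinal.lt_aleph0_of_finite ι).le

theorem exists_indep_mem {ι : Type*} [Finite ι] {c : ι → ℝ}
    (hc : LinearIndependent ℝ (fun i => dR (c i))) {a b : ℝ} (hab : a < b) :
    ∃ t ∈ Set.Ioo a b, LinearIndependent ℝ (fun i : Option ι => dR (i.elim t c)) := by
  have h1 := algInd_of_dR hc
  have h2 : Countable (Algebra.adjoin ℚ (Set.range c)) := by
    have h3 := countable_mvPolynomial ι
    exact h1.aevalEquiv.surjective.countable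
  have h4 : Set.Countable {x : ℝ | IsAlgebraic (Algebra.adjoin ℚ (Set.range c)) x} :=
    Algebraic.countable _ _
  have h5 : ¬ (Set.Ioo a b).Countable := fun h => by
    have h6 := Cardinal.mk_Ioo_real hab
    have h7 := h.le_aleph0
    rw [h6] at h7
    exact absurd h7 (not_le.2 Cardinal.aleph0_lt_continuum)
  obtain ⟨t, ht, ht2⟩ : ∃ t ∈ Set.Ioo a b, t ∉ {x : ℝ | IsAlgebraic (Algebra.adjoin ℚ (Set.range c)) x} := by
    by_contra hc
    push Not at hc
    exact h5 (h4.mono fun t ht => hc t ht)
  exact ⟨t, ht, dR_of_algInd ((h1.option_iff_transcendental t).2 ht2)⟩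

end Pool.Agent.Lib.MP_5d015b_lc.JJ
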