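import Pool.Agent.Lib.MP_5d015b_lc.JJ.Defs

/-!
# Generic global rigidity in the plane: simple facts
-/

set_option autoImplicit false
set_option linter.unusedSectionVars false

namespace Pool.Agent.Lib.MP_5d015b_lc.JJ

theorem dR_add (x y : ℝ) : dR (x + y) = dR x + dR y := by
  rw [dR_def, dR_def, dR_def]
  exact (KaehlerDifferential.D ℚ ℝ).map_add x y

theorem dR_sub (x y : ℝ) : dR (x - y) = dR x - dR y := by
  rw [dR_def, dR_def, dR_def]
  exact (KaehlerDifferential.D ℚ ℝ).map_sub x y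

theorem dR_neg (x : ℝ) : dR (-x) = -dR x := by
  rw [dR_def, dR_def]
  exact (KaehlerDifferential.D ℚ ℝ).map_neg x

theorem dR_mul (x y : ℝ) : dR (x * y) = x • dR y + y • dR x := by
  rw [dR_def, dR_def, dR_def]
  exact (KaehlerDifferential.D ℚ ℝ).leibniz x y

theorem dR_sq (x : ℝ) : dR (x ^ 2) = (2 * x) • dR x := by
  rw [sq, dR_mul, ← add_smul, two_mul]

theorem dR_rat (q : ℚ) : dR (q : ℝ) = 0 := by
  rw [dR_def]
  exact (KaehlerDifferential.D ℚ ℝ).map_algebraMap q

theorem dR_zero : dR 0 = 0 := by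
  have := dR_rat 0
  rwa [Rat.cast_zero] at this

theorem dR_one : dR 1 = 0 := by
  have := dR_rat 1
  rwa [Rat.cast_one] at this

theorem dR_nat (n : ℕ) : dR (n : ℝ) = 0 := by
  have := dR_rat (n : ℚ)
  rwa [Rat.cast_natCast] at this

theorem dR_nat_mul (n : ℕ) (x : ℝ) : dR ((n : ℝ) * x) = (n : ℝ) • dR x := by
  rw [dR_mul, dR_nat, smul_zero, add_zero]

theorem dR_two_mul (x : ℝ) : dR (2 * x) = (2 : ℝ) • dR x := by
  have := dR_nat_mul 2 x
  simpa using this

theorem dR_sum {ι : Type*} (s : Finset ι) (f : ι → ℝ) :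
    dR (∑ i ∈ s, f i) = ∑ i ∈ s, dR (f i) := by
  classical
  induction s using Finset.induction_on with
  | empty => rw [Finset.sum_empty, Finset.sum_empty, dR_zero]
  | insert a s ha ih => rw [Finset.sum_insert ha, Finset.sum_insert ha, dR_add, ih]

/-! ### the reals whose differentials lie in a subspace form a field -/

section

variable {S : Submodule ℝ Om} {x y : ℝ}

theorem mem_add (hx : dR x ∈ S) (hy : dR y ∈ S) : dR (x + y) ∈ S := by
  rw [dR_add]
  exact S.add_mem hx hy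

theorem mem_sub (hx : dR x ∈ S) (hy : dR y ∈ S) : dR (x - y) ∈ S := by
  rw [dR_sub]
  exact S.sub_mem hx hy

theorem mem_neg (hx : dR x ∈ S) : dR (-x) ∈ S := by
  rw [dR_neg]
  exact S.neg_mem hx

theorem mem_mul (hx : dR x ∈ S) (hy : dR y ∈ S) : dR (x * y) ∈ S := by
  rw [dR_mul]
  exact S.add_mem (S.smul_mem _ hy) (S.smul_mem _ hx)

theorem mem_sq (hx : dR x ∈ S) : dR (x ^ 2) ∈ S := by
  rw [dR_sq]
  exact S.smul_mem _ hx

theorem mem_rat (q : ℚ) : dR (q : ℝ) ∈ S := by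
  rw [dR_rat]
  exact S.zero_mem

theorem mem_two : dR 2 ∈ S := by
  have := mem_rat (S := S) 2
  simpa using this

end

variable {V : Type*} [DecidableEq V]
variable {M : Type*} [AddCommGroup M] [Module ℝ M]

theorem sqd_comm (p : V → Fin 2 → ℝ) (u v : V) : sqd p u v = sqd p v u := by
  unfold sqd
  ring

theorem sqd_self (p : V → Fin 2 → ℝ) (u : V) : sqd p u u = 0 := by
  unfold sqd
  ring

theorem sqd_nonneg (p : V → Fin 2 → ℝ) (u v : V) : 0 ≤ sqd p u v := by
  unfold sqd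
  positivity

theorem dR_sqd (p : V → Fin 2 → ℝ) (u v : V) :
    dR (sqd p u v) = (2 : ℝ) • ef p u v fun w i => dR (p w i) := by
  unfold sqd ef
  rw [dR_add, dR_sq, dR_sq, dR_sub, dR_sub, smul_add, smul_smul, smul_smul]

theorem ef_self (p : V → Fin 2 → ℝ) (u : V) (m : V → Fin 2 → M) : ef p u u m = 0 := by
  unfold ef
  rw [sub_self, sub_self, sub_self, sub_self, smul_zero, add_zero]

theorem ef_comm (p : V → Fin 2 → ℝ) (u v : V) (m : V → Fin 2 → M) : ef p u v m = ef p v u m := by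
  unfold ef
  rw [← neg_sub (p v 0) (p u 0), ← neg_sub (m v 0) (m u 0), ← neg_sub (p v 1) (p u 1),
    ← neg_sub (m v 1) (m u 1), neg_smul, smul_neg, neg_neg, neg_smul, smul_neg, neg_neg]

theorem rhoM_pair (p : V → Fin 2 → ℝ) {u v : V} (h : u ≠ v) (m : V → Fin 2 → M) :
    rhoM p {u, v} m = (2 : ℝ) • ef p u v m := by
  unfold rhoM
  rw [Finset.sum_pair h, Finset.sum_pair h, Finset.sum_pair h, ef_self, ef_self, ef_comm p v u,
    zero_add, add_zero, two_smul]

theorem rhoM_real (p : V → Fin 2 → ℝ) (e : Finset V) (m : V → Fin 2 → ℝ) :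
    rhoM p e m = rho p e m := rfl

theorem ef_real (p m : V → Fin 2 → ℝ) (u v : V) :
    ef p u v m = (p u 0 - p v 0) * (m u 0 - m v 0) + (p u 1 - p v 1) * (m u 1 - m v 1) := rfl

theorem rho_ef (p m : V → Fin 2 → ℝ) {u v : V} (h : u ≠ v) :
    rho p {u, v} m = 2 * ef p u v m := rho_pair p m h

theorem rho_self_pair (p : V → Fin 2 → ℝ) {u v : V} (h : u ≠ v) :
    rho p {u, v} p = 2 * sqd p u v := by
  rw [rho_ef p p h, ef_real]
  unfold sqd
  ring

theorem ef_map {M' : Type*} [AddCommGroup M'] [Module ℝ M'] (f : M →ₗ[ℝ] M')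
    (p : V → Fin 2 → ℝ) (u v : V) (m : V → Fin 2 → M) :
    f (ef p u v m) = ef p u v fun w i => f (m w i) := by
  unfold ef
  rw [map_add, map_smul, map_smul, map_sub, map_sub]

theorem rhoM_map {M' : Type*} [AddCommGroup M'] [Module ℝ M'] (f : M →ₗ[ℝ] M')
    (p : V → Fin 2 → ℝ) (e : Finset V) (m : V → Fin 2 → M) :
    f (rhoM p e m) = rhoM p e fun w i => f (m w i) := by
  unfold rhoM
  rw [map_sum]
  refine Finset.sum_congr rfl fun u _ => ?_
  rw [map_sum]
  exact Finset.sum_congr rfl fun v _ => ef_map f p u v m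

theorem dR_rho (p : V → Fin 2 → ℝ) (e : Finset V) :
    dR (rho p e p) = (2 : ℝ) • rhoM p e fun w i => dR (p w i) := by
  have h : rho p e p = ∑ u ∈ e, ∑ v ∈ e, sqd p u v := by
    rw [rho_apply]
    refine Finset.sum_congr rfl fun u _ => Finset.sum_congr rfl fun v _ => ?_
    unfold sqd
    ring
  unfold rhoM
  rw [h, dR_sum, Finset.smul_sum]
  refine Finset.sum_congr rfl fun u _ => ?_
  rw [dR_sum, Finset.smul_sum]
  exact Finset.sum_congr rfl fun v _ => dR_sqd p u v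

theorem mem_spanW {W : Finset V} {p : V → Fin 2 → ℝ} {v : V} (hv : v ∈ W) (i : Fin 2) :
    dR (p v i) ∈ spanW W p := Submodule.subset_span ⟨(⟨v, hv⟩, i), rfl⟩

theorem Gen.mono {W W' : Finset V} {p : V → Fin 2 → ℝ} (hp : Gen W p) (h : W' ⊆ W) :
    Gen W' p := by
  unfold Gen at hp ⊢
  have hinj : Function.Injective (fun x : ↥W' × Fin 2 => ((⟨x.1.1, h x.1.2⟩, x.2) : ↥W × Fin 2)) := by
    rintro ⟨⟨a, ha⟩, i⟩ ⟨⟨b, hb⟩, j⟩ hab
    simp only [Prod.mk.injEq, Subtype.mk.injEq] at hab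
    obtain ⟨h1, h2⟩ := hab
    subst h1 h2
    rfl
  exact hp.comp _ hinj

theorem mem_delV {E : Finset (Finset V)} {v : V} {e : Finset V} :
    e ∈ delV E v ↔ e ∈ E ∧ v ∉ e := by
  unfold delV
  rw [Finset.mem_filter]

theorem mem_clique_iff {P : Finset V} {e : Finset V} : e ∈ clique P ↔ e ⊆ P ∧ e.card = 2 := by
  unfold clique
  rw [Finset.mem_powersetCard]

theorem pair_mem_clique {P : Finset V} {u v : V} (hu : u ∈ P) (hv : v ∈ P) (h : u ≠ v) :
    ({u, v} : Finset V) ∈ clique P := by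
  rw [mem_clique_iff]
  refine ⟨?_, Finset.card_pair h⟩
  intro x hx
  rw [Finset.mem_insert, Finset.mem_singleton] at hx
  rcases hx with rfl | rfl
  · exact hu
  · exact hv

end Pool.Agent.Lib.MP_5d015b_lc.JJ
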