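import Pool.Agent.Lib.MP_5d015b_lc.JJ.Basic
import Pool.Agent.Lib.MP_5d015b_lc.SP2

/-!
# Removal of a vertex which is joined to a rigid subgraph
-/

set_option autoImplicit false
set_option linter.unusedSectionVars false

namespace Pool.Agent.Lib.MP_5d015b_lc.JJ

variable {V : Type*} [DecidableEq V]

/-- maximal sparse sets are largest sparse sets -/
theorem maxSp_card_le {W : Finset V} {E D D' : Finset (Finset V)} (hG : IsGraph W E)
    (hD : MaxSp E D) (hD'E : D' ⊆ E) (hD' : Sparse D') : D'.card ≤ D.card := by
  have hDW : ∀ e ∈ D, e ⊆ W := fun e he => hG.sub e (hD.1 he)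
  obtain ⟨M, m1, m2, m3, m4⟩ := exists_family hD.2.1 hDW
  have h1 : D' ⊆ M.biUnion (ins D') := by
    intro e he
    obtain ⟨X, hX, heX⟩ := exists_tight hD hG.card_two (hD'E he)
    obtain ⟨Z, hZ, hXZ⟩ := m2 X hX
    rw [Finset.mem_biUnion]
    exact ⟨Z, hZ, mem_ins.2 ⟨he, heX.trans hXZ⟩⟩
  calc D'.card ≤ (M.biUnion (ins D')).card := Finset.card_le_card h1
    _ ≤ ∑ Z ∈ M, (ins D' Z).card := Finset.card_biUnion_le
    _ ≤ ∑ Z ∈ M, (2 * Z.card - 3) := by
      apply Finset.sum_le_sum
      intro Z hZ
      have h3 := hD'.2 Z (m1 Z hZ).1.1
      omega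
    _ = D.card := m4.symm

/-- at most one edge lies in a set with two elements -/
theorem ins_card_le_one {F : Finset (Finset V)} (hF : ∀ e ∈ F, e.card = 2) {X : Finset V}
    (hX : X.card = 2) : (ins F X).card ≤ 1 := by
  rw [Finset.card_le_one]
  intro e he f hf
  rw [mem_ins] at he hf
  have h1 : e = X := Finset.eq_of_subset_of_card_le he.2 (by rw [hX, hF e he.1])
  have h2 : f = X := Finset.eq_of_subset_of_card_le hf.2 (by rw [hX, hF f hf.1])
  rw [h1, h2]

/-- a new vertex joined to two vertices -/
theorem sparse_zero_ext {D : Finset (Finset V)} (hS : Sparse D) {v a b : V}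
    (hv : ∀ e ∈ D, v ∉ e) (ha : v ≠ a) (hb : v ≠ b) :
    Sparse (insert {v, a} (insert {v, b} D)) := by
  have h2 : ∀ e ∈ insert ({v, a} : Finset V) (insert {v, b} D), e.card = 2 := by
    intro e he
    rw [Finset.mem_insert, Finset.mem_insert] at he
    rcases he with rfl | rfl | he
    · exact Finset.card_pair ha
    · exact Finset.card_pair hb
    · exact hS.1 e he
  refine ⟨h2, ?_⟩
  intro X hX
  by_cases hvX : v ∈ X
  · rcases Nat.lt_or_ge 2 X.card with h3 | h3
    · have h4 : ins (insert ({v, a} : Finset V) (insert {v, b} D)) X ⊆
          insert {v, a} (insert {v, b} (ins D (X.erase v))) := by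
        intro e he
        rw [mem_ins, Finset.mem_insert, Finset.mem_insert] at he
        rw [Finset.mem_insert, Finset.mem_insert, mem_ins]
        obtain ⟨h5 | h5 | h5, h6⟩ := he
        · exact Or.inl h5
        · exact Or.inr (Or.inl h5)
        · refine Or.inr (Or.inr ⟨h5, ?_⟩)
          intro x hx
          rw [Finset.mem_erase]
          refine ⟨?_, h6 hx⟩
          rintro rfl
          exact hv e h5 hx
      have h5 := Finset.card_le_card h4
      have h6 := Finset.card_insert_le ({v, a} : Finset V) (insert {v, b} (ins D (X.erase v)))
      have h7 := Finset.card_insert_le ({v, b} : Finset V) (ins D (X.erase v))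
      have h8 := Finset.card_erase_of_mem hvX
      have h9 := hS.2 (X.erase v) (by omega)
      omega
    · have h4 := ins_card_le_one h2 (X := X) (by omega)
      omega
  · have h3 : ins (insert ({v, a} : Finset V) (insert {v, b} D)) X ⊆ ins D X := by
      intro e he
      rw [mem_ins, Finset.mem_insert, Finset.mem_insert] at he
      rw [mem_ins]
      obtain ⟨h5 | h5 | h5, h6⟩ := he
      · exact absurd (h6 (by rw [h5]; simp)) hvX
      · exact absurd (h6 (by rw [h5]; simp)) hvX
      · exact ⟨h5, h6⟩
    have h4 := Finset.card_le_card h3
    have h5 := hS.2 X hX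
    omega

theorem star_remove {W : Finset V} {Q L : Finset (Finset V)} {N : Finset V} {v : V} (hv : v ∉ W)
    (hQ : IsGraph W Q) (hLQ : L ⊆ Q) (hL : IsGraph N L) (hS : Sparse L)
    (hc : L.card + 3 = 2 * N.card) (h2 : 2 ≤ N.card) (hN : N ⊆ W)
    (hR : Rigid (insert v W) (Q ∪ starE v N)) : Rigid W Q := by
  obtain ⟨D, hLD, hD⟩ := exists_maxSp hS hLQ
  obtain ⟨a, ha, b, hb, hab⟩ := Finset.one_lt_card.1 (show 1 < N.card by omega)
  have hvD : ∀ e ∈ D, v ∉ e := fun e he h => hv (hQ.sub e (hD.1 he) h)
  have hvN : v ∉ N := fun h => hv (hN h)
  have hva : v ≠ a := by rintro rfl; exact hvN ha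
  have hvb : v ≠ b := by rintro rfl; exact hvN hb
  have hS' := sparse_zero_ext hD.2.1 hvD hva hvb
  have hpair : ∀ x y : V, v ≠ x → v ≠ y → ({v, x} : Finset V) = {v, y} → x = y := by
    intro x y hx hy h
    have : x ∈ ({v, y} : Finset V) := by rw [← h]; simp
    rw [Finset.mem_insert, Finset.mem_singleton] at this
    rcases this with h | h
    · exact absurd h.symm hx
    · exact h
  have hbD : ({v, b} : Finset V) ∉ D := fun h => hvD _ h (by simp)
  have haD : ({v, a} : Finset V) ∉ insert ({v, b} : Finset V) D := by
    rw [Finset.mem_insert]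
    rintro (h | h)
    · exact hab (hpair a b hva hvb h)
    · exact hvD _ h (by simp)
  have hcard : (insert ({v, a} : Finset V) (insert {v, b} D)).card = D.card + 2 := by
    rw [Finset.card_insert_of_notMem haD, Finset.card_insert_of_notMem hbD]
  have hG' : IsGraph (insert v W) (Q ∪ starE v N) := by
    constructor
    · intro e he
      rw [Finset.mem_union] at he
      rcases he with he | he
      · exact hQ.card_two e he
      · unfold starE at he
        rw [Finset.mem_image] at he
        obtain ⟨x, hx, rfl⟩ := he
        refine Finset.card_pair ?_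
        rintro rfl
        exact hvN hx
    · intro e he
      rw [Finset.mem_union] at he
      rcases he with he | he
      · exact (hQ.sub e he).trans (Finset.subset_insert v W)
      · unfold starE at he
        rw [Finset.mem_image] at he
        obtain ⟨x, hx, rfl⟩ := he
        intro y hy
        rw [Finset.mem_insert, Finset.mem_singleton] at hy
        rw [Finset.mem_insert]
        rcases hy with rfl | rfl
        · exact Or.inl rfl
        · exact Or.inr (hN hx)
  have hM : MaxSp (Q ∪ starE v N) (insert ({v, a} : Finset V) (insert {v, b} D)) := by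
    refine ⟨?_, hS', ?_⟩
    · intro e he
      rw [Finset.mem_insert, Finset.mem_insert] at he
      rw [Finset.mem_union]
      rcases he with rfl | rfl | he
      · exact Or.inr (Finset.mem_image.2 ⟨a, ha, rfl⟩)
      · exact Or.inr (Finset.mem_image.2 ⟨b, hb, rfl⟩)
      · exact Or.inl (hD.1 he)
    · intro e he heD hsp
      rw [Finset.mem_union] at he
      rcases he with he | he
      · refine hD.2.2 e he ?_ (hsp.mono ?_)
        · intro h
          exact heD (Finset.mem_insert_of_mem (Finset.mem_insert_of_mem h))
        · exact Finset.insert_subset_insert _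
            ((Finset.subset_insert _ _).trans (Finset.subset_insert _ _))
      · unfold starE at he
        rw [Finset.mem_image] at he
        obtain ⟨x, hx, rfl⟩ := he
        have h3 : (insert v N).card = N.card + 1 := Finset.card_insert_of_notMem hvN
        have h4 := hsp.2 (insert v N) (by omega)
        have h5 : insert ({v, x} : Finset V) (insert {v, a} (insert {v, b} L)) ⊆
            ins (insert ({v, x} : Finset V) (insert {v, a} (insert {v, b} D))) (insert v N) := by
          intro e he
          rw [mem_ins]
          have hsub : ∀ y ∈ N, ({v, y} : Finset V) ⊆ insert v N := by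
            intro y hy z hz
            rw [Finset.mem_insert, Finset.mem_singleton] at hz
            rw [Finset.mem_insert]
            rcases hz with rfl | rfl
            · exact Or.inl rfl
            · exact Or.inr hy
          rw [Finset.mem_insert, Finset.mem_insert, Finset.mem_insert] at he
          rcases he with rfl | rfl | rfl | he
          · exact ⟨by simp, hsub x hx⟩
          · exact ⟨by simp, hsub a ha⟩
          · exact ⟨by simp, hsub b hb⟩
          · refine ⟨?_, (hL.sub e he).trans (Finset.subset_insert v N)⟩
            exact Finset.mem_insert_of_mem (Finset.mem_insert_of_mem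
              (Finset.mem_insert_of_mem (hLD he)))
        have h6 := Finset.card_le_card h5
        have hvx : v ≠ x := by rintro rfl; exact hvN hx
        have hL' : ∀ y, ({v, y} : Finset V) ∉ L := fun y h => hvD _ (hLD h) (by simp)
        have h7 : (insert ({v, x} : Finset V) (insert {v, a} (insert {v, b} L))).card =
            L.card + 3 := by
          rw [Finset.card_insert_of_notMem, Finset.card_insert_of_notMem,
            Finset.card_insert_of_notMem (hL' b)]
          · rw [Finset.mem_insert]
            rintro (h | h)
            · exact hab (hpair a b hva hvb h)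
            · exact hL' a h
          · rw [Finset.mem_insert, Finset.mem_insert]
            rintro (h | h | h)
            · exact heD (by rw [h]; simp)
            · exact heD (by rw [h]; simp)
            · exact hL' x h
        omega
  have h3 := (rigid_iff hG' hM).1 hR
  rw [hcard, Finset.card_insert_of_notMem hv] at h3
  exact ⟨D, hD.1, hD.2.1, by omega⟩

end Pool.Agent.Lib.MP_5d015b_lc.JJ
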