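import Pool.Agent.Lib.MP_5d015b_lc.JJ.C1

/-!
# Laman subgraphs of complete graphs
-/

set_option autoImplicit false
set_option linter.unusedSectionVars false

namespace Pool.Agent.Lib.MP_5d015b_lc.JJ

variable {V : Type*} [DecidableEq V]

theorem exists_laman_fan {s t : V} (hst : s ≠ t) (M : Finset V) (hs : s ∉ M) (ht : t ∉ M) :
    ∃ L : Finset (Finset V), Sparse L ∧ (∀ e ∈ L, e ⊆ insert s (insert t M)) ∧
      (∀ e ∈ L, s ∈ e ∨ t ∈ e) ∧ L.card = 2 * M.card + 1 := by
  induction M using Finset.induction_on with
  | empty =>
    refine ⟨{{s, t}}, ?_, ?_, ?_, ?_⟩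
    · constructor
      · intro e he
        rw [Finset.mem_singleton] at he
        rw [he, Finset.card_pair hst]
      · intro X hX
        have h1 := Finset.card_le_card (Finset.filter_subset (fun e => e ⊆ X)
          ({{s, t}} : Finset (Finset V)))
        rw [Finset.card_singleton] at h1
        unfold ins
        omega
    · intro e he
      rw [Finset.mem_singleton] at he
      rw [he]
      exact Finset.Subset.refl _
    · intro e he
      rw [Finset.mem_singleton] at he
      rw [he]
      exact Or.inl (by simp)
    · rw [Finset.card_singleton, Finset.card_empty]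
  | insert x M hx ih =>
    rw [Finset.mem_insert, not_or] at hs ht
    obtain ⟨L, h1, h2, h3, h4⟩ := ih hs.2 ht.2
    have hxL : ∀ e ∈ L, x ∉ e := by
      intro e he hxe
      have := h2 e he hxe
      rw [Finset.mem_insert, Finset.mem_insert] at this
      rcases this with h | h | h
      · exact hs.1 h.symm
      · exact ht.1 h.symm
      · exact hx h
    have hsub : insert s (insert t M) ⊆ insert s (insert t (insert x M)) :=
      Finset.insert_subset_insert _ (Finset.insert_subset_insert _ (Finset.subset_insert _ _))
    have hxW : x ∈ insert s (insert t (insert x M)) := by simp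
    refine ⟨insert {x, s} (insert {x, t} L), sparse_zero_ext h1 hxL (Ne.symm hs.1) (Ne.symm ht.1),
      ?_, ?_, ?_⟩
    · intro e he
      rw [Finset.mem_insert, Finset.mem_insert] at he
      rcases he with rfl | rfl | he
      · intro y hy
        rw [Finset.mem_insert, Finset.mem_singleton] at hy
        rcases hy with rfl | rfl
        · exact hxW
        · simp
      · intro y hy
        rw [Finset.mem_insert, Finset.mem_singleton] at hy
        rcases hy with rfl | rfl
        · exact hxW
        · simp
      · exact (h2 e he).trans hsub
    · intro e he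
      rw [Finset.mem_insert, Finset.mem_insert] at he
      rcases he with rfl | rfl | he
      · exact Or.inl (by simp)
      · exact Or.inr (by simp)
      · exact h3 e he
    · rw [Finset.card_insert_of_notMem, Finset.card_insert_of_notMem,
        Finset.card_insert_of_notMem hx, h4]
      · ring
      · exact fun h => hxL _ h (by simp)
      · rw [Finset.mem_insert]
        rintro (h | h)
        · have : s ∈ ({x, t} : Finset V) := by rw [← h]; simp
          rw [Finset.mem_insert, Finset.mem_singleton] at this
          rcases this with h | h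
          · exact hs.1 h
          · exact hst h
        · exact hxL _ h (by simp)

theorem exists_laman_clique {N f : Finset V} (h4 : 4 ≤ N.card) (hf : f.card = 2) :
    ∃ L ⊆ (clique N).erase f, Sparse L ∧ L.card + 3 = 2 * N.card := by
  have h1 : 1 < (N \ f).card := by
    have := Finset.le_card_sdiff f N
    omega
  obtain ⟨s, hs, t, ht, hst⟩ := Finset.one_lt_card.1 h1
  rw [Finset.mem_sdiff] at hs ht
  have htN : t ∈ N.erase s := Finset.mem_erase.2 ⟨Ne.symm hst, ht.1⟩
  have hs' : s ∉ (N.erase s).erase t := by
    intro h
    exact (Finset.mem_erase.1 (Finset.mem_erase.1 h).2).1 rfl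
  have ht' : t ∉ (N.erase s).erase t := fun h => (Finset.mem_erase.1 h).1 rfl
  obtain ⟨L, l1, l2, l3, l4⟩ := exists_laman_fan hst ((N.erase s).erase t) hs' ht'
  rw [Finset.insert_erase htN, Finset.insert_erase hs.1] at l2
  have hc1 := Finset.card_erase_of_mem htN
  have hc2 := Finset.card_erase_of_mem hs.1
  refine ⟨L, ?_, l1, by omega⟩
  intro e he
  rw [Finset.mem_erase, mem_clique_iff]
  refine ⟨?_, l2 e he, l1.1 e he⟩
  rintro rfl
  rcases l3 e he with h | h
  · exact hs.2 h
  · exact ht.2 h

theorem laman_triple {N : Finset V} (h : N.card = 3) :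
    Sparse (clique N) ∧ (clique N).card + 3 = 2 * N.card := by
  have hcard : ∀ P : Finset V, (clique P).card = P.card.choose 2 := by
    intro P
    unfold clique
    exact Finset.card_powersetCard 2 P
  refine ⟨⟨fun e he => (mem_clique_iff.1 he).2, ?_⟩, ?_⟩
  · intro X hX
    have h1 : ins (clique N) X ⊆ clique (X ∩ N) := by
      intro e he
      rw [mem_ins, mem_clique_iff] at he
      rw [mem_clique_iff]
      exact ⟨Finset.subset_inter he.2 he.1.1, he.1.2⟩
    have h2 := Finset.card_le_card h1
    rw [hcard] at h2
    have h3 : (X ∩ N).card ≤ X.card := Finset.card_le_card Finset.inter_subset_left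
    have h4 : (X ∩ N).card ≤ N.card := Finset.card_le_card Finset.inter_subset_right
    rw [h] at h4
    have h5 : (X ∩ N).card.choose 2 + 3 ≤ 2 * X.card := by
      generalize (X ∩ N).card = k at h3 h4
      have h6 : k = 0 ∨ k = 1 ∨ k = 2 ∨ k = 3 := by omega
      rcases h6 with rfl | rfl | rfl | rfl
      · have : Nat.choose 0 2 = 0 := by decide
        omega
      · have : Nat.choose 1 2 = 0 := by decide
        omega
      · have : Nat.choose 2 2 = 1 := by decide
        omega
      · have : Nat.choose 3 2 = 3 := by decide
        omega
    omega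
  · rw [hcard, h]
    decide

end Pool.Agent.Lib.MP_5d015b_lc.JJ
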