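import Pool.Agent.Lib.MP_5d015b_lc.JJ.C1
import Pool.Agent.Lib.MP_5d015b_lc.NBS
import Pool.Agent.Lib.MP_5d015b_lc.MONO

/-!
# The graph without `v` and with a clique on the neighbours of `v`
-/

set_option autoImplicit false
set_option linter.unusedSectionVars false

namespace Pool.Agent.Lib.MP_5d015b_lc.JJ

variable {V : Type*} [DecidableEq V]

theorem nb_single_sub {W : Finset V} {E : Finset (Finset V)} {v : V} (hG : IsGraph W E) :
    nb E {v} ⊆ W.erase v := by
  intro x hx
  have := nb_sub hG {v} hx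
  rw [Finset.mem_sdiff, Finset.mem_singleton] at this
  exact Finset.mem_erase.2 ⟨this.2, this.1⟩

theorem isGraph_delV {W : Finset V} {E : Finset (Finset V)} {v : V} (hG : IsGraph W E) :
    IsGraph (W.erase v) (delV E v) := by
  constructor
  · intro e he
    exact hG.card_two e (mem_delV.1 he).1
  · intro e he x hx
    rw [Finset.mem_erase]
    rw [mem_delV] at he
    refine ⟨?_, hG.sub e he.1 hx⟩
    rintro rfl
    exact he.2 hx

theorem isGraph_delV_clique {W : Finset V} {E : Finset (Finset V)} {v : V} (hG : IsGraph W E) :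
    IsGraph (W.erase v) (delV E v ∪ clique (nb E {v})) :=
  isGraph_clique (isGraph_delV hG) (nb_single_sub hG)

theorem isGraph_mono_edges {W : Finset V} {E E' : Finset (Finset V)} (hG : IsGraph W E)
    (h : E' ⊆ E) : IsGraph W E' :=
  ⟨fun e he => hG.card_two e (h he), fun e he => hG.sub e (h he)⟩

theorem mem_nb_single {W : Finset V} {E : Finset (Finset V)} (hG : IsGraph W E) {v x : V} :
    x ∈ nb E {v} ↔ x ≠ v ∧ ({v, x} : Finset V) ∈ E := by
  rw [mem_nb hG, Finset.mem_singleton]
  constructor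
  · rintro ⟨h1, u, hu, h2⟩
    rw [Finset.mem_singleton] at hu
    rw [hu] at h2
    exact ⟨h1, h2⟩
  · rintro ⟨h1, h2⟩
    exact ⟨h1, v, by simp, h2⟩

theorem edge_eq_star {W : Finset V} {E : Finset (Finset V)} (hG : IsGraph W E) {v : V}
    {e : Finset V} (he : e ∈ E) (hv : v ∈ e) : e ∈ starE v (nb E {v}) := by
  have h1 : (e.erase v).card = 1 := by
    rw [Finset.card_erase_of_mem hv, hG.card_two e he]
  obtain ⟨x, hx⟩ := Finset.card_eq_one.1 h1
  have h2 : e = {v, x} := by
    rw [← Finset.insert_erase hv, hx]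
  have h3 : x ≠ v := by
    have : x ∈ e.erase v := by rw [hx]; simp
    exact (Finset.mem_erase.1 this).1
  unfold starE
  rw [Finset.mem_image]
  refine ⟨x, ?_, h2.symm⟩
  rw [mem_nb_single hG]
  exact ⟨h3, h2 ▸ he⟩

theorem rigid_clique_case {W : Finset V} {E : Finset (Finset V)} {v : V} {f : Finset V}
    (hG : IsGraph W E) (hv : v ∈ W) (hE : Rigid W (E.erase f)) (hfv : v ∉ f)
    {L : Finset (Finset V)} (hL : L ⊆ clique (nb E {v})) (hfL : f ∉ L) (hS : Sparse L)
    (hc : L.card + 3 = 2 * (nb E {v}).card) (h2 : 2 ≤ (nb E {v}).card) :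
    Rigid (W.erase v) ((delV E v ∪ clique (nb E {v})).erase f) := by
  refine star_remove (N := nb E {v}) (v := v) (L := L) (Finset.notMem_erase v W)
    (isGraph_mono_edges (isGraph_delV_clique hG) (Finset.erase_subset _ _)) ?_ ?_ hS hc h2
    (nb_single_sub hG) ?_
  · intro e he
    rw [Finset.mem_erase, Finset.mem_union]
    refine ⟨?_, Or.inr (hL he)⟩
    rintro rfl
    exact hfL he
  · exact ⟨fun e he => (mem_clique_iff.1 (hL he)).2, fun e he => (mem_clique_iff.1 (hL he)).1⟩
  · rw [Finset.insert_erase hv]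
    refine hE.mono ?_
    intro e he
    rw [Finset.mem_erase] at he
    rw [Finset.mem_union, Finset.mem_erase, Finset.mem_union, mem_delV]
    by_cases hve : v ∈ e
    · exact Or.inr (edge_eq_star hG he.2 hve)
    · exact Or.inl ⟨he.1, Or.inl ⟨he.2, hve⟩⟩

end Pool.Agent.Lib.MP_5d015b_lc.JJ
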