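import Pool.Agent.Lib.MP_5d015b_lc.JJ.C8

/-!
# Module C9: contradiction
-/

set_option autoImplicit false
set_option linter.unusedSectionVars false

namespace Pool.Agent.Lib.MP_5d015b_lc.JJ

variable {V : Type*} [DecidableEq V]

theorem D3.c9_cover {W : Finset V} {E : Finset (Finset V)} {v a b c : V} {B XX : Finset (Finset V)}
    {X Y : Finset V} (h : D3 W E v a b c B XX X Y) : ∀ w ∈ W.erase v, ∃ Z ∈ XX, w ∈ Z := by
  intro w hw
  rw [Finset.mem_erase] at hw
  by_cases hwa : w = a
  · exact ⟨X, h.hX1, by rw [hwa]; exact h.haX⟩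
  by_cases hwb : w = b
  · exact ⟨Y, h.hY1, by rw [hwb]; exact h.hbY⟩
  have hnb3 : 3 ≤ (nb E {w}).card := by
    by_cases hall : {w} ∪ nb E {w} = W
    · have h1 := Finset.card_union_le {w} (nb E {w})
      rw [hall, Finset.card_singleton] at h1
      have := h.h5
      omega
    · exact h.hC.2 {w} (Finset.singleton_subset_iff.2 hw.2) (Finset.singleton_nonempty w) hall
  obtain ⟨x, hx, hxv⟩ : ∃ x ∈ nb E {w}, x ≠ v := by
    by_contra hcon
    push Not at hcon
    have h1 : nb E {w} ⊆ {v} := by
      intro x hx
      rw [Finset.mem_singleton]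
      exact hcon x hx
    have h2 := Finset.card_le_card h1
    rw [Finset.card_singleton] at h2
    omega
  rw [mem_nb h.hG] at hx
  obtain ⟨_, u, hu, hux⟩ := hx
  rw [Finset.mem_singleton] at hu
  subst hu
  obtain ⟨Z, hZ, hsub⟩ := h.c8_cover hux (by
    rw [Finset.mem_insert, Finset.mem_singleton]
    rintro (h1 | h1)
    · exact hw.1 h1.symm
    · exact hxv h1.symm) (by
    intro h1
    have h2 : u ∈ ({a, b} : Finset V) := by
      rw [← h1]
      exact Finset.mem_insert_self _ _
    rw [Finset.mem_insert, Finset.mem_singleton] at h2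
    rcases h2 with h2 | h2
    · exact hwa h2
    · exact hwb h2)
  exact ⟨Z, hZ, hsub (Finset.mem_insert_self _ _)⟩

theorem D3.false {W : Finset V} {E : Finset (Finset V)} {v a b c : V} {B XX : Finset (Finset V)}
    {X Y : Finset V} (h : D3 W E v a b c B XX X Y) : False := by
  obtain ⟨s1, s2, s3, s4, s5⟩ := h.share
  have hXY := h.ne.1
  have hcount := share_count (U := W.erase v) (XX := XX) (fun Z hZ => h.c8_sub hZ) h.c9_cover
  have hsum := tight_sum h.hB.2.1 h.hX.tight h.hX.inter
    (fun e he => h.hX.cover e (h.hB.1 he))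
  have hcard := h.card
  -- lower bound
  have hlow : 3 * XX.card + (shared XX X).card + (shared XX Y).card ≤
      ∑ Z ∈ XX, (shared XX Z).card + 6 := by
    have e1 : ∑ Z ∈ XX, (shared XX Z).card =
        (shared XX X).card + ((shared XX Y).card +
          ∑ Z ∈ (XX.erase X).erase Y, (shared XX Z).card) := by
      rw [← Finset.add_sum_erase _ _ h.hX1, ← Finset.add_sum_erase _ _
        (Finset.mem_erase.2 ⟨fun h1 => hXY h1.symm, h.hY1⟩)]
    have e2 : 3 * ((XX.erase X).erase Y).card ≤
        ∑ Z ∈ (XX.erase X).erase Y, (shared XX Z).card := by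
      have h1 : ∀ Z ∈ (XX.erase X).erase Y, 3 ≤ (shared XX Z).card := by
        intro Z hZ
        rw [Finset.mem_erase, Finset.mem_erase] at hZ
        exact s1 Z hZ.2.2 hZ.2.1 hZ.1
      have h2 := Finset.card_nsmul_le_sum _ _ 3 h1
      rw [smul_eq_mul] at h2
      omega
    have e3 : ((XX.erase X).erase Y).card + 2 = XX.card := by
      have h1 := Finset.card_erase_of_mem h.hX1
      have h2 := Finset.card_erase_of_mem
        (Finset.mem_erase.2 ⟨fun h1 => hXY h1.symm, h.hY1⟩ : Y ∈ XX.erase X)
      have h3 : 0 < (XX.erase X).card :=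
        Finset.card_pos.2 ⟨Y, Finset.mem_erase.2 ⟨fun h1 => hXY h1.symm, h.hY1⟩⟩
      omega
    omega
  have hX1 : (shared XX X).card = 1 := by omega
  have hY1 : (shared XX Y).card = 1 := by omega
  have hX2 : X.card = 2 := by
    have h1 := (h.hX.tight X h.hX1).1
    by_contra h2
    have := s4 (by omega)
    omega
  have hY2 : Y.card = 2 := by
    have h1 := (h.hX.tight Y h.hY1).1
    by_contra h2
    have := s5 (by omega)
    omega
  have hXe : ({a, c} : Finset V) = X := by
    apply Finset.eq_of_subset_of_card_le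
    · intro x hx
      rw [Finset.mem_insert, Finset.mem_singleton] at hx
      rcases hx with rfl | rfl
      · exact h.haX
      · exact h.hcX
    · rw [Finset.card_pair h.hac, hX2]
  have hYe : ({b, c} : Finset V) = Y := by
    apply Finset.eq_of_subset_of_card_le
    · intro x hx
      rw [Finset.mem_insert, Finset.mem_singleton] at hx
      rcases hx with rfl | rfl
      · exact h.hbY
      · exact h.hcY
    · rw [Finset.card_pair h.hbc, hY2]
  have hcX : c ∈ shared XX X := c8_mem_shared.2 ⟨h.hcX, Y, h.hY1, fun h1 => hXY h1.symm, h.hcY⟩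
  have hcY : c ∈ shared XX Y := c8_mem_shared.2 ⟨h.hcY, X, h.hX1, hXY, h.hcX⟩
  have haS : a ∉ shared XX X := by
    intro h1
    have h2 := Finset.card_le_one.1 hX1.le a h1 c hcX
    exact h.hac h2
  have hbS : b ∉ shared XX Y := by
    intro h1
    have h2 := Finset.card_le_one.1 hY1.le b h1 c hcY
    exact h.hbc h2
  -- neighbours of `a` and of `b`
  have hna : ∀ x, ({a, x} : Finset V) ∈ E → x = v ∨ x = b ∨ x = a ∨ x = c := by
    intro x hx
    by_cases hxv : x = v
    · exact Or.inl hxv
    by_cases hxb : ({a, x} : Finset V) = {a, b}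
    · have h1 : x ∈ ({a, b} : Finset V) := by
        rw [← hxb]
        exact Finset.mem_insert_of_mem (Finset.mem_singleton_self _)
      rw [Finset.mem_insert, Finset.mem_singleton] at h1
      rcases h1 with h1 | h1
      · exact Or.inr (Or.inr (Or.inl h1))
      · exact Or.inr (Or.inl h1)
    · have h1 := h.c8_unshared h.hX1 h.haX haS hx hxv hxb
      rw [← hXe, Finset.mem_insert, Finset.mem_singleton] at h1
      exact Or.inr (Or.inr h1)
  have hnb : ∀ x, ({b, x} : Finset V) ∈ E → x = v ∨ x = a ∨ x = b ∨ x = c := by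
    intro x hx
    by_cases hxv : x = v
    · exact Or.inl hxv
    by_cases hxb : ({b, x} : Finset V) = {a, b}
    · have h1 : x ∈ ({a, b} : Finset V) := by
        rw [← hxb]
        exact Finset.mem_insert_of_mem (Finset.mem_singleton_self _)
      rw [Finset.mem_insert, Finset.mem_singleton] at h1
      rcases h1 with h1 | h1
      · exact Or.inr (Or.inl h1)
      · exact Or.inr (Or.inr (Or.inl h1))
    · have h1 := h.c8_unshared h.hY1 h.hbY hbS hx hxv hxb
      rw [← hYe, Finset.mem_insert, Finset.mem_singleton] at h1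
      exact Or.inr (Or.inr h1)
  have hnbA : nb E {a, b, v} ⊆ {c} := by
    intro x hx
    rw [mem_nb h.hG] at hx
    obtain ⟨hxA, u, hu, hux⟩ := hx
    simp only [Finset.mem_insert, Finset.mem_singleton, not_or] at hxA hu ⊢
    obtain ⟨hxa, hxb, hxv⟩ := hxA
    rcases hu with rfl | rfl | rfl
    · rcases hna x hux with h1 | h1 | h1 | h1
      · exact absurd h1 hxv
      · exact absurd h1 hxb
      · exact absurd h1 hxa
      · exact h1
    · rcases hnb x hux with h1 | h1 | h1 | h1
      · exact absurd h1 hxv
      · exact absurd h1 hxa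
      · exact absurd h1 hxb
      · exact h1
    · rcases h.c8_nb hux with h1 | h1 | h1
      · exact absurd h1 hxa
      · exact absurd h1 hxb
      · exact h1
  have haW : a ∈ W := by
    have h1 := h.c8_sub h.hX1 h.haX
    exact Finset.mem_of_mem_erase h1
  have hbW : b ∈ W := by
    have h1 := h.c8_sub h.hY1 h.hbY
    exact Finset.mem_of_mem_erase h1
  have hAW : ({a, b, v} : Finset V) ⊆ W := by
    intro x hx
    simp only [Finset.mem_insert, Finset.mem_singleton] at hx
    rcases hx with rfl | rfl | rfl
    · exact haW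
    · exact hbW
    · exact h.hv
  have hcA := Finset.card_le_card hnbA
  rw [Finset.card_singleton] at hcA
  have hA3 : ({a, b, v} : Finset V).card ≤ 3 := Finset.card_le_three
  have hneW : ({a, b, v} : Finset V) ∪ nb E {a, b, v} ≠ W := by
    intro h1
    have h2 := Finset.card_union_le ({a, b, v} : Finset V) (nb E {a, b, v})
    rw [h1] at h2
    have := h.h5
    omega
  have h3 := h.hC.2 {a, b, v} hAW ⟨a, Finset.mem_insert_self _ _⟩ hneW
  omega

end Pool.Agent.Lib.MP_5d015b_lc.JJ
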