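import Pool.Agent.Lib.MP_5d015b_lc.JJ.C11
import Pool.Agent.Lib.MP_5d015b_lc.JJ.C2
import Pool.Agent.Lib.MP_5d015b_lc.JJ.C3
import Pool.Agent.Lib.MP_5d015b_lc.JJ.C9

/-!
# Generic global rigidity in the plane, module C10: removing a vertex keeps redundant rigidity
-/

set_option autoImplicit false
set_option linter.unusedSectionVars false

namespace Pool.Agent.Lib.MP_5d015b_lc.JJ

variable {V : Type*} [DecidableEq V]

theorem sparse_empty10 : Sparse (∅ : Finset (Finset V)) := by
  refine ⟨fun e he => absurd he (Finset.notMem_empty e), fun X hX => ?_⟩
  have h : ins (∅ : Finset (Finset V)) X = ∅ := by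
    unfold ins
    exact Finset.filter_empty _
  rw [h, Finset.card_empty]
  omega

theorem redRigid_del {W : Finset V} {E : Finset (Finset V)} {v : V} (hG : IsGraph W E)
    (hC : Conn3 W E) (hR : RedRigid W E) (h5 : 5 ≤ W.card) (hv : v ∈ W)
    (hr : Rigid (W.erase v) (delV E v)) :
    RedRigid (W.erase v) (delV E v ∪ clique (nb E {v})) := by
  have hG' : IsGraph (W.erase v) (delV E v ∪ clique (nb E {v})) :=
    isGraph_clique (isGraph_delV11 v hG) (nb_sub_erase11 hG v)
  intro f hf
  by_cases hfd : f ∈ delV E v
  · have hfE := (mem_delV.1 hfd).1
    have hfv := (mem_delV.1 hfd).2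
    have hE : Rigid W (E.erase f) := hR f hfE
    have h3 := three_le_nb hG hC hv
    have hf2 : f.card = 2 := hG.card_two f hfE
    by_cases h4 : 4 ≤ (nb E {v}).card
    · obtain ⟨L, hL, hS, hc⟩ := exists_laman_clique h4 hf2
      refine rigid_clique_case hG hv hE hfv (hL.trans (Finset.erase_subset _ _)) ?_ hS hc (by omega)
      intro h
      exact absurd rfl (Finset.mem_erase.1 (hL h)).1
    · have h3' : (nb E {v}).card = 3 := by omega
      by_cases hfc : f ∈ clique (nb E {v})
      · by_contra hn
        rw [mem_clique_iff] at hfc
        obtain ⟨a, b, hab, rfl⟩ := Finset.card_eq_two.1 hf2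
        have ha : a ∈ nb E {v} := hfc.1 (Finset.mem_insert_self _ _)
        have hb : b ∈ nb E {v} := hfc.1 (Finset.mem_insert_of_mem (Finset.mem_singleton_self _))
        obtain ⟨c, hc⟩ : ∃ c, (nb E {v}) \ {a, b} = {c} := by
          rw [← Finset.card_eq_one, Finset.card_sdiff_of_subset hfc.1, Finset.card_pair hab, h3']
        have hcm : c ∈ (nb E {v}) \ {a, b} := by rw [hc]; exact Finset.mem_singleton_self c
        rw [Finset.mem_sdiff, Finset.mem_insert, Finset.mem_singleton, not_or] at hcm
        have hN : nb E {v} = {a, b, c} := by
          have h1 := Finset.sdiff_union_of_subset hfc.1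
          rw [hc] at h1
          rw [← h1]
          ext x
          simp only [Finset.mem_union, Finset.mem_insert, Finset.mem_singleton]
          tauto
        have hac : a ≠ c := fun h => hcm.2.1 h.symm
        have hbc : b ≠ c := fun h => hcm.2.2 h.symm
        have hG1 : IsGraph (W.erase v) (redE E v a b) :=
          ⟨fun e he => hG'.card_two e (Finset.mem_of_mem_erase he),
            fun e he => hG'.sub e (Finset.mem_of_mem_erase he)⟩
        obtain ⟨B, _, hB⟩ := exists_maxSp (E := redE E v a b) sparse_empty10 (Finset.empty_subset _)
        have hX := bodies_spec hG1 hB (n := (W.erase v).card) le_rfl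
        have hacE : ({a, c} : Finset V) ∈ redE E v a b := by
          unfold redE
          rw [Finset.mem_erase]
          refine ⟨?_, Finset.mem_union_right _ (pair_mem_clique ha hcm.1 hac)⟩
          intro h
          have h1 : c ∈ ({a, b} : Finset V) := by
            rw [← h]
            exact Finset.mem_insert_of_mem (Finset.mem_singleton_self _)
          rw [Finset.mem_insert, Finset.mem_singleton] at h1
          rcases h1 with h1 | h1
          · exact hac h1.symm
          · exact hbc h1.symm
        have hbcE : ({b, c} : Finset V) ∈ redE E v a b := by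
          unfold redE
          rw [Finset.mem_erase]
          refine ⟨?_, Finset.mem_union_right _ (pair_mem_clique hb hcm.1 hbc)⟩
          intro h
          have h1 : c ∈ ({a, b} : Finset V) := by
            rw [← h]
            exact Finset.mem_insert_of_mem (Finset.mem_singleton_self _)
          rw [Finset.mem_insert, Finset.mem_singleton] at h1
          rcases h1 with h1 | h1
          · exact hac h1.symm
          · exact hbc h1.symm
        obtain ⟨X, hX1, hXs⟩ := hX.cover _ hacE
        obtain ⟨Y, hY1, hYs⟩ := hX.cover _ hbcE
        exact D3.false (W := W) (E := E) (v := v) (a := a) (b := b) (c := c) (B := B)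
          (XX := B.image (body (redE E v a b) B (W.erase v).card)) (X := X) (Y := Y)
          { hG := hG
            hC := hC
            hR := hR
            h5 := h5
            hv := hv
            hN := hN
            hab := hab
            hbc := hbc
            hac := hac
            hE := hfE
            hr := hr
            hn := hn
            hB := hB
            hX := hX
            hX1 := hX1
            haX := hXs (Finset.mem_insert_self _ _)
            hcX := hXs (Finset.mem_insert_of_mem (Finset.mem_singleton_self _))
            hY1 := hY1
            hbY := hYs (Finset.mem_insert_self _ _)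
            hcY := hYs (Finset.mem_insert_of_mem (Finset.mem_singleton_self _)) }
      · obtain ⟨hS, hc⟩ := laman_triple h3'
        exact rigid_clique_case hG hv hE hfv (Finset.Subset.refl _) hfc hS hc (by omega)
  · refine Rigid.mono hr ?_
    intro e he
    rw [Finset.mem_erase]
    refine ⟨?_, Finset.mem_union_left _ he⟩
    rintro rfl
    exact hfd he

end Pool.Agent.Lib.MP_5d015b_lc.JJ
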