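import Pool.Agent.Lib.MP_5d015b_lc.JJ.Basic
import Pool.Agent.Lib.MP_5d015b_lc.NBS

/-!
# Generic global rigidity in the plane, module C11: removing a vertex keeps 3-connectedness
-/

set_option autoImplicit false
set_option linter.unusedSectionVars false

namespace Pool.Agent.Lib.MP_5d015b_lc.JJ

variable {V : Type*} [DecidableEq V]

theorem isGraph_delV11 {W : Finset V} {E : Finset (Finset V)} (v : V) (hG : IsGraph W E) :
    IsGraph (W.erase v) (delV E v) where
  card_two := fun e he => hG.card_two e (mem_delV.1 he).1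
  sub := fun e he => by
    intro x hx
    rw [Finset.mem_erase]
    refine ⟨?_, hG.sub e (mem_delV.1 he).1 hx⟩
    rintro rfl
    exact (mem_delV.1 he).2 hx

theorem nb_sub_erase11 {W : Finset V} {E : Finset (Finset V)} (hG : IsGraph W E) (v : V) :
    nb E {v} ⊆ W.erase v := by
  intro x hx
  have h := nb_sub hG {v} hx
  rw [Finset.mem_sdiff, Finset.mem_singleton] at h
  exact Finset.mem_erase.2 ⟨h.2, h.1⟩

theorem mem_nb_single11 {W : Finset V} {E : Finset (Finset V)} (hG : IsGraph W E) {v x : V} :
    x ∈ nb E {v} ↔ x ≠ v ∧ ({v, x} : Finset V) ∈ E := by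
  rw [mem_nb hG, Finset.mem_singleton]
  constructor
  · rintro ⟨h1, u, hu, h2⟩
    rw [Finset.mem_singleton] at hu
    subst hu
    exact ⟨h1, h2⟩
  · rintro ⟨h1, h2⟩
    exact ⟨h1, v, Finset.mem_singleton_self v, h2⟩

theorem pair_mem_delV11 {E : Finset (Finset V)} {v u x : V} (h : ({u, x} : Finset V) ∈ E)
    (hu : u ≠ v) (hx : x ≠ v) : ({u, x} : Finset V) ∈ delV E v := by
  rw [mem_delV]
  refine ⟨h, ?_⟩
  rw [Finset.mem_insert, Finset.mem_singleton]
  rintro (h1 | h1)
  · exact hu h1.symm
  · exact hx h1.symm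

theorem conn3_del {W : Finset V} {E : Finset (Finset V)} {v : V} (hG : IsGraph W E)
    (hC : Conn3 W E) (h5 : 5 ≤ W.card) (hv : v ∈ W) :
    Conn3 (W.erase v) (delV E v ∪ clique (nb E {v})) := by
  have hG' : IsGraph (W.erase v) (delV E v ∪ clique (nb E {v})) :=
    isGraph_clique (isGraph_delV11 v hG) (nb_sub_erase11 hG v)
  refine ⟨by rw [Finset.card_erase_of_mem hv]; omega, ?_⟩
  intro Y hY hYne hYW
  have hYv : ∀ u ∈ Y, u ≠ v := fun u hu => (Finset.mem_erase.1 (hY hu)).1
  have hYW' : Y ⊆ W := hY.trans (Finset.erase_subset _ _)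
  by_cases hN : ∃ u ∈ Y, u ∈ nb E {v}
  · obtain ⟨u0, hu0, hu0N⟩ := hN
    have hsub : nb E (insert v Y) ⊆ nb (delV E v ∪ clique (nb E {v})) Y := by
      intro x hx
      rw [mem_nb hG] at hx
      obtain ⟨hx1, u, hu, hux⟩ := hx
      rw [Finset.mem_insert, not_or] at hx1
      rw [mem_nb hG']
      refine ⟨hx1.2, ?_⟩
      rw [Finset.mem_insert] at hu
      rcases hu with rfl | hu
      · refine ⟨u0, hu0, Finset.mem_union_right _ (pair_mem_clique hu0N ?_ ?_)⟩
        · rw [mem_nb_single11 hG]
          exact ⟨hx1.1, hux⟩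
        · rintro rfl
          exact hx1.2 hu0
      · exact ⟨u, hu, Finset.mem_union_left _ (pair_mem_delV11 hux (hYv u hu) hx1.1)⟩
    refine le_trans (hC.2 (insert v Y) ?_ (Finset.insert_nonempty _ _) ?_) (Finset.card_le_card hsub)
    · intro x hx
      rw [Finset.mem_insert] at hx
      rcases hx with rfl | hx
      · exact hv
      · exact hYW' hx
    · intro hEq
      apply hYW
      apply Finset.Subset.antisymm
      · exact Finset.union_subset hY ((nb_sub hG' Y).trans Finset.sdiff_subset)
      · intro x hx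
        rw [Finset.mem_erase] at hx
        have h1 : x ∈ insert v Y ∪ nb E (insert v Y) := by rw [hEq]; exact hx.2
        rw [Finset.mem_union, Finset.mem_insert] at h1
        rw [Finset.mem_union]
        rcases h1 with (h1 | h1) | h1
        · exact absurd h1 hx.1
        · exact Or.inl h1
        · exact Or.inr (hsub h1)
  · push Not at hN
    have hsub : nb E Y ⊆ nb (delV E v ∪ clique (nb E {v})) Y := by
      intro x hx
      rw [mem_nb hG] at hx
      obtain ⟨hx1, u, hu, hux⟩ := hx
      rw [mem_nb hG']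
      refine ⟨hx1, u, hu, Finset.mem_union_left _ (pair_mem_delV11 hux (hYv u hu) ?_)⟩
      rintro rfl
      apply hN u hu
      rw [mem_nb_single11 hG]
      refine ⟨hYv u hu, ?_⟩
      rwa [Finset.pair_comm]
    refine le_trans (hC.2 Y hYW' hYne ?_) (Finset.card_le_card hsub)
    intro hEq
    have h1 : v ∈ Y ∪ nb E Y := by rw [hEq]; exact hv
    rw [Finset.mem_union] at h1
    rcases h1 with h1 | h1
    · exact hYv v h1 rfl
    · rw [mem_nb hG] at h1
      obtain ⟨_, u, hu, huv⟩ := h1
      apply hN u hu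
      rw [mem_nb_single11 hG]
      refine ⟨hYv u hu, ?_⟩
      rwa [Finset.pair_comm]

/-- in a 3-connected graph every vertex has at least three neighbours -/
theorem three_le_nb {W : Finset V} {E : Finset (Finset V)} {v : V} (hG : IsGraph W E)
    (hC : Conn3 W E) (hv : v ∈ W) : 3 ≤ (nb E {v}).card := by
  by_cases h : {v} ∪ nb E {v} = W
  · have h1 : W.card ≤ 1 + (nb E {v}).card := by
      rw [← h]
      refine (Finset.card_union_le _ _).trans ?_
      rw [Finset.card_singleton]
    have := hC.1
    omega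
  · exact hC.2 {v} (Finset.singleton_subset_iff.2 hv) (Finset.singleton_nonempty v) h

end Pool.Agent.Lib.MP_5d015b_lc.JJ
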