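import Pool.Agent.Lib.MP_5d015b_lc.JJ.Basic
import Pool.Agent.Lib.MP_5d015b_lc.SP1

/-!
# Module C5: counting
-/

set_option autoImplicit false
set_option linter.unusedSectionVars false

namespace Pool.Agent.Lib.MP_5d015b_lc.JJ

variable {V : Type*} [DecidableEq V]

theorem c5_sum_card {U : Finset V} {XX : Finset (Finset V)} (hs : ∀ X ∈ XX, X ⊆ U) :
    ∑ X ∈ XX, X.card = ∑ w ∈ U, (XX.filter fun X => w ∈ X).card := by
  have h1 : ∀ X ∈ XX, X.card = (U.filter fun w => w ∈ X).card := by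
    intro X hX
    congr 1
    ext w
    rw [Finset.mem_filter]
    exact ⟨fun h => ⟨hs X hX h, h⟩, fun h => h.2⟩
  rw [Finset.sum_congr rfl h1]
  exact Finset.sum_card_bipartiteAbove_eq_sum_card_bipartiteBelow (fun X w => w ∈ X)

theorem c5_sum_shared {U : Finset V} {XX : Finset (Finset V)} (hs : ∀ X ∈ XX, X ⊆ U) :
    ∑ X ∈ XX, (shared XX X).card =
      ∑ w ∈ U, (XX.filter fun X => w ∈ X ∧ ∃ Z ∈ XX, Z ≠ X ∧ w ∈ Z).card := by
  have h1 : ∀ X ∈ XX, (shared XX X).card =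
      (U.filter fun w => w ∈ X ∧ ∃ Z ∈ XX, Z ≠ X ∧ w ∈ Z).card := by
    intro X hX
    congr 1
    ext w
    unfold shared
    rw [Finset.mem_filter, Finset.mem_filter]
    exact ⟨fun h => ⟨hs X hX h.1, h⟩, fun h => h.2⟩
  rw [Finset.sum_congr rfl h1]
  exact Finset.sum_card_bipartiteAbove_eq_sum_card_bipartiteBelow
    (fun X w => w ∈ X ∧ ∃ Z ∈ XX, Z ≠ X ∧ w ∈ Z)

theorem share_count {U : Finset V} {XX : Finset (Finset V)} (hs : ∀ X ∈ XX, X ⊆ U)
    (hc : ∀ w ∈ U, ∃ X ∈ XX, w ∈ X) :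
    ∑ X ∈ XX, (shared XX X).card + 2 * U.card ≤ 2 * ∑ X ∈ XX, X.card := by
  rw [c5_sum_card hs, c5_sum_shared hs, Finset.mul_sum]
  have h2 : 2 * U.card = ∑ w ∈ U, 2 := by
    rw [Finset.sum_const, smul_eq_mul, mul_comm]
  rw [h2, ← Finset.sum_add_distrib]
  apply Finset.sum_le_sum
  intro w hw
  obtain ⟨X, hX, hwX⟩ := hc w hw
  have h3 : 1 ≤ (XX.filter fun X => w ∈ X).card :=
    Finset.card_pos.2 ⟨X, Finset.mem_filter.2 ⟨hX, hwX⟩⟩
  rcases Nat.lt_or_ge (XX.filter fun X => w ∈ X).card 2 with h4 | h4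
  · have h5 : (XX.filter fun X => w ∈ X ∧ ∃ Z ∈ XX, Z ≠ X ∧ w ∈ Z) = ∅ := by
      rw [Finset.filter_eq_empty_iff]
      rintro Y hY ⟨hwY, Z, hZ, hne, hwZ⟩
      have h6 : 1 < (XX.filter fun X => w ∈ X).card :=
        Finset.one_lt_card.2 ⟨Z, Finset.mem_filter.2 ⟨hZ, hwZ⟩, Y,
          Finset.mem_filter.2 ⟨hY, hwY⟩, hne⟩
      omega
    rw [h5, Finset.card_empty]
    omega
  · have h5 : (XX.filter fun X => w ∈ X ∧ ∃ Z ∈ XX, Z ≠ X ∧ w ∈ Z).card ≤
        (XX.filter fun X => w ∈ X).card := by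
      apply Finset.card_le_card
      intro Y hY
      rw [Finset.mem_filter] at hY ⊢
      exact ⟨hY.1, hY.2.1⟩
    omega

theorem tight_sum {B XX : Finset (Finset V)} (hB : Sparse B) (ht : ∀ X ∈ XX, Tight B X)
    (hi : ∀ X ∈ XX, ∀ Z ∈ XX, X ≠ Z → (X ∩ Z).card ≤ 1) (hcov : ∀ b ∈ B, ∃ X ∈ XX, b ⊆ X) :
    2 * ∑ X ∈ XX, X.card = B.card + 3 * XX.card := by
  have h1 : B = XX.biUnion (ins B) := by
    ext e
    rw [Finset.mem_biUnion]
    constructor
    · intro he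
      obtain ⟨X, hX, heX⟩ := hcov e he
      exact ⟨X, hX, mem_ins.2 ⟨he, heX⟩⟩
    · rintro ⟨X, -, hX⟩
      exact (mem_ins.1 hX).1
  have h2 : B.card = ∑ X ∈ XX, (ins B X).card := by
    conv_lhs => rw [h1]
    apply Finset.card_biUnion
    intro X hX Z hZ hne
    exact ins_disjoint_of_inter hB (hi X hX Z hZ hne)
  have h3 : 3 * XX.card = ∑ X ∈ XX, 3 := by
    rw [Finset.sum_const, smul_eq_mul, mul_comm]
  rw [h2, h3, ← Finset.sum_add_distrib, Finset.mul_sum]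
  apply Finset.sum_congr rfl
  intro X hX
  exact (ht X hX).2.symm

theorem sep {W : Finset V} {E : Finset (Finset V)} {Z S : Finset V} (hG : IsGraph W E)
    (hC : Conn3 W E) (hZ : Z ⊆ W) (hZW : Z ≠ W) (h3 : 3 ≤ Z.card) (hS : S ⊆ Z)
    (h : ∀ w ∈ Z, w ∉ S → ∀ x, ({w, x} : Finset V) ∈ E → x ∈ Z) : 3 ≤ S.card := by
  rcases Finset.eq_empty_or_nonempty (Z \ S) with h0 | h0
  · have h1 : Z ⊆ S := Finset.sdiff_eq_empty_iff_subset.1 h0
    exact h3.trans (Finset.card_le_card h1)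
  · have h1 : nb E (Z \ S) ⊆ S := by
      intro x hx
      unfold nb at hx
      rw [Finset.mem_sdiff, Finset.mem_biUnion] at hx
      obtain ⟨⟨e, he, hxe⟩, hxA⟩ := hx
      rw [Finset.mem_filter] at he
      obtain ⟨heE, w, hw⟩ := he
      rw [Finset.mem_inter] at hw
      have hxe' : x ∈ e := hxe
      have hwx : w ≠ x := by
        rintro rfl
        exact hxA hw.2
      have h4 : ({w, x} : Finset V) = e := by
        apply Finset.eq_of_subset_of_card_le
        · intro y hy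
          rw [Finset.mem_insert, Finset.mem_singleton] at hy
          rcases hy with rfl | rfl
          · exact hw.1
          · exact hxe'
        · rw [Finset.card_pair hwx, hG.card_two e heE]
      have hw2 := Finset.mem_sdiff.1 hw.2
      have h5 : x ∈ Z := h w hw2.1 hw2.2 x (by rw [h4]; exact heE)
      by_contra hxS
      exact hxA (Finset.mem_sdiff.2 ⟨h5, hxS⟩)
    have h2 : (Z \ S) ∪ nb E (Z \ S) ≠ W := by
      intro h4
      apply hZW
      apply Finset.Subset.antisymm hZ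
      rw [← h4]
      exact Finset.union_subset Finset.sdiff_subset (h1.trans hS)
    exact (hC.2 _ (Finset.sdiff_subset.trans hZ) h0 h2).trans (Finset.card_le_card h1)

end Pool.Agent.Lib.MP_5d015b_lc.JJ
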