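import Pool.Agent.Lib.MP_5d015b_lc.JJ.C4
import Pool.Agent.Lib.MP_5d015b_lc.JJ.C5
import Pool.Agent.Lib.MP_5d015b_lc.BDY
import Pool.Agent.Lib.MP_5d015b_lc.SP2

/-!
# Module C12: some edge outside a largest proper rigid set has a circuit which meets it
-/

set_option autoImplicit false
set_option linter.unusedSectionVars false

namespace Pool.Agent.Lib.MP_5d015b_lc.JJ

variable {V : Type*} [DecidableEq V]

/-- the edges which are not inside `R` -/
def outE (F : Finset (Finset V)) (R : Finset V) : Finset (Finset V) := F.filter fun e => ¬ e ⊆ R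

theorem mem_outE {F : Finset (Finset V)} {R e : Finset V} : e ∈ outE F R ↔ e ∈ F ∧ ¬ e ⊆ R := by
  unfold outE
  rw [Finset.mem_filter]

/-- the negation of the statement of the module -/
def NoMeet (E B : Finset (Finset V)) (R : Finset V) : Prop :=
  ∀ e ∈ E, e ∉ B → ¬ e ⊆ R → ∀ g ∈ B, g ⊆ R → ¬ g ⊆ tset B e

/-- two of the members of a tight set contain an edge -/
theorem c12_edge {B : Finset (Finset V)} (hB : Sparse B) {X R : Finset V} (hX : Tight B X)
    (hR : Tight B R) (h : 2 ≤ (X ∩ R).card) : ∃ g ∈ B, g ⊆ X ∧ g ⊆ R := by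
  obtain ⟨-, u2, -⟩ := tight_union hB hX hR h
  obtain ⟨g, hg, hgX⟩ := bdy_tight_edge u2
  exact ⟨g, hg, hgX.trans Finset.inter_subset_left, hgX.trans Finset.inter_subset_right⟩

theorem c12_ins {E B : Finset (Finset V)} {R : Finset V} (hn : NoMeet E B R) {e : Finset V} (he : e ∈ outE E R) (heB : e ∉ B) :
    ins (outE B R) (tset B e) = ins B (tset B e) := by
  rw [mem_outE] at he
  ext g
  rw [mem_ins, mem_ins, mem_outE]
  constructor
  · rintro ⟨⟨h1, -⟩, h2⟩
    exact ⟨h1, h2⟩
  · rintro ⟨h1, h2⟩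
    exact ⟨⟨h1, fun h3 => hn e he.1 heB he.2 g h1 h3 h2⟩, h2⟩

theorem c12_maxSp {E B : Finset (Finset V)} {R : Finset V} {W : Finset V} (hG : IsGraph W E)
    (hB : MaxSp E B) (hn : NoMeet E B R) : MaxSp (outE E R) (outE B R) := by
  refine ⟨?_, hB.2.1.mono (Finset.filter_subset _ _), ?_⟩
  · intro g hg
    rw [mem_outE] at hg ⊢
    exact ⟨hB.1 hg.1, hg.2⟩
  · intro e he heB' hS
    have he' := mem_outE.1 he
    have heB : e ∉ B := fun h => heB' (mem_outE.2 ⟨h, he'.2⟩)
    obtain ⟨hT, heT, -⟩ := tset_spec hG hB he'.1 heB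
    have h1 := c12_ins hn he heB
    have h2 := hS.2 (tset B e) hT.1
    have h3 : insert e (ins (outE B R) (tset B e)) ⊆ ins (insert e (outE B R)) (tset B e) := by
      intro g hg
      rw [mem_ins, Finset.mem_insert]
      rcases Finset.mem_insert.1 hg with rfl | hg
      · exact ⟨Or.inl rfl, heT⟩
      · rw [mem_ins] at hg
        exact ⟨Or.inr hg.1, hg.2⟩
    have h4 : e ∉ ins (outE B R) (tset B e) := fun h => heB' (mem_ins.1 h).1
    have h5 := Finset.card_le_card h3
    rw [Finset.card_insert_of_notMem h4, h1] at h5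
    have h6 := hT.2
    omega

theorem c12_tight {B : Finset (Finset V)} {R X : Finset V} (hB : Sparse B)
    (hX : Tight (outE B R) X) : Tight B X ∧ ∀ g ∈ B, g ⊆ X → ¬ g ⊆ R := by
  have h1 : ins (outE B R) X ⊆ ins B X := ins_mono_left (Finset.filter_subset _ _) X
  have h2 := Finset.card_le_card h1
  have h3 := hB.2 X hX.1
  have h4 := hX.2
  have h5 : ins (outE B R) X = ins B X := Finset.eq_of_subset_of_card_le h1 (by omega)
  refine ⟨⟨hX.1, by rw [← h5]; exact h4⟩, ?_⟩
  intro g hg hgX
  have h6 : g ∈ ins (outE B R) X := by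
    rw [h5]
    exact mem_ins.2 ⟨hg, hgX⟩
  exact (mem_outE.1 (mem_ins.1 h6).1).2

/-- an edge which is a coloop cannot be in a redundantly rigid graph -/
theorem c12_coloop {W : Finset V} {E B : Finset (Finset V)} (hG : IsGraph W E)
    (hR : RedRigid W E) (hB : MaxSp E B) {f : Finset V} (hf : f ∈ B)
    (h : ∀ e ∈ E, e ∉ B → ¬ f ⊆ tset B e) : False := by
  have h1 := coloop_max hG hB hf h
  have h2 := hR f (hB.1 hf)
  have hG' : IsGraph W (E.erase f) :=
    ⟨fun e he => hG.card_two e (Finset.mem_of_mem_erase he),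
      fun e he => hG.sub e (Finset.mem_of_mem_erase he)⟩
  have h3 := (rigid_iff hG' h1).1 h2
  have h4 : Rigid W E := by
    obtain ⟨D, hD, hD2, hD3⟩ := h2
    exact ⟨D, hD.trans (Finset.erase_subset _ _), hD2, hD3⟩
  have h5 := (rigid_iff hG hB).1 h4
  rw [Finset.card_erase_of_mem hf] at h3
  have h6 : 0 < B.card := Finset.card_pos.2 ⟨f, hf⟩
  omega

theorem c12_two {B : Finset (Finset V)} (hB : Sparse B) {X : Finset V} (hX : Tight B X)
    (h2 : X.card = 2) : X ∈ B := by
  obtain ⟨g, hg, hgX⟩ := bdy_tight_edge hX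
  have h1 : g = X := Finset.eq_of_subset_of_card_le hgX (by rw [hB.1 g hg, h2])
  rwa [← h1]

theorem c12_covered {W : Finset V} {E : Finset (Finset V)} (hC : Conn3 W E) {w : V}
    (hw : w ∈ W) : ∃ e ∈ E, w ∈ e := by
  by_contra hcon
  push Not at hcon
  have h1 : nb E {w} = ∅ := by
    unfold nb
    rw [Finset.filter_eq_empty_iff.2, Finset.biUnion_empty, Finset.empty_sdiff]
    rintro e he ⟨x, hx⟩
    rw [Finset.mem_inter, Finset.mem_singleton] at hx
    exact hcon e he (hx.2 ▸ hx.1)
  have h2 : ({w} : Finset V) ∪ nb E {w} ≠ W := by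
    intro h
    rw [h1, Finset.union_empty] at h
    have h3 := hC.1
    rw [← h, Finset.card_singleton] at h3
    omega
  have h3 := hC.2 {w} (Finset.singleton_subset_iff.2 hw) (Finset.singleton_nonempty w) h2
  rw [h1, Finset.card_empty] at h3
  omega

theorem LT.meet {W : Finset V} {E B : Finset (Finset V)} {R : Finset V} (h : LT W E B R) :
    ∃ e ∈ E, e ∉ B ∧ ¬ e ⊆ R ∧ ∃ g ∈ B, g ⊆ R ∧ g ⊆ tset B e := by
  by_contra hcon
  have hn : NoMeet E B R := by
    intro e he heB heR g hg hgR hgT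
    exact hcon ⟨e, he, heB, heR, g, hg, hgR, hgT⟩
  have hG := h.hG
  have hC := h.hC
  have hB := h.hB
  have hsp := hB.2.1
  have hR := h.ht
  -- the graph of the edges which are not inside `R`
  have hG' : IsGraph W (outE E R) :=
    ⟨fun e he => hG.card_two e (mem_outE.1 he).1, fun e he => hG.sub e (mem_outE.1 he).1⟩
  have hB' : MaxSp (outE E R) (outE B R) := c12_maxSp hG hB hn
  have hX := bodies_spec hG' hB' (le_refl W.card)
  set XX := (outE B R).image (body (outE E R) (outE B R) W.card) with hXX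
  have ht : ∀ X ∈ XX, Tight B X := fun X hX1 => (c12_tight hsp (hX.tight X hX1)).1
  have hXR : ∀ X ∈ XX, (X ∩ R).card ≤ 1 := by
    intro X hX1
    by_contra h1
    obtain ⟨g, hg, hgX, hgR⟩ := c12_edge hsp (ht X hX1) hR (by omega)
    exact (c12_tight hsp (hX.tight X hX1)).2 g hg hgX hgR
  have hXW : ∀ X ∈ XX, X ⊆ W := fun X hX1 =>
    tight_sub hsp (fun e he => hG.sub e (hB.1 he)) (ht X hX1)
  have hXne : ∀ X ∈ XX, X ≠ W := by
    intro X hX1 h1
    have h2 := hXR X hX1
    rw [h1, Finset.inter_eq_right.2 h.hRW] at h2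
    have h3 := hR.1
    omega
  -- the family
  have fT : ∀ X ∈ insert R XX, Tight B X := by
    intro X hX1
    rcases Finset.mem_insert.1 hX1 with rfl | hX1
    · exact hR
    · exact ht X hX1
  have fW : ∀ X ∈ insert R XX, X ⊆ W := by
    intro X hX1
    rcases Finset.mem_insert.1 hX1 with rfl | hX1
    · exact h.hRW
    · exact hXW X hX1
  have fne : ∀ X ∈ insert R XX, X ≠ W := by
    intro X hX1
    rcases Finset.mem_insert.1 hX1 with rfl | hX1
    · exact h.hne
    · exact hXne X hX1
  have fi : ∀ X ∈ insert R XX, ∀ Z ∈ insert R XX, X ≠ Z → (X ∩ Z).card ≤ 1 := by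
    intro X hX1 Z hZ1 hne
    rcases Finset.mem_insert.1 hX1 with rfl | hX1 <;>
      rcases Finset.mem_insert.1 hZ1 with rfl | hZ1
    · exact absurd rfl hne
    · rw [Finset.inter_comm]
      exact hXR Z hZ1
    · exact hXR X hX1
    · exact hX.inter X hX1 Z hZ1 hne
  have fE : ∀ e ∈ E, ∃ X ∈ insert R XX, e ⊆ X := by
    intro e he
    by_cases heR : e ⊆ R
    · exact ⟨R, Finset.mem_insert_self R XX, heR⟩
    · obtain ⟨X, hX1, heX⟩ := hX.cover e (mem_outE.2 ⟨he, heR⟩)
      exact ⟨X, Finset.mem_insert_of_mem hX1, heX⟩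
  have fc : ∀ w ∈ W, ∃ X ∈ insert R XX, w ∈ X := by
    intro w hw
    obtain ⟨e, he, hwe⟩ := c12_covered hC hw
    obtain ⟨X, hX1, heX⟩ := fE e he
    exact ⟨X, hX1, heX hwe⟩
  -- all members have three elements
  have f3 : ∀ X ∈ insert R XX, 3 ≤ X.card := by
    intro X hX1
    by_contra h3
    have h2 : X.card = 2 := by
      have := (fT X hX1).1
      omega
    have hXB : X ∈ B := c12_two hsp (fT X hX1) h2
    rcases Finset.mem_insert.1 hX1 with rfl | hX2
    · apply c12_coloop hG h.hR hB hXB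
      intro e he heB hT
      by_cases heR : e ⊆ X
      · have h4 : e = X := Finset.eq_of_subset_of_card_le heR (by rw [hG.card_two e he, h2])
        rw [h4] at heB
        exact heB hXB
      · exact hn e he heB heR X hXB (Finset.Subset.refl X) hT
    · have hXR' : ¬ X ⊆ R := by
        intro h4
        have h5 := hXR X hX2
        rw [Finset.inter_eq_left.2 h4] at h5
        omega
      apply c12_coloop hG h.hR hB hXB
      intro e he heB hT
      by_cases heR : e ⊆ R
      · exact hXR' (hT.trans (tset_sub hG hB he heB hR heR))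
      · obtain ⟨Z, hZ1, heZ⟩ := hX.cover e (mem_outE.2 ⟨he, heR⟩)
        have h4 : X ⊆ Z := hT.trans (tset_sub hG hB he heB (ht Z hZ1) heZ)
        have h5 : X = Z := by
          by_contra hne
          have h6 := hX.inter X hX2 Z hZ1 hne
          rw [Finset.inter_eq_left.2 h4] at h6
          omega
        rw [← h5] at heZ
        have h6 : e = X := Finset.eq_of_subset_of_card_le heZ (by rw [hG.card_two e he, h2])
        rw [h6] at heB
        exact heB hXB
  -- the shared vertices
  have fs : ∀ Z ∈ insert R XX, 3 ≤ (shared (insert R XX) Z).card := by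
    intro Z hZ1
    apply sep hG hC (fW Z hZ1) (fne Z hZ1) (f3 Z hZ1) (Finset.filter_subset _ _)
    intro w hw hws x hx
    obtain ⟨M, hM, hwM⟩ := fE _ hx
    have h1 : M = Z := by
      by_contra hne
      apply hws
      rw [Finset.mem_filter]
      exact ⟨hw, M, hM, hne, hwM (Finset.mem_insert_self w _)⟩
    rw [← h1]
    exact hwM (Finset.mem_insert_of_mem (Finset.mem_singleton_self x))
  have c1 : 3 * (insert R XX).card ≤ ∑ Z ∈ insert R XX, (shared (insert R XX) Z).card := by
    have h1 : 3 * (insert R XX).card = ∑ Z ∈ insert R XX, 3 := by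
      rw [Finset.sum_const, smul_eq_mul, mul_comm]
    rw [h1]
    exact Finset.sum_le_sum fs
  have c2 := share_count fW fc
  have c3 := tight_sum hsp fT fi (fun b hb => fE b (hB.1 hb))
  have c4 : B.card + 3 = 2 * W.card := by
    apply (rigid_iff hG hB).1
    have h1 : 0 < B.card := by
      obtain ⟨g, hg, -⟩ := bdy_tight_edge hR
      exact Finset.card_pos.2 ⟨g, hg⟩
    obtain ⟨g, hg⟩ := Finset.card_pos.1 h1
    obtain ⟨D, hD, hD2, hD3⟩ := h.hR g (hB.1 hg)
    exact ⟨D, hD.trans (Finset.erase_subset _ _), hD2, hD3⟩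
  omega

end Pool.Agent.Lib.MP_5d015b_lc.JJ
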