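import Pool.Agent.Lib.MP_5d015b_lc.JJ.Basic
import Pool.Agent.Lib.MP_5d015b_lc.TSET

/-!
# The end of the proof of the existence of a removable vertex
-/

set_option autoImplicit false
set_option linter.unusedSectionVars false

namespace Pool.Agent.Lib.MP_5d015b_lc.JJ

variable {V : Type*} [DecidableEq V]

theorem c13_degree {F : Finset (Finset V)} (hF : Sparse F) {Y : Finset V} (hY : Y.Nonempty)
    (hc : F.card = 2 * Y.card + 1) : ∃ y ∈ Y, (F.filter fun f => y ∈ f).card ≤ 3 := by
  classical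
  by_contra hcon
  push Not at hcon
  have h1 : 4 * Y.card ≤ ∑ y ∈ Y, (F.filter fun f => y ∈ f).card := by
    calc 4 * Y.card = ∑ _y ∈ Y, 4 := by rw [Finset.sum_const, smul_eq_mul, mul_comm]
      _ ≤ _ := Finset.sum_le_sum fun y hy => hcon y hy
  have h2 : ∑ y ∈ Y, (F.filter fun f => y ∈ f).card = ∑ f ∈ F, (Y.filter fun y => y ∈ f).card := by
    simp only [Finset.card_filter]
    exact Finset.sum_comm
  have h3 : ∀ f ∈ F, (Y.filter fun y => y ∈ f).card ≤ 1 + if f ⊆ Y then 1 else 0 := by
    intro f hf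
    have hf2 := hF.1 f hf
    have hsub : (Y.filter fun y => y ∈ f) ⊆ f := fun y hy => (Finset.mem_filter.1 hy).2
    have hle := Finset.card_le_card hsub
    by_cases hfY : f ⊆ Y
    · rw [if_pos hfY]
      omega
    · rw [if_neg hfY]
      by_contra hgt
      apply hfY
      have : (Y.filter fun y => y ∈ f) = f := Finset.eq_of_subset_of_card_le hsub (by omega)
      rw [← this]
      exact Finset.filter_subset _ _
  have h4 : ∑ f ∈ F, (Y.filter fun y => y ∈ f).card ≤ F.card + (ins F Y).card := by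
    refine (Finset.sum_le_sum h3).trans ?_
    rw [Finset.sum_add_distrib, Finset.sum_const, smul_eq_mul, mul_one, ← Finset.card_filter]
    exact le_rfl
  have hYpos := Finset.card_pos.2 hY
  by_cases h5 : 2 ≤ Y.card
  · have h6 := hF.2 Y h5
    omega
  · have h6 : (ins F Y).card = 0 := by
      rw [Finset.card_eq_zero, Finset.eq_empty_iff_forall_notMem]
      intro f hf
      rw [mem_ins] at hf
      have h7 := hF.1 f hf.1
      have h8 := Finset.card_le_card hf.2
      omega
    omega

theorem LT.final {W : Finset V} {E B : Finset (Finset V)} {R : Finset V} (h : LT W E B R)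
    {e g : Finset V} (he : e ∈ E) (heB : e ∉ B) (heR : ¬ e ⊆ R) (hg : g ∈ B) (hgR : g ⊆ R)
    (hgT : g ⊆ tset B e) : ∃ y ∈ W, Rigid (W.erase y) (delV E y) := by
  classical
  have hBE := h.hB.1
  have hsp := h.hB.2.1
  have hBW : ∀ f ∈ B, f ⊆ W := fun f hf => h.hG.sub f (hBE hf)
  obtain ⟨hT, heT, hspec⟩ := tset_spec h.hG h.hB he heB
  obtain ⟨T, hTdef⟩ : ∃ T, T = tset B e := ⟨_, rfl⟩
  rw [← hTdef] at hT heT hspec hgT
  have hTW : T ⊆ W := by
    intro v hv
    rw [hTdef] at hv
    unfold tset at hv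
    rw [Finset.mem_biUnion] at hv
    obtain ⟨f, hf, hvf⟩ := hv
    exact hBW f (Finset.mem_filter.1 hf).1 hvf
  have h2 : 2 ≤ (T ∩ R).card := by
    rw [← hsp.1 g hg]
    exact Finset.card_le_card (Finset.subset_inter hgT hgR)
  have hun := (tight_union hsp hT h.ht h2).1
  have hTR : T ∪ R = W := by
    by_contra hne
    have h3 := h.hmax B (T ∪ R) h.hB hun (Finset.union_subset hTW h.hRW) hne
    have h4 : R = T ∪ R := Finset.eq_of_subset_of_card_le Finset.subset_union_right h3
    apply heR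
    rw [h4]
    exact heT.trans Finset.subset_union_left
  have hinsW : ins B W = B := by
    ext f
    rw [mem_ins]
    exact ⟨fun h => h.1, fun h => ⟨h, hBW f h⟩⟩
  have hBcard : B.card + 3 = 2 * W.card := by
    have := hun.2
    rwa [hTR, hinsW] at this
  have hRcard := h.ht.2
  -- the edges outside `R`
  obtain ⟨B', hB'⟩ : ∃ B', B' = B \ ins B R := ⟨_, rfl⟩
  have hB'card : B'.card + (ins B R).card = B.card := by
    rw [hB']
    exact Finset.card_sdiff_add_card_eq_card (Finset.filter_subset _ _)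
  obtain ⟨Y, hY⟩ : ∃ Y, Y = W \ R := ⟨_, rfl⟩
  have hYcard : Y.card + R.card = W.card := by
    rw [hY]
    exact Finset.card_sdiff_add_card_eq_card h.hRW
  have hYne : Y.Nonempty := by
    rw [hY, Finset.sdiff_nonempty]
    intro hWR
    exact h.hne (Finset.Subset.antisymm h.hRW hWR)
  obtain ⟨F, hF⟩ : ∃ F, F = insert e B' := ⟨_, rfl⟩
  have hB'B : B' ⊆ B := by
    rw [hB']
    exact Finset.sdiff_subset
  have hFcard : F.card = 2 * Y.card + 1 := by
    rw [hF, Finset.card_insert_of_notMem (fun h' => heB (hB'B h'))]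
    omega
  have hFsp : Sparse F := by
    refine (hspec g hg hgT).mono ?_
    rw [hF]
    refine Finset.insert_subset_insert _ ?_
    intro f hf
    refine Finset.mem_erase.2 ⟨?_, hB'B hf⟩
    rintro rfl
    rw [hB', Finset.mem_sdiff] at hf
    exact hf.2 (mem_ins.2 ⟨hg, hgR⟩)
  obtain ⟨y, hyY, hydeg⟩ := c13_degree hFsp hYne hFcard
  have hyW : y ∈ W := by
    rw [hY] at hyY
    exact (Finset.mem_sdiff.1 hyY).1
  have hyR : y ∉ R := by
    rw [hY] at hyY
    exact (Finset.mem_sdiff.1 hyY).2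
  have hyT : y ∈ T := by
    have : y ∈ T ∪ R := hTR ▸ hyW
    rcases Finset.mem_union.1 this with h' | h'
    · exact h'
    · exact absurd h' hyR
  have hyF : ∀ f ∈ B, y ∈ f → f ∈ F := by
    intro f hf hyf
    rw [hF]
    refine Finset.mem_insert_of_mem ?_
    rw [hB', Finset.mem_sdiff]
    exact ⟨hf, fun h' => hyR ((mem_ins.1 h').2 hyf)⟩
  obtain ⟨f, hfB, hyf, hfS⟩ : ∃ f ∈ B, y ∈ f ∧ Sparse (insert e (B.erase f)) := by
    rw [hTdef] at hyT
    unfold tset at hyT
    rw [Finset.mem_biUnion] at hyT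
    obtain ⟨f, hf, hvf⟩ := hyT
    rw [Finset.mem_filter] at hf
    exact ⟨f, hf.1, hvf, hf.2⟩
  obtain ⟨C, hC⟩ : ∃ C, C = insert e (B.erase f) := ⟨_, rfl⟩
  have hCcard : C.card = B.card := by
    rw [hC, Finset.card_insert_of_notMem (fun h' => heB (Finset.mem_of_mem_erase h')),
      Finset.card_erase_of_mem hfB]
    have := Finset.card_pos.2 ⟨f, hfB⟩
    omega
  have hCy : (C.filter fun d => y ∈ d).card ≤ 2 := by
    have hsub : (C.filter fun d => y ∈ d) ⊆ (F.filter fun d => y ∈ d).erase f := by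
      intro d hd
      rw [Finset.mem_filter, hC, Finset.mem_insert, Finset.mem_erase] at hd
      obtain ⟨hd1, hyd⟩ := hd
      rw [Finset.mem_erase, Finset.mem_filter]
      rcases hd1 with rfl | ⟨hdf, hdB⟩
      · refine ⟨?_, ?_, hyd⟩
        · rintro rfl
          exact heB hfB
        · rw [hF]
          exact Finset.mem_insert_self _ _
      · exact ⟨hdf, hyF d hdB hyd, hyd⟩
    have h3 := Finset.card_le_card hsub
    rw [Finset.card_erase_of_mem (Finset.mem_filter.2 ⟨hyF f hfB hyf, hyf⟩)] at h3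
    omega
  have hCC : (C.filter fun d => y ∈ d).card + (C.filter fun d => ¬ y ∈ d).card = C.card :=
    Finset.card_filter_add_card_filter_not _
  have h4W := h.hC.1
  obtain ⟨D, hDsub, hDcard⟩ := Finset.exists_subset_card_eq
    (s := C.filter fun d => ¬ y ∈ d) (n := 2 * W.card - 5) (by omega)
  refine ⟨y, hyW, D, ?_, ?_, ?_⟩
  · intro d hd
    have hd' := Finset.mem_filter.1 (hDsub hd)
    rw [mem_delV]
    refine ⟨?_, hd'.2⟩
    rw [hC] at hd'
    rcases Finset.mem_insert.1 hd'.1 with rfl | h'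
    · exact he
    · exact hBE (Finset.mem_of_mem_erase h')
  · rw [← hC] at hfS
    exact hfS.mono (hDsub.trans (Finset.filter_subset _ _))
  · rw [Finset.card_erase_of_mem hyW, hDcard]
    omega

end Pool.Agent.Lib.MP_5d015b_lc.JJ
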