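import Pool.Agent.Lib.MP_5d015b_lc.JJ.C11
import Pool.Agent.Lib.MP_5d015b_lc.JJ.C12
import Pool.Agent.Lib.MP_5d015b_lc.JJ.C13

/-!
# Generic global rigidity in the plane, module C14: existence of a removable vertex
-/

set_option autoImplicit false
set_option linter.unusedSectionVars false

namespace Pool.Agent.Lib.MP_5d015b_lc.JJ

variable {V : Type*} [DecidableEq V]

theorem exists_del_rigid {W : Finset V} {E : Finset (Finset V)} (hG : IsGraph W E)
    (hC : Conn3 W E) (hR : RedRigid W E) : ∃ v ∈ W, Rigid (W.erase v) (delV E v) := by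
  have hempty : Sparse (∅ : Finset (Finset V)) := by
    refine ⟨fun e he => absurd he (Finset.notMem_empty e), fun X hX => ?_⟩
    have h : ins (∅ : Finset (Finset V)) X = ∅ := by
      unfold ins
      exact Finset.filter_empty _
    rw [h, Finset.card_empty]
    omega
  obtain ⟨B0, _, hB0⟩ := exists_maxSp (E := E) hempty (Finset.empty_subset _)
  have hW4 := hC.1
  -- an edge
  obtain ⟨v0, hv0⟩ : W.Nonempty := Finset.card_pos.1 (by omega)
  have h3 := three_le_nb hG hC hv0
  obtain ⟨x0, hx0⟩ : (nb E {v0}).Nonempty := Finset.card_pos.1 (by omega)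
  have he0 := ((mem_nb_single11 hG).1 hx0).2
  have hB0ne : B0.Nonempty := by
    by_contra hne
    rw [Finset.not_nonempty_iff_eq_empty] at hne
    obtain ⟨X, hX, _⟩ := exists_tight hB0 hG.card_two he0
    have h1 : ins B0 X = ∅ := by
      rw [hne]
      unfold ins
      exact Finset.filter_empty _
    have h2 := hX.2
    have h4 := hX.1
    rw [h1, Finset.card_empty] at h2
    omega
  obtain ⟨e, he⟩ := hB0ne
  let S : Set ℕ := {k | ∃ B R, MaxSp E B ∧ Tight B R ∧ R ⊆ W ∧ R ≠ W ∧ R.card = k}
  have hSne : S.Nonempty := by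
    refine ⟨e.card, B0, e, hB0, tight_edge hB0.2.1 he, hG.sub e (hB0.1 he), ?_, rfl⟩
    rintro rfl
    have := hG.card_two e (hB0.1 he)
    omega
  have hSb : BddAbove S := ⟨W.card, by
    rintro k ⟨B, R, _, _, hRW, _, rfl⟩
    exact Finset.card_le_card hRW⟩
  obtain ⟨B, R, hB, ht, hRW, hne, hk⟩ := Nat.sSup_mem hSne hSb
  have hLT : LT W E B R :=
    { hG := hG
      hC := hC
      hR := hR
      hB := hB
      ht := ht
      hRW := hRW
      hne := hne
      hmax := by
        intro B' R' h1 h2 h3 h4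
        rw [hk]
        exact le_csSup hSb ⟨B', R', h1, h2, h3, h4, rfl⟩ }
  obtain ⟨e', he', heB', heR', g, hg, hgR, hgT⟩ := hLT.meet
  exact hLT.final he' heB' heR' hg hgR hgT

end Pool.Agent.Lib.MP_5d015b_lc.JJ
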