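import Pool.Agent.Lib.MP_5d015b_lc.JJ.Basic

/-!
# Coordinates of generic points
-/

set_option autoImplicit false
set_option linter.unusedSectionVars false

namespace Pool.Agent.Lib.MP_5d015b_lc.JJ

variable {V : Type*} [DecidableEq V]

theorem gen_ne {W : Finset V} {p : V → Fin 2 → ℝ} (hp : Gen W p) {u v : V} (hu : u ∈ W)
    (hv : v ∈ W) (h : u ≠ v) (i : Fin 2) : p u i ≠ p v i := by
  intro h1
  have h2 := hp.injective (a₁ := (⟨u, hu⟩, i)) (a₂ := (⟨v, hv⟩, i)) (by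
    change dR (p u i) = dR (p v i)
    rw [h1])
  rw [Prod.mk.injEq, Subtype.mk.injEq] at h2
  exact h h2.1

theorem gen_indep_mod {W : Finset V} {p : V → Fin 2 → ℝ} (hp : Gen W p) {v : V} (hv : v ∈ W)
    {α β : ℝ} (h : α • dR (p v 0) + β • dR (p v 1) ∈ spanW (W.erase v) p) : α = 0 ∧ β = 0 := by
  have hp' := hp
  unfold Gen at hp'
  have hd := hp'.disjoint_span_image (s := {x | (x.1 : V) ≠ v}) (t := {x | (x.1 : V) = v})
    (Set.disjoint_left.2 fun x hx hx' => hx hx')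
  rw [Submodule.disjoint_def] at hd
  have h1 : spanW (W.erase v) p ≤ Submodule.span ℝ ((fun x : ↥W × Fin 2 => dR (p x.1 x.2)) ''
      {x | (x.1 : V) ≠ v}) := by
    unfold spanW
    rw [Submodule.span_le]
    rintro _ ⟨⟨⟨y, hy⟩, i⟩, rfl⟩
    rw [Finset.mem_erase] at hy
    exact Submodule.subset_span ⟨(⟨y, hy.2⟩, i), hy.1, rfl⟩
  have h2 : ∀ i, dR (p v i) ∈ Submodule.span ℝ ((fun x : ↥W × Fin 2 => dR (p x.1 x.2)) ''
      {x | (x.1 : V) = v}) := fun i => Submodule.subset_span ⟨(⟨v, hv⟩, i), rfl, rfl⟩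
  have h3 := hd _ (h1 h) (Submodule.add_mem _ (Submodule.smul_mem _ _ (h2 0))
    (Submodule.smul_mem _ _ (h2 1)))
  have h4 : LinearIndependent ℝ (fun i : Fin 2 => dR (p v i)) :=
    hp'.comp (fun i => ((⟨v, hv⟩ : ↥W), i)) fun i j hij => (Prod.mk.inj hij).2
  rw [Fintype.linearIndependent_iff] at h4
  have h5 := h4 ![α, β] (by
    rw [Fin.sum_univ_two]
    exact h3)
  exact ⟨h5 0, h5 1⟩

theorem gen_det3 {W : Finset V} {p : V → Fin 2 → ℝ} (hp : Gen W p) {u v w : V} (hu : u ∈ W)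
    (hv : v ∈ W) (hw : w ∈ W) (huv : u ≠ v) (hvw : v ≠ w) (huw : u ≠ w) : det3 p u v w ≠ 0 := by
  intro h
  have hu' : u ∈ W.erase v := Finset.mem_erase.2 ⟨huv, hu⟩
  have hw' : w ∈ W.erase v := Finset.mem_erase.2 ⟨hvw.symm, hw⟩
  have h1 : dR (det3 p u v w) = 0 := by
    rw [h, dR_zero]
  unfold det3 at h1
  rw [dR_sub, dR_mul, dR_mul, dR_sub, dR_sub, dR_sub, dR_sub] at h1
  have h2 : (p w 1 - p u 1) • dR (p v 0) + (-(p w 0 - p u 0)) • dR (p v 1) =
      (p w 1 - p u 1) • dR (p u 0) - (p v 0 - p u 0) • (dR (p w 1) - dR (p u 1)) +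
        ((p v 1 - p u 1) • (dR (p w 0) - dR (p u 0)) - (p w 0 - p u 0) • dR (p u 1)) := by
    rw [← sub_eq_zero, ← h1]
    module
  have h3 : (p w 1 - p u 1) • dR (p v 0) + (-(p w 0 - p u 0)) • dR (p v 1) ∈
      spanW (W.erase v) p := by
    rw [h2]
    have a1 := fun i => mem_spanW (p := p) hu' i
    have a2 := fun i => mem_spanW (p := p) hw' i
    exact Submodule.add_mem _ (Submodule.sub_mem _ (Submodule.smul_mem _ _ (a1 0))
      (Submodule.smul_mem _ _ (Submodule.sub_mem _ (a2 1) (a1 1))))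
      (Submodule.sub_mem _ (Submodule.smul_mem _ _ (Submodule.sub_mem _ (a2 0) (a1 0)))
        (Submodule.smul_mem _ _ (a1 1)))
  have h4 := gen_indep_mod hp hv h3
  exact gen_ne hp hw hu huw.symm 1 (sub_eq_zero.1 h4.1)

end Pool.Agent.Lib.MP_5d015b_lc.JJ
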