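import Pool.Agent.Lib.MP_5d015b_lc.JJ.Basic

/-!
# Normal position of a framework
-/

set_option autoImplicit false
set_option linter.unusedSectionVars false

namespace Pool.Agent.Lib.MP_5d015b_lc.JJ

variable {V : Type*} [DecidableEq V]

theorem exists_normal (q : V → Fin 2 → ℝ) {u w : V} (_huw : u ≠ w) :
    ∃ q' : V → Fin 2 → ℝ, (∀ x y, sqd q' x y = sqd q x y) ∧ q' u 0 = 0 ∧ q' u 1 = 0 ∧
      q' w 1 = 0 := by
  obtain ⟨a, b, hab, h⟩ : ∃ a b : ℝ, a ^ 2 + b ^ 2 = 1 ∧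
      -b * (q w 0 - q u 0) + a * (q w 1 - q u 1) = 0 := by
    by_cases h0 : (q w 0 - q u 0) ^ 2 + (q w 1 - q u 1) ^ 2 = 0
    · refine ⟨1, 0, by norm_num, ?_⟩
      have h1 : (q w 1 - q u 1) ^ 2 = 0 := by nlinarith [sq_nonneg (q w 0 - q u 0), sq_nonneg (q w 1 - q u 1)]
      have h2 : q w 1 - q u 1 = 0 := by
        exact pow_eq_zero_iff (two_ne_zero) |>.1 h1
      rw [h2]
      ring
    · have hpos : 0 < (q w 0 - q u 0) ^ 2 + (q w 1 - q u 1) ^ 2 :=
        lt_of_le_of_ne (by positivity) (Ne.symm h0)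
      set r := Real.sqrt ((q w 0 - q u 0) ^ 2 + (q w 1 - q u 1) ^ 2) with hr
      have hr0 : 0 < r := Real.sqrt_pos.2 hpos
      have hr2 : r ^ 2 = (q w 0 - q u 0) ^ 2 + (q w 1 - q u 1) ^ 2 := Real.sq_sqrt hpos.le
      refine ⟨(q w 0 - q u 0) / r, (q w 1 - q u 1) / r, ?_, ?_⟩
      · rw [div_pow, div_pow, ← add_div, ← hr2]
        exact div_self (by positivity)
      · field_simp
        ring
  refine ⟨fun x => ![a * (q x 0 - q u 0) + b * (q x 1 - q u 1),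
    -b * (q x 0 - q u 0) + a * (q x 1 - q u 1)], ?_, ?_, ?_, ?_⟩
  · intro x y
    unfold sqd
    simp only [Matrix.cons_val_zero, Matrix.cons_val_one]
    have h2 : (a * (q x 0 - q u 0) + b * (q x 1 - q u 1) -
        (a * (q y 0 - q u 0) + b * (q y 1 - q u 1))) ^ 2 +
        (-b * (q x 0 - q u 0) + a * (q x 1 - q u 1) -
        (-b * (q y 0 - q u 0) + a * (q y 1 - q u 1))) ^ 2 =
        (a ^ 2 + b ^ 2) * ((q x 0 - q y 0) ^ 2 + (q x 1 - q y 1) ^ 2) := by ring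
    rw [h2, hab, one_mul]
  · simp
  · simp
  · simpa using h

end Pool.Agent.Lib.MP_5d015b_lc.JJ
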