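import Pool.Agent.Lib.MP_5d015b_lc.JJ.Basic

/-!
# Module R2 of `JJ`: an infinitesimally rigid framework with `2 |W| - 3` edges has independent rows
-/

set_option autoImplicit false
set_option linter.unusedSectionVars false

namespace Pool.Agent.Lib.MP_5d015b_lc.JJ

variable {V : Type*} [DecidableEq V]

theorem rows_of_infRigid {W : Finset V} {L : Finset (Finset V)} (hG : IsGraph W L)
    (hc : L.card + 3 = 2 * W.card) {p : V → Fin 2 → ℝ} (hp : InfRigid W L p) :
    LinearIndepOn ℝ (rho p) (L : Set (Finset V)) := by
  classical
  have hX : LinearIndependent ℝ (fun e : ↥L => rX p W (e : Finset V)) := by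
    rw [linearIndependent_iff_card_le_finrank_span]
    set S := Submodule.span ℝ (Set.range (fun e : ↥L => rX p W (e : Finset V))) with hSdef
    have hS2 : Module.finrank ℝ S + Module.finrank ℝ S.dualCoannihilator = 2 * W.card := by
      rw [← finrank_X W]
      exact Subspace.finrank_add_finrank_dualCoannihilator_eq S
    have hS3 : S.dualCoannihilator ≤ trX p W := by
      intro m hm
      rw [Submodule.mem_dualCoannihilator] at hm
      have hk : ∀ e ∈ L, rho p e (extX W m) = 0 := fun e he =>
        hm (rX p W e) (Submodule.subset_span ⟨⟨e, he⟩, rfl⟩)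
      obtain ⟨x, y, z, hxyz⟩ := hp (extX W m) (by
        intro u v huv
        have huv' : u ≠ v := by
          rintro rfl
          have := hG.card_two _ huv
          simp at this
        have h4 := hk _ huv
        rw [rho_pair p _ huv'] at h4
        linarith)
      refine ⟨![x, y, z], ?_⟩
      funext v i
      have h5 := hxyz v v.2
      rw [extX_apply W m v.2] at h5
      rw [LinearMap.comp_apply, resX_apply]
      fin_cases i
      · exact h5.1.symm
      · exact h5.2.symm
    have hS4 := Submodule.finrank_mono hS3
    have hS5 := finrank_trX_le p W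
    have hS6 : L.card ≤ Module.finrank ℝ S := by omega
    rw [Fintype.card_coe]
    exact hS6
  have hX' : LinearIndependent ℝ (fun e : ↥L => rho p (e : Finset V)) := by
    refine LinearIndependent.of_comp ((extX W).dualMap) ?_
    exact hX
  exact hX'

end Pool.Agent.Lib.MP_5d015b_lc.JJ
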