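import Pool.Agent.Lib.MP_5d015b_lc.JJ.Basic

/-!
# Module R3 of `JJ`: independent rows applied to independent vectors of a module
-/

set_option autoImplicit false
set_option linter.unusedSectionVars false

namespace Pool.Agent.Lib.MP_5d015b_lc.JJ

variable {V : Type*} [DecidableEq V]

theorem rowsM {W : Finset V} {F : Finset (Finset V)} (hF : ∀ e ∈ F, e ⊆ W)
    {p : V → Fin 2 → ℝ} (hr : LinearIndepOn ℝ (rho p) (F : Set (Finset V)))
    {M : Type*} [AddCommGroup M] [Module ℝ M] {m : V → Fin 2 → M}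
    (hm : LinearIndependent ℝ (fun x : ↥W × Fin 2 => m x.1 x.2)) :
    LinearIndependent ℝ (fun e : ↥F => rhoM p (e : Finset V) m) := by
  classical
  rw [Fintype.linearIndependent_iff]
  intro c hc
  have hr' : LinearIndependent ℝ (fun e : ↥F => rho p (e : Finset V)) := hr
  rw [Fintype.linearIndependent_iff] at hr'
  refine hr' c ?_
  refine LinearMap.ext fun m' => ?_
  obtain ⟨f, hf⟩ : ∃ f : M →ₗ[ℝ] ℝ, ∀ x : ↥W × Fin 2, f (m x.1 x.2) = m' x.1 x.2 := by
    let b := Module.Basis.span hm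
    obtain ⟨f, hf⟩ := LinearMap.exists_extend (b.constr ℝ (fun x : ↥W × Fin 2 => m' x.1 x.2))
    refine ⟨f, fun x => ?_⟩
    have h1 : (b x : M) = m x.1 x.2 := congrArg Subtype.val (Module.Basis.span_apply hm x)
    rw [← h1]
    have h2 : f (b x : M) = (f.comp (Submodule.subtype _)) (b x) := rfl
    rw [h2, hf, Module.Basis.constr_basis]
  have h1 := congrArg f hc
  rw [map_sum, map_zero] at h1
  rw [LinearMap.zero_apply, LinearMap.sum_apply, ← h1]
  refine Finset.sum_congr rfl fun e _ => ?_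
  rw [LinearMap.smul_apply, map_smul, rhoM_map, rhoM_real, rho_apply, rho_apply]
  congr 1
  refine Finset.sum_congr rfl fun u hu => Finset.sum_congr rfl fun v hv => ?_
  have hu' := hF _ e.2 hu
  have hv' := hF _ e.2 hv
  rw [hf (⟨u, hu'⟩, 0), hf (⟨u, hu'⟩, 1), hf (⟨v, hv'⟩, 0), hf (⟨v, hv'⟩, 1)]

end Pool.Agent.Lib.MP_5d015b_lc.JJ
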