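import Pool.Agent.Lib.MP_5d015b_lc.JJ.Basic

/-!
# Module R4 of `JJ`: `2 |W| - 3` independent rows imply infinitesimal rigidity
-/

set_option autoImplicit false
set_option linter.unusedSectionVars false

namespace Pool.Agent.Lib.MP_5d015b_lc.JJ

variable {V : Type*} [DecidableEq V]

theorem infRigid_of_rows {W : Finset V} {L : Finset (Finset V)} (hG : IsGraph W L)
    (hc : L.card + 3 = 2 * W.card) {p : V → Fin 2 → ℝ}
    (hr : LinearIndepOn ℝ (rho p) (L : Set (Finset V))) {u v : V} (hu : u ∈ W) (hv : v ∈ W)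
    (h : p u ≠ p v) : InfRigid W L p := by
  classical
  have hX : LinearIndependent ℝ (fun e : ↥L => rX p W (e : Finset V)) := by
    have h1 : LinearIndependent ℝ (fun e : ↥L => rho p (e : Finset V)) := hr
    refine LinearIndependent.of_comp ((resX W).dualMap) ?_
    convert h1 using 1
    funext e
    refine LinearMap.ext fun m => ?_
    exact rX_res p (hG.sub e e.2) m
  set S := Submodule.span ℝ (Set.range (fun e : ↥L => rX p W (e : Finset V))) with hSdef
  have hS1 : Module.finrank ℝ S = L.card := by
    rw [hSdef, finrank_span_eq_card hX, Fintype.card_coe]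
  have hS2 := Subspace.finrank_add_finrank_dualCoannihilator_eq S
  rw [finrank_X, hS1] at hS2
  have hle : trX p W ≤ S.dualCoannihilator := by
    rintro m ⟨t, rfl⟩
    rw [Submodule.mem_dualCoannihilator]
    intro φ hφ
    have h3 : S ≤ LinearMap.ker (Module.Dual.eval ℝ (W → Fin 2 → ℝ)
        (((resX W).comp (triv p)) t)) := by
      rw [hSdef, Submodule.span_le]
      rintro _ ⟨f, rfl⟩
      rw [SetLike.mem_coe, LinearMap.mem_ker]
      change rX p W f (resX W (triv p t)) = 0
      rw [rX_res p (hG.sub f f.2)]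
      exact rho_triv p _ t
    exact LinearMap.mem_ker.1 (h3 hφ)
  have heq : trX p W = S.dualCoannihilator := by
    refine Submodule.eq_of_le_of_finrank_eq hle ?_
    rw [finrank_trX p hu hv h]
    omega
  intro m hm
  have hmem : resX W m ∈ S.dualCoannihilator := by
    rw [Submodule.mem_dualCoannihilator]
    intro φ hφ
    have h3 : S ≤ LinearMap.ker (Module.Dual.eval ℝ (W → Fin 2 → ℝ) (resX W m)) := by
      rw [hSdef, Submodule.span_le]
      rintro _ ⟨f, rfl⟩
      rw [SetLike.mem_coe, LinearMap.mem_ker]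
      change rX p W f (resX W m) = 0
      rw [rX_res p (hG.sub f f.2)]
      obtain ⟨a, b, hab, hfab⟩ := Finset.card_eq_two.1 (hG.card_two f f.2)
      have hf2 : ({a, b} : Finset V) ∈ L := by
        rw [← hfab]
        exact f.2
      rw [hfab, rho_pair p m hab, hm a b hf2, mul_zero]
    exact LinearMap.mem_ker.1 (h3 hφ)
  rw [← heq] at hmem
  obtain ⟨t, ht⟩ := hmem
  refine ⟨t 0, t 1, t 2, fun w hw => ?_⟩
  have h1 := congrFun ht ⟨w, hw⟩
  rw [LinearMap.comp_apply, resX_apply, resX_apply] at h1
  refine ⟨?_, ?_⟩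
  · have h2 := congrFun h1 0
    rw [triv_zero] at h2
    exact h2.symm
  · have h2 := congrFun h1 1
    rw [triv_one] at h2
    exact h2.symm

end Pool.Agent.Lib.MP_5d015b_lc.JJ
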