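import Pool.Agent.Lib.MP_5d015b_lc.JJ.A2
import Pool.Agent.Lib.MP_5d015b_lc.JJ.R2
import Pool.Agent.Lib.MP_5d015b_lc.JJ.R4

/-!
# Module R5 of `JJ`: Laman graphs are infinitesimally rigid in every generic position
-/

set_option autoImplicit false
set_option linter.unusedSectionVars false

namespace Pool.Agent.Lib.MP_5d015b_lc.JJ

variable {V : Type*} [DecidableEq V]

/-- the entries of a row of the rigidity matrix, over a ring -/
def rowR {A : Type*} [CommRing A] (W : Finset V) (q : V → Fin 2 → A) (e : Finset V)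
    (x : ↥W × Fin 2) : A :=
  ∑ u ∈ e, ∑ v ∈ e, (q u x.2 - q v x.2) *
    ((if u = x.1 then 1 else 0) - (if v = x.1 then 1 else 0))

theorem rowR_map {A B : Type*} [CommRing A] [CommRing B] (φ : A →+* B) (W : Finset V)
    (q : V → Fin 2 → A) (e : Finset V) (x : ↥W × Fin 2) :
    φ (rowR W q e x) = rowR W (fun w i => φ (q w i)) e x := by
  unfold rowR
  rw [map_sum]
  refine Finset.sum_congr rfl fun u _ => ?_
  rw [map_sum]
  refine Finset.sum_congr rfl fun v _ => ?_
  rw [map_mul, map_sub, map_sub, apply_ite φ, apply_ite φ, map_one, map_zero]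

theorem rowR_congr {A : Type*} [CommRing A] {W : Finset V} {q q' : V → Fin 2 → A} {e : Finset V}
    (he : e ⊆ W) (h : ∀ w ∈ W, ∀ i, q w i = q' w i) (x : ↥W × Fin 2) :
    rowR W q e x = rowR W q' e x := by
  unfold rowR
  refine Finset.sum_congr rfl fun u hu => Finset.sum_congr rfl fun v hv => ?_
  rw [h u (he hu), h v (he hv)]

theorem rho_eq_sum {W : Finset V} {p m : V → Fin 2 → ℝ} {e : Finset V} (he : e ⊆ W) :
    rho p e m = ∑ x : ↥W × Fin 2, rowR W p e x * m x.1 x.2 := by
  rw [rho_apply]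
  unfold rowR
  simp_rw [Finset.sum_mul]
  conv_rhs => rw [Finset.sum_comm]
  refine Finset.sum_congr rfl fun u hu => ?_
  conv_rhs => rw [Finset.sum_comm]
  refine Finset.sum_congr rfl fun v hv => ?_
  rw [Fintype.sum_prod_type_right, Fin.sum_univ_two]
  have h1 : ∀ w : V, w ∈ W → ∀ i, ∑ y : ↥W, (if w = (y : V) then (1 : ℝ) else 0) * m y i = m w i := by
    intro w hw i
    rw [Finset.sum_eq_single (⟨w, hw⟩ : ↥W)]
    · rw [if_pos rfl, one_mul]
    · intro b _ hb
      rw [if_neg, zero_mul]
      intro hwb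
      exact hb (Subtype.ext hwb.symm)
    · intro hcon
      exact absurd (Finset.mem_univ _) hcon
  have key : ∀ i, ∑ y : ↥W, (p u i - p v i) *
      ((if u = (y : V) then (1 : ℝ) else 0) - (if v = (y : V) then (1 : ℝ) else 0)) * m y i =
      (p u i - p v i) * (m u i - m v i) := by
    intro i
    rw [← h1 u (he hu) i, ← h1 v (he hv) i, ← Finset.sum_sub_distrib, Finset.mul_sum]
    refine Finset.sum_congr rfl fun y _ => ?_
    ring
  rw [key 0, key 1]

/-- the matrix of the rows -/
def matR (W : Finset V) (L : Finset (Finset V)) (q : V → Fin 2 → ℝ) :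
    Matrix ↥L (↥W × Fin 2) ℝ := fun e x => rowR W q e x

theorem vecMul_matR {W : Finset V} {L : Finset (Finset V)} (q : V → Fin 2 → ℝ) (c : ↥L → ℝ)
    (x : ↥W × Fin 2) : Matrix.vecMul c (matR W L q) x = ∑ e : ↥L, c e * rowR W q e x := rfl

theorem vecMul_gram {W : Finset V} {L : Finset (Finset V)} (q : V → Fin 2 → ℝ) (c : ↥L → ℝ) :
    Matrix.vecMul c (matR W L q * (matR W L q).transpose) = 0 ↔
      Matrix.vecMul c (matR W L q) = 0 := by
  constructor
  · intro h
    have h1 : Matrix.vecMul c (matR W L q) ⬝ᵥ Matrix.vecMul c (matR W L q) = 0 := by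
      have h2 : Matrix.vecMul c (matR W L q * (matR W L q).transpose) ⬝ᵥ c = 0 := by
        rw [h, zero_dotProduct]
      rw [← Matrix.vecMul_vecMul, ← Matrix.dotProduct_mulVec, Matrix.mulVec_transpose] at h2
      exact h2
    exact dotProduct_self_eq_zero.1 h1
  · intro h
    rw [← Matrix.vecMul_vecMul, h, Matrix.zero_vecMul]

theorem rows_iff {W : Finset V} {L : Finset (Finset V)} (hL : ∀ e ∈ L, e ⊆ W)
    (q : V → Fin 2 → ℝ) : LinearIndepOn ℝ (rho q) (L : Set (Finset V)) ↔
      (matR W L q * (matR W L q).transpose).det ≠ 0 := by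
  classical
  have h0 : LinearIndepOn ℝ (rho q) (L : Set (Finset V)) ↔
      LinearIndependent ℝ (fun e : ↥L => rho q (e : Finset V)) := Iff.rfl
  have h1 : ∀ c : ↥L → ℝ, (∑ e : ↥L, c e • rho q (e : Finset V) = 0 ↔
      Matrix.vecMul c (matR W L q) = 0) := by
    intro c
    have h2 : ∀ m : V → Fin 2 → ℝ, (∑ e : ↥L, c e • rho q (e : Finset V)) m =
        ∑ x : ↥W × Fin 2, Matrix.vecMul c (matR W L q) x * m x.1 x.2 := by
      intro m
      rw [LinearMap.sum_apply]
      have h3 : ∀ e : ↥L, (c e • rho q (e : Finset V)) m =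
          ∑ x : ↥W × Fin 2, c e * rowR W q e x * m x.1 x.2 := by
        intro e
        rw [LinearMap.smul_apply, rho_eq_sum (hL e e.2), smul_eq_mul, Finset.mul_sum]
        exact Finset.sum_congr rfl fun x _ => (mul_assoc _ _ _).symm
      rw [Finset.sum_congr rfl fun e _ => h3 e, Finset.sum_comm]
      refine Finset.sum_congr rfl fun x _ => ?_
      rw [vecMul_matR, Finset.sum_mul]
    constructor
    · intro h
      funext x
      have h3 := h2 fun w i => if w = x.1 ∧ i = x.2 then 1 else 0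
      rw [h, LinearMap.zero_apply, Finset.sum_eq_single x] at h3
      · rw [if_pos ⟨rfl, rfl⟩, mul_one] at h3
        rw [← h3]
        rfl
      · intro y _ hy
        rw [if_neg, mul_zero]
        rintro ⟨hy1, hy2⟩
        exact hy (Prod.ext (Subtype.ext hy1) hy2)
      · intro hcon
        exact absurd (Finset.mem_univ _) hcon
    · intro h
      refine LinearMap.ext fun m => ?_
      rw [h2 m, h, LinearMap.zero_apply]
      refine Finset.sum_eq_zero fun x _ => ?_
      rw [Pi.zero_apply, zero_mul]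
  rw [h0, Fintype.linearIndependent_iff, Ne, ← Matrix.exists_vecMul_eq_zero_iff]
  constructor
  · rintro h ⟨c, hc0, hc⟩
    rw [vecMul_gram, ← h1] at hc
    exact hc0 (funext (h c hc))
  · intro h c hc
    by_contra hcon
    refine h ⟨c, ?_, ?_⟩
    · intro hc0
      apply hcon
      intro e
      rw [hc0]
      rfl
    · rw [vecMul_gram, ← h1]
      exact hc

theorem infRigid_gen {W : Finset V} {L : Finset (Finset V)} (hG : IsGraph W L) (hS : Sparse L)
    (hc : L.card + 3 = 2 * W.card) (h2 : 2 ≤ W.card) {p : V → Fin 2 → ℝ} (hp : Gen W p) :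
    InfRigid W L p := by
  classical
  obtain ⟨p₀, hp₀⟩ := laman_suff hG hS hc h2
  have hr₀ := (rows_iff hG.sub p₀).1 (rows_of_infRigid hG hc hp₀)
  let Q : V → Fin 2 → MvPolynomial (↥W × Fin 2) ℚ := fun w i =>
    if h : w ∈ W then MvPolynomial.X (⟨w, h⟩, i) else 0
  let A : Matrix ↥L (↥W × Fin 2) (MvPolynomial (↥W × Fin 2) ℚ) := fun e x => rowR W Q e x
  have hev : ∀ q : V → Fin 2 → ℝ,
      (MvPolynomial.aeval (fun x : ↥W × Fin 2 => q x.1 x.2)) (A * A.transpose).det =
        (matR W L q * (matR W L q).transpose).det := by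
    intro q
    set φ : MvPolynomial (↥W × Fin 2) ℚ →ₐ[ℚ] ℝ :=
      MvPolynomial.aeval (fun x : ↥W × Fin 2 => q x.1 x.2) with hφ
    have h3 : A.map φ = matR W L q := by
      ext e x
      rw [Matrix.map_apply]
      change φ.toRingHom (rowR W Q e x) = rowR W q e x
      rw [rowR_map]
      refine rowR_congr (hG.sub e e.2) (fun w hw i => ?_) x
      change φ (if h : w ∈ W then MvPolynomial.X (⟨w, h⟩, i) else 0) = q w i
      rw [dif_pos hw, hφ, MvPolynomial.aeval_X]
    rw [AlgHom.map_det, AlgHom.mapMatrix_apply, Matrix.map_mul, Matrix.transpose_map, h3]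
  have hne : (A * A.transpose).det ≠ 0 := by
    intro h
    apply hr₀
    rw [← hev, h, map_zero]
  have halg := algInd_of_dR hp
  have hdet : (matR W L p * (matR W L p).transpose).det ≠ 0 := by
    rw [← hev]
    intro h
    exact hne (halg (by rw [h, map_zero]))
  have hr := (rows_iff hG.sub p).2 hdet
  obtain ⟨u, hu, v, hv, huv⟩ := Finset.one_lt_card.1 (show 1 < W.card by omega)
  refine infRigid_of_rows hG hc hr hu hv ?_
  intro heq
  have hinj := hp.injective
  have h4 : ((⟨u, hu⟩, 0) : ↥W × Fin 2) = (⟨v, hv⟩, 0) := by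
    apply hinj
    change dR (p u 0) = dR (p v 0)
    rw [heq]
  exact huv (congrArg Subtype.val (congrArg Prod.fst h4))

end Pool.Agent.Lib.MP_5d015b_lc.JJ
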