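import Pool.Agent.Lib.MP_5d015b_lc.JJ.Basic
import Pool.Agent.Lib.MP_5d015b_lc.JJ.R2
import Pool.Agent.Lib.MP_5d015b_lc.JJ.R3
import Pool.Agent.Lib.MP_5d015b_lc.JJ.R5

/-!
# Generic global rigidity in the plane, module T2: equivalent normalized frameworks are algebraic over the
generic one
-/

set_option autoImplicit false
set_option linter.unusedSectionVars false

namespace Pool.Agent.Lib.MP_5d015b_lc.JJ

variable {V : Type*} [DecidableEq V]

theorem rhoM_mem_spanW {W : Finset V} {p q : V → Fin 2 → ℝ} {e : Finset V} (he : e ⊆ W) :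
    rhoM p e (fun w i => dR (q w i)) ∈ spanW W q := by
  unfold rhoM
  refine Submodule.sum_mem _ fun u hu => Submodule.sum_mem _ fun v hv => ?_
  unfold ef
  have h := fun (w : V) (hw : w ∈ e) (i : Fin 2) => mem_spanW (p := q) (he hw) i
  exact Submodule.add_mem _ (Submodule.smul_mem _ _ (Submodule.sub_mem _ (h u hu 0) (h v hv 0)))
    (Submodule.smul_mem _ _ (Submodule.sub_mem _ (h u hu 1) (h v hv 1)))

theorem alg_mem {W : Finset V} {L : Finset (Finset V)} (hG : IsGraph W L) (hS : Sparse L)
    (hc : L.card + 3 = 2 * W.card) (h2 : 2 ≤ W.card) {p q : V → Fin 2 → ℝ} (hp : Gen W p)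
    (hpq : SameLen L p q) {u w : V} (hu : u ∈ W) (hw : w ∈ W) (huw : u ≠ w) (h0 : q u 0 = 0)
    (h1 : q u 1 = 0) (h3 : q w 1 = 0) : ∀ y ∈ W, ∀ i, dR (q y i) ∈ spanW W p := by
  classical
  have hri : LinearIndepOn ℝ (rho p) (L : Set (Finset V)) := rows_of_infRigid hG hc (infRigid_gen hG hS hc h2 hp)
  have hind : LinearIndependent ℝ (fun e : ↥L => rhoM p (e : Finset V) (fun w i => dR (p w i))) :=
    rowsM hG.sub hri hp
  -- they lie in the span for `q`
  have hmemq : ∀ e : ↥L, rhoM p (e : Finset V) (fun w i => dR (p w i)) ∈ spanW W q := by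
    intro e
    obtain ⟨a, b, hab, he⟩ := Finset.card_eq_two.1 (hG.card_two e e.2)
    have heq : rho p (e : Finset V) p = rho q (e : Finset V) q := by
      rw [he, rho_self_pair p hab, rho_self_pair q hab, hpq a b (by rw [← he]; exact e.2)]
    have h4 := congrArg dR heq
    rw [dR_rho, dR_rho] at h4
    have h5 := smul_right_injective Om (two_ne_zero (α := ℝ)) h4
    rw [h5]
    exact rhoM_mem_spanW (hG.sub e e.2)
  have hmemp : ∀ e : ↥L, rhoM p (e : Finset V) (fun w i => dR (p w i)) ∈ spanW W p :=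
    fun e => rhoM_mem_spanW (hG.sub e e.2)
  -- dimension of the span for `q`
  let I : Finset (↥W × Fin 2) :=
    ((Finset.univ.erase (⟨u, hu⟩, 0)).erase (⟨u, hu⟩, 1)).erase (⟨w, hw⟩, 1)
  have hIc : I.card + 3 = 2 * W.card := by
    have e1 : ((⟨u, hu⟩, 0) : ↥W × Fin 2) ∈ (Finset.univ : Finset (↥W × Fin 2)) := Finset.mem_univ _
    have e2 : ((⟨u, hu⟩, 1) : ↥W × Fin 2) ∈ Finset.univ.erase ((⟨u, hu⟩, 0) : ↥W × Fin 2) := by
      simp
    have e3 : ((⟨w, hw⟩, 1) : ↥W × Fin 2) ∈
        (Finset.univ.erase ((⟨u, hu⟩, 0) : ↥W × Fin 2)).erase (⟨u, hu⟩, 1) := by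
      simp [Ne.symm huw]
    rw [Finset.card_erase_of_mem e3, Finset.card_erase_of_mem e2, Finset.card_erase_of_mem e1,
      Finset.card_univ, Fintype.card_prod, Fintype.card_coe, Fintype.card_fin]
    omega
  have hspan : spanW W q = Submodule.span ℝ ((I.image fun x : ↥W × Fin 2 => dR (q x.1 x.2) : Finset Om) : Set Om) := by
    apply le_antisymm
    · unfold spanW
      rw [Submodule.span_le]
      rintro _ ⟨x, rfl⟩
      by_cases hx : x ∈ I
      · apply Submodule.subset_span
        rw [Finset.mem_coe, Finset.mem_image]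
        exact ⟨x, hx, rfl⟩
      · have hz : q x.1 x.2 = 0 := by
          simp only [I, Finset.mem_erase, Finset.mem_univ, and_true, not_and_or, not_not] at hx
          rcases hx with hx | hx | hx
          · rw [hx]; exact h3
          · rw [hx]; exact h1
          · rw [hx]; exact h0
        show dR (q x.1 x.2) ∈ _
        rw [hz, dR_zero]
        exact Submodule.zero_mem _
    · rw [Submodule.span_le]
      intro y hy
      rw [Finset.mem_coe, Finset.mem_image] at hy
      obtain ⟨x, _, rfl⟩ := hy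
      exact Submodule.subset_span ⟨x, rfl⟩
  have hfr : Module.finrank ℝ (spanW W q) ≤ L.card := by
    rw [hspan]
    refine (finrank_span_finset_le_card _).trans (Finset.card_image_le.trans ?_)
    omega
  have hfin : Module.Finite ℝ (spanW W q) := by
    rw [hspan]
    exact Module.Finite.span_finset ℝ _
  have hspanL : Module.finrank ℝ (Submodule.span ℝ
      (Set.range fun e : ↥L => rhoM p (e : Finset V) (fun w i => dR (p w i)))) = L.card := by
    rw [finrank_span_eq_card hind, Fintype.card_coe]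
  have hle : Submodule.span ℝ
      (Set.range fun e : ↥L => rhoM p (e : Finset V) (fun w i => dR (p w i))) ≤ spanW W q := by
    rw [Submodule.span_le]
    rintro _ ⟨e, rfl⟩
    exact hmemq e
  have heq := Submodule.eq_of_le_of_finrank_le hle (by rw [hspanL]; exact hfr)
  intro y hy i
  have h4 : dR (q y i) ∈ spanW W q := mem_spanW hy i
  rw [← heq] at h4
  have h5 : Submodule.span ℝ
      (Set.range fun e : ↥L => rhoM p (e : Finset V) (fun w i => dR (p w i))) ≤ spanW W p := by
    rw [Submodule.span_le]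
    rintro _ ⟨e, rfl⟩
    exact hmemp e
  exact h5 h4

end Pool.Agent.Lib.MP_5d015b_lc.JJ
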