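import Pool.Agent.Lib.MP_5d015b_lc.JJ.Basic

/-!
# Quadratic polynomials in two independent numbers
-/

set_option autoImplicit false
set_option linter.unusedSectionVars false

namespace Pool.Agent.Lib.MP_5d015b_lc.JJ

theorem lin_zero {S : Submodule ℝ Om} {s t : ℝ}
    (hst : ∀ α β : ℝ, α • dR s + β • dR t ∈ S → α = 0 ∧ β = 0) {a b c : ℝ}
    (ha : dR a ∈ S) (hb : dR b ∈ S) (hc : dR c ∈ S) (h : a * s + b * t + c = 0) :
    a = 0 ∧ b = 0 ∧ c = 0 := by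
  have h1 : dR (a * s + b * t + c) = 0 := by rw [h, dR_zero]
  rw [dR_add, dR_add, dR_mul, dR_mul] at h1
  have h2 : a • dR s + b • dR t ∈ S := by
    have h3 : a • dR s + b • dR t = -(s • dR a + t • dR b + dR c) := by
      rw [← sub_eq_zero, ← h1]
      module
    rw [h3]
    exact S.neg_mem (S.add_mem (S.add_mem (S.smul_mem _ ha) (S.smul_mem _ hb)) hc)
  obtain ⟨h3, h4⟩ := hst a b h2
  refine ⟨h3, h4, ?_⟩
  rw [h3, h4] at h
  linarith

theorem quad_zero {S : Submodule ℝ Om} {s t : ℝ}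
    (hst : ∀ α β : ℝ, α • dR s + β • dR t ∈ S → α = 0 ∧ β = 0) {c : Fin 6 → ℝ}
    (hc : ∀ i, dR (c i) ∈ S)
    (h : c 0 * s ^ 2 + c 1 * (s * t) + c 2 * t ^ 2 + c 3 * s + c 4 * t + c 5 = 0) :
    ∀ i, c i = 0 := by
  have h1 : dR (c 0 * s ^ 2 + c 1 * (s * t) + c 2 * t ^ 2 + c 3 * s + c 4 * t + c 5) = 0 := by
    rw [h, dR_zero]
  simp only [dR_add, dR_mul, dR_sq] at h1
  have h2 : (2 * c 0 * s + c 1 * t + c 3) • dR s + (c 1 * s + 2 * c 2 * t + c 4) • dR t ∈ S := by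
    have h3 : (2 * c 0 * s + c 1 * t + c 3) • dR s + (c 1 * s + 2 * c 2 * t + c 4) • dR t =
        -(s ^ 2 • dR (c 0) + (s * t) • dR (c 1) + t ^ 2 • dR (c 2) + s • dR (c 3) +
          t • dR (c 4) + dR (c 5)) := by
      rw [← sub_eq_zero, ← h1]
      module
    rw [h3]
    exact S.neg_mem (S.add_mem (S.add_mem (S.add_mem (S.add_mem (S.add_mem
      (S.smul_mem _ (hc 0)) (S.smul_mem _ (hc 1))) (S.smul_mem _ (hc 2)))
      (S.smul_mem _ (hc 3))) (S.smul_mem _ (hc 4))) (hc 5))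
  obtain ⟨h3, h4⟩ := hst _ _ h2
  have a1 := lin_zero hst (mem_mul mem_two (hc 0)) (hc 1) (hc 3) h3
  have a2 := lin_zero hst (hc 1) (mem_mul mem_two (hc 2)) (hc 4) h4
  have e0 : c 0 = 0 := by linarith [a1.1]
  have e2 : c 2 = 0 := by linarith [a2.2.1]
  have e1 := a1.2.1
  have e3 := a1.2.2
  have e4 := a2.2.2
  have e5 : c 5 = 0 := by
    rw [e0, e1, e2, e3, e4] at h
    linarith
  intro i
  fin_cases i
  · exact e0
  · exact e1
  · exact e2
  · exact e3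
  · exact e4
  · exact e5

end Pool.Agent.Lib.MP_5d015b_lc.JJ
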