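import Pool.Agent.Lib.MP_5d015b_lc.JJ.R1
import Pool.Agent.Lib.MP_5d015b_lc.JJ.T3

/-!
# The generic vertex determines the distances of its neighbours
-/

set_option autoImplicit false
set_option linter.unusedSectionVars false

namespace Pool.Agent.Lib.MP_5d015b_lc.JJ

/-- the algebraic part -/
theorem gram_aux {S : Submodule ℝ Om} {s t D A B C A' B' C' : ℝ}
    (hst : ∀ α β : ℝ, α • dR s + β • dR t ∈ S → α = 0 ∧ β = 0)
    (hA : dR A ∈ S) (hB : dR B ∈ S) (hC : dR C ∈ S) (hA' : dR A' ∈ S) (hB' : dR B' ∈ S)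
    (hC' : dR C' ∈ S) (hg : A * B - C ^ 2 ≠ 0)
    (h1 : 4 * (A * B - C ^ 2) * D = B * (s + A) ^ 2 - 2 * C * ((s + A) * (t + B)) + A * (t + B) ^ 2)
    (h2 : 4 * (A' * B' - C' ^ 2) * D =
      B' * (s + A') ^ 2 - 2 * C' * ((s + A') * (t + B')) + A' * (t + B') ^ 2)
    (hA0 : A' = 0 → s = 0) : A = A' := by
  have hgS : dR (A * B - C ^ 2) ∈ S := mem_sub (mem_mul hA hB) (mem_sq hC)
  have hgS' : dR (A' * B' - C' ^ 2) ∈ S := mem_sub (mem_mul hA' hB') (mem_sq hC')
  set g := A * B - C ^ 2 with hgdef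
  set g' := A' * B' - C' ^ 2 with hgdef'
  have hc : ∀ i : Fin 6, dR ((![g' * B - g * B', (-2) * (g' * C - g * C'), g' * A - g * A',
      g' * (2 * (A * B) - 2 * (C * B)) - g * (2 * (A' * B') - 2 * (C' * B')),
      g' * (2 * (A * B) - 2 * (C * A)) - g * (2 * (A' * B') - 2 * (C' * A')),
      g' * (B * (A * A) - 2 * (C * (A * B)) + A * (B * B)) -
        g * (B' * (A' * A') - 2 * (C' * (A' * B')) + A' * (B' * B'))] : Fin 6 → ℝ) i) ∈ S := by
    have m2 : dR (-2) ∈ S := mem_neg mem_two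
    intro i
    fin_cases i
    · exact mem_sub (mem_mul hgS' hB) (mem_mul hgS hB')
    · exact mem_mul m2 (mem_sub (mem_mul hgS' hC) (mem_mul hgS hC'))
    · exact mem_sub (mem_mul hgS' hA) (mem_mul hgS hA')
    · exact mem_sub (mem_mul hgS' (mem_sub (mem_mul mem_two (mem_mul hA hB))
        (mem_mul mem_two (mem_mul hC hB)))) (mem_mul hgS (mem_sub (mem_mul mem_two
        (mem_mul hA' hB')) (mem_mul mem_two (mem_mul hC' hB'))))
    · exact mem_sub (mem_mul hgS' (mem_sub (mem_mul mem_two (mem_mul hA hB))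
        (mem_mul mem_two (mem_mul hC hA)))) (mem_mul hgS (mem_sub (mem_mul mem_two
        (mem_mul hA' hB')) (mem_mul mem_two (mem_mul hC' hA'))))
    · exact mem_sub (mem_mul hgS' (mem_add (mem_sub (mem_mul hB (mem_mul hA hA))
        (mem_mul mem_two (mem_mul hC (mem_mul hA hB)))) (mem_mul hA (mem_mul hB hB))))
        (mem_mul hgS (mem_add (mem_sub (mem_mul hB' (mem_mul hA' hA'))
        (mem_mul mem_two (mem_mul hC' (mem_mul hA' hB')))) (mem_mul hA' (mem_mul hB' hB'))))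
  have h3 := quad_zero hst hc (by
    change (g' * B - g * B') * s ^ 2 + ((-2) * (g' * C - g * C')) * (s * t) +
      (g' * A - g * A') * t ^ 2 +
      (g' * (2 * (A * B) - 2 * (C * B)) - g * (2 * (A' * B') - 2 * (C' * B'))) * s +
      (g' * (2 * (A * B) - 2 * (C * A)) - g * (2 * (A' * B') - 2 * (C' * A'))) * t +
      (g' * (B * (A * A) - 2 * (C * (A * B)) + A * (B * B)) -
        g * (B' * (A' * A') - 2 * (C' * (A' * B')) + A' * (B' * B'))) = 0
    have e1 : g' * (4 * g * D) = g * (4 * g' * D) := by ring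
    rw [h1, h2] at e1
    linear_combination e1)
  have e0 : g' * B - g * B' = 0 := h3 0
  have e1 : (-2) * (g' * C - g * C') = 0 := h3 1
  have e2 : g' * A - g * A' = 0 := h3 2
  have e1' : g' * C = g * C' := by linarith
  have e0' : g' * B = g * B' := by linarith
  have e2' : g' * A = g * A' := by linarith
  have h4 : g * (g' * (g - g')) = 0 := by
    have h5 : g ^ 2 * g' = g' ^ 2 * g := by
      calc g ^ 2 * g' = (g * A') * (g * B') - (g * C') ^ 2 := by rw [hgdef']; ring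
        _ = (g' * A) * (g' * B) - (g' * C) ^ 2 := by rw [← e0', ← e1', ← e2']
        _ = g' ^ 2 * g := by rw [hgdef]; ring
    linear_combination h5
  rcases mul_eq_zero.1 ((mul_eq_zero.1 h4).resolve_left hg) with h5 | h5
  · exfalso
    rw [h5, zero_mul] at e2'
    have h6 : A' = 0 := (mul_eq_zero.1 e2'.symm).resolve_left hg
    have h7 := hst 1 0 (by
      rw [hA0 h6, dR_zero, smul_zero, zero_smul, add_zero]
      exact S.zero_mem)
    exact one_ne_zero h7.1
  · have h6 : g = g' := by linarith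
    rw [← h6] at e2'
    exact mul_left_cancel₀ hg e2'

variable {V : Type*} [DecidableEq V]

theorem gram {W : Finset V} {v : V} {p q : V → Fin 2 → ℝ} (hp : Gen W p) (hv : v ∈ W)
    (hq : ∀ y ∈ W.erase v, ∀ i, dR (q y i) ∈ spanW (W.erase v) p) {x y z : V}
    (hx : x ∈ W.erase v) (hy : y ∈ W.erase v) (hz : z ∈ W.erase v) (hxy : x ≠ y) (hyz : y ≠ z)
    (hxz : x ≠ z) (h1 : sqd p v x = sqd q v x) (h2 : sqd p v y = sqd q v y)
    (h3 : sqd p v z = sqd q v z) : sqd p x y = sqd q x y := by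
  have hd := gen_det3 hp (Finset.mem_of_mem_erase hx) (Finset.mem_of_mem_erase hy)
    (Finset.mem_of_mem_erase hz) hxy hyz hxz
  unfold det3 at hd
  set S := spanW (W.erase v) p with hS
  have px := fun i => mem_spanW (p := p) hx i
  have py := fun i => mem_spanW (p := p) hy i
  have pz := fun i => mem_spanW (p := p) hz i
  rw [← hS] at px py pz
  have qx := hq x hx
  have qy := hq y hy
  have qz := hq z hz
  have hst : ∀ α β : ℝ, α • dR (sqd p v x - sqd p v y) + β • dR (sqd p v x - sqd p v z) ∈ S →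
      α = 0 ∧ β = 0 := by
    intro α β h
    have h4 : (2 * (α * (p y 0 - p x 0) + β * (p z 0 - p x 0))) • dR (p v 0) +
        (2 * (α * (p y 1 - p x 1) + β * (p z 1 - p x 1))) • dR (p v 1) ∈ S := by
      have h5 : (2 * (α * (p y 0 - p x 0) + β * (p z 0 - p x 0))) • dR (p v 0) +
          (2 * (α * (p y 1 - p x 1) + β * (p z 1 - p x 1))) • dR (p v 1) =
          (α • dR (sqd p v x - sqd p v y) + β • dR (sqd p v x - sqd p v z)) +
          ((2 * α + 2 * β) • ((p v 0 - p x 0) • dR (p x 0) + (p v 1 - p x 1) • dR (p x 1)) -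
          (2 * α) • ((p v 0 - p y 0) • dR (p y 0) + (p v 1 - p y 1) • dR (p y 1)) -
          (2 * β) • ((p v 0 - p z 0) • dR (p z 0) + (p v 1 - p z 1) • dR (p z 1))) := by
        rw [dR_sub, dR_sub, dR_sqd, dR_sqd, dR_sqd]
        unfold ef
        module
      rw [h5]
      refine S.add_mem h (S.sub_mem (S.sub_mem ?_ ?_) ?_)
      · exact S.smul_mem _ (S.add_mem (S.smul_mem _ (px 0)) (S.smul_mem _ (px 1)))
      · exact S.smul_mem _ (S.add_mem (S.smul_mem _ (py 0)) (S.smul_mem _ (py 1)))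
      · exact S.smul_mem _ (S.add_mem (S.smul_mem _ (pz 0)) (S.smul_mem _ (pz 1)))
    obtain ⟨e0, e1⟩ := gen_indep_mod hp hv h4
    have ha : α * ((p y 0 - p x 0) * (p z 1 - p x 1) - (p y 1 - p x 1) * (p z 0 - p x 0)) = 0 := by
      linear_combination ((p z 1 - p x 1) / 2) * e0 - ((p z 0 - p x 0) / 2) * e1
    have hb : β * ((p y 0 - p x 0) * (p z 1 - p x 1) - (p y 1 - p x 1) * (p z 0 - p x 0)) = 0 := by
      linear_combination ((p y 0 - p x 0) / 2) * e1 - ((p y 1 - p x 1) / 2) * e0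
    exact ⟨(mul_eq_zero.1 ha).resolve_right hd, (mul_eq_zero.1 hb).resolve_right hd⟩
  have h4 := gram_aux (S := S) (s := sqd p v x - sqd p v y) (t := sqd p v x - sqd p v z)
    (D := sqd p v x)
    (A := (p y 0 - p x 0) ^ 2 + (p y 1 - p x 1) ^ 2)
    (B := (p z 0 - p x 0) ^ 2 + (p z 1 - p x 1) ^ 2)
    (C := (p y 0 - p x 0) * (p z 0 - p x 0) + (p y 1 - p x 1) * (p z 1 - p x 1))
    (A' := (q y 0 - q x 0) ^ 2 + (q y 1 - q x 1) ^ 2)
    (B' := (q z 0 - q x 0) ^ 2 + (q z 1 - q x 1) ^ 2)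
    (C' := (q y 0 - q x 0) * (q z 0 - q x 0) + (q y 1 - q x 1) * (q z 1 - q x 1)) hst
    (mem_add (mem_sq (mem_sub (py 0) (px 0))) (mem_sq (mem_sub (py 1) (px 1))))
    (mem_add (mem_sq (mem_sub (pz 0) (px 0))) (mem_sq (mem_sub (pz 1) (px 1))))
    (mem_add (mem_mul (mem_sub (py 0) (px 0)) (mem_sub (pz 0) (px 0)))
      (mem_mul (mem_sub (py 1) (px 1)) (mem_sub (pz 1) (px 1))))
    (mem_add (mem_sq (mem_sub (qy 0) (qx 0))) (mem_sq (mem_sub (qy 1) (qx 1))))
    (mem_add (mem_sq (mem_sub (qz 0) (qx 0))) (mem_sq (mem_sub (qz 1) (qx 1))))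
    (mem_add (mem_mul (mem_sub (qy 0) (qx 0)) (mem_sub (qz 0) (qx 0)))
      (mem_mul (mem_sub (qy 1) (qx 1)) (mem_sub (qz 1) (qx 1))))
    (by
      have h5 : ((p y 0 - p x 0) ^ 2 + (p y 1 - p x 1) ^ 2) *
          ((p z 0 - p x 0) ^ 2 + (p z 1 - p x 1) ^ 2) -
          ((p y 0 - p x 0) * (p z 0 - p x 0) + (p y 1 - p x 1) * (p z 1 - p x 1)) ^ 2 =
          ((p y 0 - p x 0) * (p z 1 - p x 1) - (p y 1 - p x 1) * (p z 0 - p x 0)) ^ 2 := by ring
      rw [h5]
      exact pow_ne_zero 2 hd)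
    (by unfold sqd; ring)
    (by
      rw [h1, h2, h3]
      unfold sqd
      ring)
    (by
      intro h5
      have h6 : q y 0 - q x 0 = 0 := by nlinarith [sq_nonneg (q y 0 - q x 0), sq_nonneg (q y 1 - q x 1)]
      have h7 : q y 1 - q x 1 = 0 := by nlinarith [sq_nonneg (q y 0 - q x 0), sq_nonneg (q y 1 - q x 1)]
      rw [h1, h2]
      unfold sqd
      have h8 : q y 0 = q x 0 := by linarith
      have h9 : q y 1 = q x 1 := by linarith
      rw [h8, h9]
      ring)
  unfold sqd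
  linear_combination h4

end Pool.Agent.Lib.MP_5d015b_lc.JJ
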