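import Pool.Agent.Lib.MP_5d015b_lc.JJ.Basic

/-!
# Distances to a further point
-/

set_option autoImplicit false
set_option linter.unusedSectionVars false

namespace Pool.Agent.Lib.MP_5d015b_lc.JJ

theorem ext_aux {a0 a1 b0 b1 c0 c1 d0 d1 a0' a1' b0' b1' c0' c1' d0' d1' : ℝ}
    (haa : a0 ^ 2 + a1 ^ 2 = a0' ^ 2 + a1' ^ 2) (hbb : b0 ^ 2 + b1 ^ 2 = b0' ^ 2 + b1' ^ 2)
    (hab : a0 * b0 + a1 * b1 = a0' * b0' + a1' * b1')
    (hca : c0 * a0 + c1 * a1 = c0' * a0' + c1' * a1')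
    (hcb : c0 * b0 + c1 * b1 = c0' * b0' + c1' * b1')
    (hda : d0 * a0 + d1 * a1 = d0' * a0' + d1' * a1')
    (hdb : d0 * b0 + d1 * b1 = d0' * b0' + d1' * b1')
    (hD : a0 * b1 - a1 * b0 ≠ 0) : d0 * c0 + d1 * c1 = d0' * c0' + d1' * c1' := by
  have key : ∀ a0 a1 b0 b1 c0 c1 d0 d1 : ℝ,
      ((a0 ^ 2 + a1 ^ 2) * (b0 ^ 2 + b1 ^ 2) - (a0 * b0 + a1 * b1) ^ 2) * (d0 * c0 + d1 * c1) =
      ((c0 * a0 + c1 * a1) * (b0 ^ 2 + b1 ^ 2) - (c0 * b0 + c1 * b1) * (a0 * b0 + a1 * b1)) *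
        (d0 * a0 + d1 * a1) +
      ((c0 * b0 + c1 * b1) * (a0 ^ 2 + a1 ^ 2) - (c0 * a0 + c1 * a1) * (a0 * b0 + a1 * b1)) *
        (d0 * b0 + d1 * b1) := by
    intro a0 a1 b0 b1 c0 c1 d0 d1
    ring
  have h1 := key a0 a1 b0 b1 c0 c1 d0 d1
  have h2 := key a0' a1' b0' b1' c0' c1' d0' d1'
  rw [← haa, ← hbb, ← hab, ← hca, ← hcb, ← hda, ← hdb, ← h1] at h2
  have h3 : (a0 ^ 2 + a1 ^ 2) * (b0 ^ 2 + b1 ^ 2) - (a0 * b0 + a1 * b1) ^ 2 =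
      (a0 * b1 - a1 * b0) ^ 2 := by ring
  have h4 : (a0 ^ 2 + a1 ^ 2) * (b0 ^ 2 + b1 ^ 2) - (a0 * b0 + a1 * b1) ^ 2 ≠ 0 := by
    rw [h3]
    exact pow_ne_zero 2 hD
  exact (mul_left_cancel₀ h4 h2).symm

variable {V : Type*} [DecidableEq V]

theorem ext_vertex {p q : V → Fin 2 → ℝ} {W : Finset V} {v x y z : V} (hd : det3 p x y z ≠ 0)
    (hW : ∀ a ∈ W, ∀ b ∈ W, sqd p a b = sqd q a b) (hx : x ∈ W) (hy : y ∈ W) (hz : z ∈ W)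
    (h1 : sqd p v x = sqd q v x) (h2 : sqd p v y = sqd q v y) (h3 : sqd p v z = sqd q v z) :
    ∀ w ∈ W, sqd p v w = sqd q v w := by
  intro w hw
  have exy := hW x hx y hy
  have exz := hW x hx z hz
  have exw := hW x hx w hw
  have eyz := hW y hy z hz
  have eyw := hW y hy w hw
  have ezw := hW z hz w hw
  unfold det3 at hd
  unfold sqd at *
  have hm := ext_aux (a0 := p y 0 - p x 0) (a1 := p y 1 - p x 1) (b0 := p z 0 - p x 0)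
    (b1 := p z 1 - p x 1) (c0 := p w 0 - p x 0) (c1 := p w 1 - p x 1) (d0 := p v 0 - p x 0)
    (d1 := p v 1 - p x 1) (a0' := q y 0 - q x 0) (a1' := q y 1 - q x 1) (b0' := q z 0 - q x 0)
    (b1' := q z 1 - q x 1) (c0' := q w 0 - q x 0) (c1' := q w 1 - q x 1)
    (d0' := q v 0 - q x 0) (d1' := q v 1 - q x 1) (by linarith) (by linarith) (by linarith)
    (by linarith) (by linarith) (by linarith) (by linarith) hd
  linarith

end Pool.Agent.Lib.MP_5d015b_lc.JJ
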