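import Pool.Agent.Lib.MP_5d015b_lc.JJ.C11
import Pool.Agent.Lib.MP_5d015b_lc.JJ.T2
import Pool.Agent.Lib.MP_5d015b_lc.JJ.T1
import Pool.Agent.Lib.MP_5d015b_lc.JJ.T4
import Pool.Agent.Lib.MP_5d015b_lc.JJ.T5
import Pool.Agent.Lib.MP_5d015b_lc.JJ.R1

/-!
# Generic global rigidity in the plane, module T6: the lemma of Tanigawa
-/

set_option autoImplicit false
set_option linter.unusedSectionVars false

namespace Pool.Agent.Lib.MP_5d015b_lc.JJ

variable {V : Type*} [DecidableEq V]

theorem tanigawa {W : Finset V} {E : Finset (Finset V)} {v : V} {N : Finset V}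
    (hG : IsGraph W E) (hv : v ∈ W) (hN : N ⊆ W.erase v) (h3 : 3 ≤ N.card)
    (hNE : ∀ x ∈ N, ({v, x} : Finset V) ∈ E) (hR : Rigid (W.erase v) (delV E v))
    (hGR : GRon (W.erase v) (delV E v ∪ clique N)) : GRon W E := by
  intro p q hp hpq
  obtain ⟨L, hLE, hLS, hLc⟩ := hR
  have hGL : IsGraph (W.erase v) L :=
    ⟨fun e he => (isGraph_delV11 v hG).card_two e (hLE he),
      fun e he => (isGraph_delV11 v hG).sub e (hLE he)⟩
  have hp' : Gen (W.erase v) p := hp.mono (Finset.erase_subset _ _)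
  obtain ⟨x, hx, y, hy, z, hz, hxy, hxz, hyz⟩ := Finset.two_lt_card.1 (show 2 < N.card by omega)
  have hx' := hN hx
  have hy' := hN hy
  have hz' := hN hz
  have hW2 : 2 ≤ (W.erase v).card := by
    have h1 : ({x, y} : Finset V) ⊆ W.erase v := by
      intro w hw
      rw [Finset.mem_insert, Finset.mem_singleton] at hw
      rcases hw with rfl | rfl
      · exact hx'
      · exact hy'
    have h2 := Finset.card_le_card h1
    rwa [Finset.card_pair hxy] at h2
  obtain ⟨q', hq', h0, h1, h2⟩ := exists_normal q hxy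
  have hpq' : ∀ a b, ({a, b} : Finset V) ∈ E → sqd p a b = sqd q' a b := by
    intro a b hab
    rw [hq', hpq a b hab]
  have halg : ∀ y ∈ W.erase v, ∀ i, dR (q' y i) ∈ spanW (W.erase v) p := by
    refine alg_mem hGL hLS hLc hW2 hp' ?_ hx' hy' hxy h0 h1 h2
    intro a b hab
    exact hpq' a b (mem_delV.1 (hLE hab)).1
  have hstar : ∀ w ∈ N, sqd p v w = sqd q' v w := fun w hw => hpq' v w (hNE w hw)
  have hpair : ∀ a ∈ N, ∀ b ∈ N, a ≠ b → sqd p a b = sqd q' a b := by
    intro a ha b hb hab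
    obtain ⟨c, hc, hca, hcb⟩ : ∃ c ∈ N, c ≠ a ∧ c ≠ b := by
      have h4 : ({a, b} : Finset V).card < N.card := by
        rw [Finset.card_pair hab]; omega
      obtain ⟨c, hc, hc'⟩ := Finset.exists_mem_notMem_of_card_lt_card h4
      rw [Finset.mem_insert, Finset.mem_singleton, not_or] at hc'
      exact ⟨c, hc, hc'.1, hc'.2⟩
    exact gram hp hv halg (hN ha) (hN hb) (hN hc) hab (Ne.symm hcb) (Ne.symm hca) (hstar a ha)
      (hstar b hb) (hstar c hc)
  have hall : ∀ a ∈ W.erase v, ∀ b ∈ W.erase v, sqd p a b = sqd q' a b := by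
    apply hGR p q' hp'
    intro a b hab
    rw [Finset.mem_union] at hab
    rcases hab with hab | hab
    · exact hpq' a b (mem_delV.1 hab).1
    · rw [mem_clique_iff] at hab
      have ha : a ∈ N := hab.1 (Finset.mem_insert_self _ _)
      have hb : b ∈ N := hab.1 (Finset.mem_insert_of_mem (Finset.mem_singleton_self _))
      by_cases hne : a = b
      · rw [hne, sqd_self, sqd_self]
      · exact hpair a ha b hb hne
  have hd : det3 p x y z ≠ 0 := gen_det3 hp' hx' hy' hz' hxy hyz hxz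
  have hvw : ∀ w ∈ W.erase v, sqd p v w = sqd q' v w :=
    ext_vertex hd hall hx' hy' hz' (hstar x hx) (hstar y hy) (hstar z hz)
  intro a ha b hb
  rw [← hq' a b]
  by_cases hav : a = v
  · by_cases hbv : b = v
    · rw [hav, hbv, sqd_self, sqd_self]
    · rw [hav]
      exact hvw b (Finset.mem_erase.2 ⟨hbv, hb⟩)
  · by_cases hbv : b = v
    · rw [hbv, sqd_comm p, sqd_comm q']
      exact hvw a (Finset.mem_erase.2 ⟨hav, ha⟩)
    · exact hall a (Finset.mem_erase.2 ⟨hav, ha⟩) b (Finset.mem_erase.2 ⟨hbv, hb⟩)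

end Pool.Agent.Lib.MP_5d015b_lc.JJ
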