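import Pool.Agent.Lib.MP_5d015b_lc.JJ.C10
import Pool.Agent.Lib.MP_5d015b_lc.JJ.C14
import Pool.Agent.Lib.MP_5d015b_lc.JJ.T6

/-!
# Generic global rigidity in the plane, module C15: sufficiency
-/

set_option autoImplicit false
set_option linter.unusedSectionVars false

namespace Pool.Agent.Lib.MP_5d015b_lc.JJ

variable {V : Type*} [DecidableEq V]

theorem gron_of_complete {W : Finset V} {E : Finset (Finset V)} (h : clique W ⊆ E) : GRon W E := by
  intro p q _ hpq a ha b hb
  by_cases hab : a = b
  · rw [hab, sqd_self, sqd_self]
  · exact hpq a b (h (pair_mem_clique ha hb hab))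

theorem suff_aux (n : ℕ) : ∀ {W : Finset V} {E : Finset (Finset V)}, W.card = n → IsGraph W E →
    GR W E → GRon W E := by
  induction n with
  | zero =>
    intro W E hW hG h
    intro p q _ _ a ha
    rw [Finset.card_eq_zero.1 hW] at ha
    exact absurd ha (Finset.notMem_empty a)
  | succ n ih =>
    intro W E hW hG h
    rcases h with h | ⟨hC, hR⟩
    · exact gron_of_complete h.2
    · by_cases h5 : 5 ≤ W.card
      · obtain ⟨v, hv, hr⟩ := exists_del_rigid hG hC hR
        have hN := nb_sub_erase11 hG v
        have hG' : IsGraph (W.erase v) (delV E v ∪ clique (nb E {v})) :=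
          isGraph_clique (isGraph_delV11 v hG) hN
        refine tanigawa hG hv hN (three_le_nb hG hC hv) ?_ hr ?_
        · intro x hx
          exact ((mem_nb_single11 hG).1 hx).2
        · refine ih ?_ hG' (Or.inr ⟨conn3_del hG hC h5 hv, redRigid_del hG hC hR h5 hv hr⟩)
          rw [Finset.card_erase_of_mem hv]
          omega
      · have h4 : W.card = 4 := by
          have := hC.1
          omega
        apply gron_of_complete
        intro e he
        rw [mem_clique_iff] at he
        obtain ⟨a, b, hab, rfl⟩ := Finset.card_eq_two.1 he.2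
        have ha : a ∈ W := he.1 (Finset.mem_insert_self _ _)
        have hb : b ∈ W := he.1 (Finset.mem_insert_of_mem (Finset.mem_singleton_self _))
        have h1 : nb E {a} = W.erase a := by
          apply Finset.eq_of_subset_of_card_le (nb_sub_erase11 hG a)
          rw [Finset.card_erase_of_mem ha, h4]
          exact three_le_nb hG hC ha
        have h2 : b ∈ nb E {a} := by
          rw [h1, Finset.mem_erase]
          exact ⟨fun h => hab h.symm, hb⟩
        exact ((mem_nb_single11 hG).1 h2).2

theorem suff {W : Finset V} {E : Finset (Finset V)} (hG : IsGraph W E) (h : GR W E) :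
    GRon W E := suff_aux W.card rfl hG h

end Pool.Agent.Lib.MP_5d015b_lc.JJ
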