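import Pool.Agent.Lib.MP_5d015b_lc.JJ.Basic
import Pool.Agent.Lib.MP_5d015b_lc.BDY
import Pool.Agent.Lib.MP_5d015b_lc.TSET

/-!
# Coloops
-/

set_option autoImplicit false
set_option linter.unusedSectionVars false

namespace Pool.Agent.Lib.MP_5d015b_lc.JJ

variable {V : Type*} [DecidableEq V]

theorem tset_sub {W : Finset V} {E B : Finset (Finset V)} (hG : IsGraph W E) (hB : MaxSp E B)
    {e X : Finset V} (he : e ∈ E) (heB : e ∉ B) (hX : Tight B X) (heX : e ⊆ X) :
    tset B e ⊆ X := by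
  classical
  intro v hv
  unfold tset at hv
  rw [Finset.mem_biUnion] at hv
  obtain ⟨f, hf, hvf⟩ := hv
  rw [Finset.mem_filter] at hf
  obtain ⟨hfB, hS⟩ := hf
  have hfX : f ⊆ X := by
    by_contra hfX
    have h1 := hS.2 X hX.1
    have h2 : insert e (ins B X) ⊆ ins (insert e (B.erase f)) X := by
      intro g hg
      rw [mem_ins]
      rcases Finset.mem_insert.1 hg with rfl | hg
      · exact ⟨Finset.mem_insert_self _ _, heX⟩
      · rw [mem_ins] at hg
        refine ⟨Finset.mem_insert_of_mem (Finset.mem_erase.2 ⟨?_, hg.1⟩), hg.2⟩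
        rintro rfl
        exact hfX hg.2
    have h3 := Finset.card_le_card h2
    rw [Finset.card_insert_of_notMem (fun h => heB (mem_ins.1 h).1)] at h3
    have h4 := hX.2
    omega
  exact hfX hvf

theorem coloop_max {W : Finset V} {E B : Finset (Finset V)} (hG : IsGraph W E) (hB : MaxSp E B)
    {f : Finset V} (hf : f ∈ B) (h : ∀ e ∈ E, e ∉ B → ¬ f ⊆ tset B e) :
    MaxSp (E.erase f) (B.erase f) := by
  refine ⟨Finset.erase_subset_erase f hB.1, hB.2.1.mono (Finset.erase_subset _ _), ?_⟩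
  intro e he heB hS
  obtain ⟨hef, heE⟩ := Finset.mem_erase.1 he
  have heB' : e ∉ B := fun h' => heB (Finset.mem_erase.2 ⟨hef, h'⟩)
  obtain ⟨T, _, _, h3, h4⟩ := tset_aux hG hB heE heB'
  exact h e heE heB' (h3 ▸ (h4 f hf).1 hS)

theorem body_coloop {W : Finset V} {E B XX : Finset (Finset V)} (hG : IsGraph W E)
    (hB : MaxSp E B) (hX : Bodies E B XX) {f : Finset V} (hf : f ∈ XX) (hf2 : f.card = 2) :
    f ∈ B ∧ MaxSp (E.erase f) (B.erase f) := by
  have hfB : f ∈ B := by
    obtain ⟨g, hgB, hgf⟩ := bdy_tight_edge (hX.tight f hf)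
    have hg2 := hB.2.1.1 g hgB
    have : g = f := Finset.eq_of_subset_of_card_le hgf (by omega)
    exact this ▸ hgB
  refine ⟨hfB, coloop_max hG hB hfB ?_⟩
  intro e he heB hfT
  obtain ⟨X, hXX, heX⟩ := hX.cover e he
  have h1 := hfT.trans (tset_sub hG hB he heB (hX.tight X hXX) heX)
  have h2 : X = f := by
    by_contra hne
    have h3 := hX.inter X hXX f hf hne
    rw [Finset.inter_eq_right.2 h1] at h3
    omega
  have h4 : e = f := by
    refine Finset.eq_of_subset_of_card_le (h2 ▸ heX) ?_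
    have := hG.card_two e he
    omega
  exact heB (h4 ▸ hfB)

end Pool.Agent.Lib.MP_5d015b_lc.JJ
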