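import Pool.Agent.Lib.MP_5d015b_lc.JJ.C3

/-!
# Simple facts on the situation `D3`
-/

set_option autoImplicit false
set_option linter.unusedSectionVars false

namespace Pool.Agent.Lib.MP_5d015b_lc.JJ

variable {V : Type*} [DecidableEq V]

theorem D3.isGraph {W : Finset V} {E : Finset (Finset V)} {v a b c : V} {B XX : Finset (Finset V)}
    {X Y : Finset V} (h : D3 W E v a b c B XX X Y) : IsGraph (W.erase v) (redE E v a b) :=
  isGraph_mono_edges (isGraph_delV_clique h.hG) (Finset.erase_subset _ _)

theorem D3.delV_erase_sub {W : Finset V} {E : Finset (Finset V)} {v a b c : V}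
    {B XX : Finset (Finset V)} {X Y : Finset V} (_h : D3 W E v a b c B XX X Y)
    {D : Finset (Finset V)} (hD : D ⊆ delV E v) : D.erase {a, b} ⊆ redE E v a b := by
  intro e he
  rw [Finset.mem_erase] at he
  unfold redE
  rw [Finset.mem_erase, Finset.mem_union]
  exact ⟨he.1, Or.inl (hD he.2)⟩

theorem D3.card {W : Finset V} {E : Finset (Finset V)} {v a b c : V} {B XX : Finset (Finset V)}
    {X Y : Finset V} (h : D3 W E v a b c B XX X Y) : B.card + 4 = 2 * (W.erase v).card := by
  have hw := Finset.card_erase_of_mem h.hv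
  have h5 := h.h5
  have h1 : ins B (W.erase v) = B := by
    ext e
    rw [mem_ins]
    exact ⟨fun h => h.1, fun he => ⟨he, h.isGraph.sub e (h.hB.1 he)⟩⟩
  have h2 := h.hB.2.1.2 (W.erase v) (by omega)
  rw [h1] at h2
  have h3 : B.card + 3 ≠ 2 * (W.erase v).card := by
    intro h3
    exact h.hn ((rigid_iff h.isGraph h.hB).2 h3)
  obtain ⟨D, hD, hDs, hDc⟩ := h.hr
  have h4 := maxSp_card_le h.isGraph h.hB (h.delV_erase_sub hD) (hDs.mono (Finset.erase_subset _ _))
  have h6 := Finset.pred_card_le_card_erase (s := D) (a := ({a, b} : Finset V))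
  omega

theorem D3.ne {W : Finset V} {E : Finset (Finset V)} {v a b c : V} {B XX : Finset (Finset V)}
    {X Y : Finset V} (h : D3 W E v a b c B XX X Y) : X ≠ Y ∧ b ∉ X ∧ a ∉ Y := by
  have hXY : X ≠ Y := by
    intro hXY
    have hbX : b ∈ X := by rw [hXY]; exact h.hbY
    have habX : ({a, b} : Finset V) ⊆ X := by
      intro x hx
      rw [Finset.mem_insert, Finset.mem_singleton] at hx
      rcases hx with rfl | rfl
      · exact h.haX
      · exact hbX
    have habB : ({a, b} : Finset V) ∉ B := fun hh => (Finset.mem_erase.1 (h.hB.1 hh)).1 rfl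
    have hM : MaxSp (insert {a, b} (redE E v a b)) B := by
      refine ⟨h.hB.1.trans (Finset.subset_insert _ _), h.hB.2.1, ?_⟩
      intro e he heB hsp
      rw [Finset.mem_insert] at he
      rcases he with rfl | he
      · obtain ⟨h1, h2⟩ := h.hX.tight X h.hX1
        have h3 := hsp.2 X h1
        have h4 : insert ({a, b} : Finset V) (ins B X) ⊆ ins (insert {a, b} B) X := by
          intro e he
          rw [Finset.mem_insert, mem_ins] at he
          rw [mem_ins, Finset.mem_insert]
          rcases he with rfl | he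
          · exact ⟨Or.inl rfl, habX⟩
          · exact ⟨Or.inr he.1, he.2⟩
        have h5 := Finset.card_le_card h4
        rw [Finset.card_insert_of_notMem (fun hh => habB (mem_ins.1 hh).1)] at h5
        omega
      · exact h.hB.2.2 e he heB hsp
    have hG' : IsGraph (W.erase v) (insert {a, b} (redE E v a b)) := by
      have hd : ({a, b} : Finset V) ∈ clique (nb E {v}) := by
        rw [h.hN]
        exact pair_mem_clique (by simp) (by simp) h.hab
      refine isGraph_mono_edges (isGraph_delV_clique h.hG) ?_
      intro e he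
      rw [Finset.mem_insert] at he
      rcases he with rfl | he
      · exact Finset.mem_union.2 (Or.inr hd)
      · exact Finset.mem_of_mem_erase he
    obtain ⟨D, hD, hDs, hDc⟩ := h.hr
    have h4 : D ⊆ insert {a, b} (redE E v a b) := by
      intro e he
      rw [Finset.mem_insert]
      by_cases hab : e = {a, b}
      · exact Or.inl hab
      · exact Or.inr (h.delV_erase_sub hD (Finset.mem_erase.2 ⟨hab, he⟩))
    have h5 := maxSp_card_le hG' hM h4 hDs
    have h6 := h.card
    omega
  refine ⟨hXY, ?_, ?_⟩
  · intro hb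
    have h1 := h.hX.inter X h.hX1 Y h.hY1 hXY
    have h2 : ({b, c} : Finset V) ⊆ X ∩ Y := by
      intro x hx
      rw [Finset.mem_insert, Finset.mem_singleton] at hx
      rw [Finset.mem_inter]
      rcases hx with rfl | rfl
      · exact ⟨hb, h.hbY⟩
      · exact ⟨h.hcX, h.hcY⟩
    have h3 := Finset.card_le_card h2
    rw [Finset.card_pair h.hbc] at h3
    omega
  · intro ha
    have h1 := h.hX.inter X h.hX1 Y h.hY1 hXY
    have h2 : ({a, c} : Finset V) ⊆ X ∩ Y := by
      intro x hx
      rw [Finset.mem_insert, Finset.mem_singleton] at hx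
      rw [Finset.mem_inter]
      rcases hx with rfl | rfl
      · exact ⟨h.haX, ha⟩
      · exact ⟨h.hcX, h.hcY⟩
    have h3 := Finset.card_le_card h2
    rw [Finset.card_pair h.hac] at h3
    omega

end Pool.Agent.Lib.MP_5d015b_lc.JJ
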