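import Pool.Agent.Lib.MP_5d015b_lc.JJ.C2
import Pool.Agent.Lib.MP_5d015b_lc.JJ.C3
import Pool.Agent.Lib.MP_5d015b_lc.JJ.C4
import Pool.Agent.Lib.MP_5d015b_lc.JJ.C6

/-!
# Module C7: the other bodies have at least three vertices
-/

set_option autoImplicit false
set_option linter.unusedSectionVars false

namespace Pool.Agent.Lib.MP_5d015b_lc.JJ

variable {V : Type*} [DecidableEq V]

theorem c7_isGraph {W : Finset V} {E : Finset (Finset V)} (hG : IsGraph W E) (v : V) :
    IsGraph (W.erase v) (delV E v ∪ clique (nb E {v})) := by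
  have hnb := nb_sub hG {v}
  constructor
  · intro e he
    rw [Finset.mem_union] at he
    rcases he with he | he
    · exact hG.card_two e (mem_delV.1 he).1
    · exact (mem_clique_iff.1 he).2
  · intro e he x hx
    rw [Finset.mem_union] at he
    rcases he with he | he
    · rw [mem_delV] at he
      rw [Finset.mem_erase]
      refine ⟨?_, hG.sub e he.1 hx⟩
      rintro rfl
      exact he.2 hx
    · have h1 := hnb ((mem_clique_iff.1 he).1 hx)
      rw [Finset.mem_sdiff, Finset.mem_singleton] at h1
      rw [Finset.mem_erase]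
      exact ⟨h1.2, h1.1⟩

theorem c7_triple {a b c : V} {f : Finset V} (hf : f ∈ clique ({a, b, c} : Finset V)) :
    f = {a, b} ∨ f = {a, c} ∨ f = {b, c} := by
  rw [mem_clique_iff] at hf
  obtain ⟨h1, h2⟩ := hf
  obtain ⟨x, y, hxy, rfl⟩ := Finset.card_eq_two.1 h2
  have hx : x ∈ ({a, b, c} : Finset V) := h1 (Finset.mem_insert_self _ _)
  have hy : y ∈ ({a, b, c} : Finset V) :=
    h1 (Finset.mem_insert_of_mem (Finset.mem_singleton_self _))
  simp only [Finset.mem_insert, Finset.mem_singleton] at hx hy
  rcases hx with rfl | rfl | rfl <;> rcases hy with rfl | rfl | rfl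
  · exact absurd rfl hxy
  · left; rfl
  · right; left; rfl
  · left; exact Finset.pair_comm _ _
  · exact absurd rfl hxy
  · right; right; rfl
  · right; left; exact Finset.pair_comm _ _
  · right; right; exact Finset.pair_comm _ _
  · exact absurd rfl hxy

theorem D3.big {W : Finset V} {E : Finset (Finset V)} {v a b c : V} {B XX : Finset (Finset V)}
    {X Y : Finset V} (h : D3 W E v a b c B XX X Y) :
    ∀ Z ∈ XX, Z ≠ X → Z ≠ Y → 3 ≤ Z.card := by
  intro f hf hfX hfY
  by_contra hcon
  have hft := (h.hX.tight f hf).1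
  have hf2 : f.card = 2 := by omega
  have hG' := h.isGraph
  obtain ⟨hfB, hmax⟩ := body_coloop hG' h.hB h.hX hf hf2
  have hfred : f ∈ redE E v a b := h.hB.1 hfB
  have hfred' := hfred
  unfold redE at hfred'
  rw [Finset.mem_erase, Finset.mem_union] at hfred'
  obtain ⟨hfab, hfu⟩ := hfred'
  have hfac : f ≠ {a, c} := by
    rintro rfl
    have h1 := h.hX.inter _ hf _ h.hX1 hfX
    have h2 : ({a, c} : Finset V) ∩ X = {a, c} := by
      rw [Finset.inter_eq_left]
      intro x hx
      rw [Finset.mem_insert, Finset.mem_singleton] at hx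
      rcases hx with rfl | rfl
      · exact h.haX
      · exact h.hcX
    rw [h2] at h1
    omega
  have hfbc : f ≠ {b, c} := by
    rintro rfl
    have h1 := h.hX.inter _ hf _ h.hY1 hfY
    have h2 : ({b, c} : Finset V) ∩ Y = {b, c} := by
      rw [Finset.inter_eq_left]
      intro x hx
      rw [Finset.mem_insert, Finset.mem_singleton] at hx
      rcases hx with rfl | rfl
      · exact h.hbY
      · exact h.hcY
    rw [h2] at h1
    omega
  have hfcl : f ∉ clique (nb E {v}) := by
    intro h1
    rw [h.hN] at h1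
    rcases c7_triple h1 with h2 | h2 | h2
    · exact hfab h2
    · exact hfac h2
    · exact hfbc h2
  have hfdel : f ∈ delV E v := by
    rcases hfu with h1 | h1
    · exact h1
    · exact absurd h1 hfcl
  rw [mem_delV] at hfdel
  have hN3 : (nb E {v}).card = 3 := by
    rw [h.hN]
    exact Finset.card_eq_three.2 ⟨a, b, c, h.hab, h.hac, h.hbc, rfl⟩
  obtain ⟨hSp, hSc⟩ := laman_triple hN3
  have hrig := rigid_clique_case h.hG h.hv (h.hR f hfdel.1) hfdel.2
    (L := clique (nb E {v})) le_rfl hfcl hSp hSc (by omega)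
  -- a maximal sparse set of the rigid graph
  have hGQ : IsGraph (W.erase v) ((delV E v ∪ clique (nb E {v})).erase f) := by
    have h1 := c7_isGraph h.hG v
    exact ⟨fun e he => h1.card_two e (Finset.mem_of_mem_erase he),
      fun e he => h1.sub e (Finset.mem_of_mem_erase he)⟩
  have hBQ : B.erase f ⊆ (delV E v ∪ clique (nb E {v})).erase f := by
    intro e he
    rw [Finset.mem_erase] at he ⊢
    refine ⟨he.1, ?_⟩
    have h1 := h.hB.1 he.2
    unfold redE at h1
    exact Finset.mem_of_mem_erase h1
  obtain ⟨D, hBD, hD⟩ := exists_maxSp (Sparse.mono h.hB.2.1 (Finset.erase_subset f B)) hBQ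
  have hDcard := (rigid_iff hGQ hD).1 hrig
  have hDsub : D ⊆ insert {a, b} (B.erase f) := by
    intro e he
    rw [Finset.mem_insert]
    by_contra hne
    push Not at hne
    obtain ⟨h1, h2⟩ := hne
    have h3 := hD.1 he
    rw [Finset.mem_erase] at h3
    have h4 : e ∈ (redE E v a b).erase f := by
      rw [Finset.mem_erase]
      refine ⟨h3.1, ?_⟩
      unfold redE
      rw [Finset.mem_erase]
      exact ⟨h1, h3.2⟩
    refine hmax.2.2 e h4 h2 (Sparse.mono hD.2.1 ?_)
    intro x hx
    rw [Finset.mem_insert] at hx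
    rcases hx with rfl | hx
    · exact he
    · exact hBD hx
  have hc1 := Finset.card_le_card hDsub
  have hc2 := Finset.card_insert_le ({a, b} : Finset V) (B.erase f)
  have hc3 := Finset.card_erase_of_mem hfB
  have hc4 : 0 < B.card := Finset.card_pos.2 ⟨f, hfB⟩
  have hc5 := h.card
  omega

end Pool.Agent.Lib.MP_5d015b_lc.JJ
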