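import Pool.Agent.Lib.MP_5d015b_lc.JJ.C5
import Pool.Agent.Lib.MP_5d015b_lc.JJ.C7

/-!
# Module C8: shared vertices
-/

set_option autoImplicit false
set_option linter.unusedSectionVars false

namespace Pool.Agent.Lib.MP_5d015b_lc.JJ

variable {V : Type*} [DecidableEq V]

theorem c8_mem_shared {XX : Finset (Finset V)} {X : Finset V} {w : V} :
    w ∈ shared XX X ↔ w ∈ X ∧ ∃ Z ∈ XX, Z ≠ X ∧ w ∈ Z := by
  unfold shared
  rw [Finset.mem_filter]

theorem D3.c8_sub {W : Finset V} {E : Finset (Finset V)} {v a b c : V} {B XX : Finset (Finset V)}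
    {X Y : Finset V} (h : D3 W E v a b c B XX X Y) {Z : Finset V} (hZ : Z ∈ XX) :
    Z ⊆ W.erase v :=
  tight_sub h.hB.2.1 (fun e he => h.isGraph.sub e (h.hB.1 he)) (h.hX.tight Z hZ)

/-- an edge of `E` which avoids `v` and is not `ab` lies in a body -/
theorem D3.c8_cover {W : Finset V} {E : Finset (Finset V)} {v a b c : V} {B XX : Finset (Finset V)}
    {X Y : Finset V} (h : D3 W E v a b c B XX X Y) {e : Finset V} (he : e ∈ E) (hv : v ∉ e)
    (hab : e ≠ {a, b}) : ∃ Z ∈ XX, e ⊆ Z := by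
  apply h.hX.cover
  unfold redE
  rw [Finset.mem_erase, Finset.mem_union, mem_delV]
  exact ⟨hab, Or.inl ⟨he, hv⟩⟩

theorem D3.c8_nb {W : Finset V} {E : Finset (Finset V)} {v a b c : V} {B XX : Finset (Finset V)}
    {X Y : Finset V} (h : D3 W E v a b c B XX X Y) {x : V} (hx : ({v, x} : Finset V) ∈ E) :
    x = a ∨ x = b ∨ x = c := by
  have hxv : x ≠ v := by
    rintro rfl
    have h1 := h.hG.card_two _ hx
    rw [Finset.pair_eq_singleton, Finset.card_singleton] at h1
    omega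
  have h1 : x ∈ nb E {v} := by
    rw [mem_nb h.hG]
    refine ⟨by rw [Finset.mem_singleton]; exact hxv, v, Finset.mem_singleton_self _, hx⟩
  rw [h.hN] at h1
  simpa using h1

/-- the neighbours of an unshared vertex -/
theorem D3.c8_unshared {W : Finset V} {E : Finset (Finset V)} {v a b c : V}
    {B XX : Finset (Finset V)} {X Y : Finset V} (h : D3 W E v a b c B XX X Y) {Z : Finset V}
    (hZ : Z ∈ XX) {w : V} (hw : w ∈ Z) (hws : w ∉ shared XX Z) {x : V}
    (hx : ({w, x} : Finset V) ∈ E) (hxv : x ≠ v) (hab : ({w, x} : Finset V) ≠ {a, b}) :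
    x ∈ Z := by
  have hwv : w ≠ v := by
    have h1 := h.c8_sub hZ hw
    rw [Finset.mem_erase] at h1
    exact h1.1
  obtain ⟨Z', hZ', hsub⟩ := h.c8_cover hx (by
    rw [Finset.mem_insert, Finset.mem_singleton]
    rintro (h1 | h1)
    · exact hwv h1.symm
    · exact hxv h1.symm) hab
  have hwZ' : w ∈ Z' := hsub (Finset.mem_insert_self _ _)
  have hxZ' : x ∈ Z' := hsub (Finset.mem_insert_of_mem (Finset.mem_singleton_self _))
  by_cases hZZ : Z' = Z
  · rw [← hZZ]
    exact hxZ'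
  · exact absurd (c8_mem_shared.2 ⟨hw, Z', hZ', hZZ, hwZ'⟩) hws

theorem D3.c8_key {W : Finset V} {E : Finset (Finset V)} {v a b c : V} {B XX : Finset (Finset V)}
    {X Y : Finset V} (h : D3 W E v a b c B XX X Y) {Z : Finset V} (hZ : Z ∈ XX) {w : V}
    (hw : w ∈ Z) (hws : w ∉ shared XX Z) (hwa : w ≠ a) (hwb : w ≠ b) :
    ∀ x, ({w, x} : Finset V) ∈ E → x ∈ Z := by
  intro x hx
  refine h.c8_unshared hZ hw hws hx ?_ ?_
  · rintro rfl
    rw [Finset.pair_comm] at hx
    rcases h.c8_nb hx with rfl | rfl | rfl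
    · exact hwa rfl
    · exact hwb rfl
    · -- `c` is shared
      apply hws
      rw [c8_mem_shared]
      refine ⟨hw, ?_⟩
      by_cases hZX : Z = X
      · exact ⟨Y, h.hY1, fun h1 => h.ne.1 (by rw [h1, hZX]), h.hcY⟩
      · exact ⟨X, h.hX1, fun h1 => hZX h1.symm, h.hcX⟩
  · intro h1
    have h2 : w ∈ ({a, b} : Finset V) := by
      rw [← h1]
      exact Finset.mem_insert_self _ _
    rw [Finset.mem_insert, Finset.mem_singleton] at h2
    rcases h2 with h2 | h2
    · exact hwa h2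
    · exact hwb h2

theorem D3.share {W : Finset V} {E : Finset (Finset V)} {v a b c : V} {B XX : Finset (Finset V)}
    {X Y : Finset V} (h : D3 W E v a b c B XX X Y) :
    (∀ Z ∈ XX, Z ≠ X → Z ≠ Y → 3 ≤ (shared XX Z).card) ∧ 1 ≤ (shared XX X).card ∧
      1 ≤ (shared XX Y).card ∧ (3 ≤ X.card → 2 ≤ (shared XX X).card) ∧
      (3 ≤ Y.card → 2 ≤ (shared XX Y).card) := by
  have hsub : ∀ Z ∈ XX, Z ⊆ W := fun Z hZ => (h.c8_sub hZ).trans (Finset.erase_subset v W)
  have hneW : ∀ Z ∈ XX, Z ≠ W := by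
    rintro Z hZ rfl
    have h1 := h.c8_sub hZ h.hv
    rw [Finset.mem_erase] at h1
    exact h1.1 rfl
  have hshsub : ∀ Z, shared XX Z ⊆ Z := fun Z w hw => (c8_mem_shared.1 hw).1
  refine ⟨?_, ?_, ?_, ?_, ?_⟩
  · intro Z hZ hZX hZY
    refine sep h.hG h.hC (hsub Z hZ) (hneW Z hZ) (h.big Z hZ hZX hZY) (hshsub Z) ?_
    intro w hw hws
    refine h.c8_key hZ hw hws ?_ ?_
    · rintro rfl
      exact hws (c8_mem_shared.2 ⟨hw, X, h.hX1, fun h1 => hZX h1.symm, h.haX⟩)
    · rintro rfl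
      exact hws (c8_mem_shared.2 ⟨hw, Y, h.hY1, fun h1 => hZY h1.symm, h.hbY⟩)
  · exact Finset.card_pos.2 ⟨c, c8_mem_shared.2 ⟨h.hcX, Y, h.hY1, fun h1 => h.ne.1 h1.symm, h.hcY⟩⟩
  · exact Finset.card_pos.2 ⟨c, c8_mem_shared.2 ⟨h.hcY, X, h.hX1, h.ne.1, h.hcX⟩⟩
  · intro h3
    have h4 : 3 ≤ (insert a (shared XX X)).card := by
      refine sep h.hG h.hC (hsub X h.hX1) (hneW X h.hX1) h3 ?_ ?_
      · intro w hw
        rw [Finset.mem_insert] at hw
        rcases hw with rfl | hw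
        · exact h.haX
        · exact hshsub X hw
      · intro w hw hws
        rw [Finset.mem_insert] at hws
        push Not at hws
        refine h.c8_key h.hX1 hw hws.2 hws.1 ?_
        rintro rfl
        exact h.ne.2.1 hw
    have h5 := Finset.card_insert_le a (shared XX X)
    omega
  · intro h3
    have h4 : 3 ≤ (insert b (shared XX Y)).card := by
      refine sep h.hG h.hC (hsub Y h.hY1) (hneW Y h.hY1) h3 ?_ ?_
      · intro w hw
        rw [Finset.mem_insert] at hw
        rcases hw with rfl | hw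
        · exact h.hbY
        · exact hshsub Y hw
      · intro w hw hws
        rw [Finset.mem_insert] at hws
        push Not at hws
        refine h.c8_key h.hY1 hw hws.2 ?_ hws.1
        rintro rfl
        exact h.ne.2.2 hw
    have h5 := Finset.card_insert_le b (shared XX Y)
    omega

end Pool.Agent.Lib.MP_5d015b_lc.JJ
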