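import Pool.Agent.Lib.MP_5d015b_lc.LM6
import Pool.Agent.Lib.MP_5d015b_lc.LM5

/-!
# Generic global rigidity in the plane: definitions

The proof works with the differentials of `ℝ` over `ℚ`: real numbers are algebraically independent
over `ℚ` if and only if their differentials are linearly independent over `ℝ`.
-/

set_option autoImplicit false
set_option linter.unusedSectionVars false

namespace Pool.Agent.Lib.MP_5d015b_lc.JJ

/-- the differentials of `ℝ` over `ℚ` -/
def Om : Type := KaehlerDifferential ℚ ℝ

noncomputable instance instOm : AddCommGroup Om :=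
  inferInstanceAs (AddCommGroup (KaehlerDifferential ℚ ℝ))

noncomputable instance instOmModule : Module ℝ Om :=
  inferInstanceAs (Module ℝ (KaehlerDifferential ℚ ℝ))

/-- the universal derivation, as a function into `KaehlerDifferential ℚ ℝ` -/
noncomputable def dK (x : ℝ) : KaehlerDifferential ℚ ℝ := KaehlerDifferential.D ℚ ℝ x

/-- the universal derivation -/
@[irreducible]
noncomputable def dR (x : ℝ) : Om := dK x

theorem dR_def (x : ℝ) : dR x = KaehlerDifferential.D ℚ ℝ x := by
  unfold dR
  rfl

variable {V : Type*} [DecidableEq V]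

/-- squared distance of two points -/
def sqd (p : V → Fin 2 → ℝ) (u v : V) : ℝ := (p u 0 - p v 0) ^ 2 + (p u 1 - p v 1) ^ 2

/-- `p` is generic on `W` -/
def Gen (W : Finset V) (p : V → Fin 2 → ℝ) : Prop :=
  LinearIndependent ℝ (fun x : ↥W × Fin 2 => dR (p x.1 x.2))

/-- `p` and `q` give the edges in `E` the same lengths -/
def SameLen (E : Finset (Finset V)) (p q : V → Fin 2 → ℝ) : Prop :=
  ∀ u v, ({u, v} : Finset V) ∈ E → sqd p u v = sqd q u v

/-- generic global rigidity of the graph `(W, E)` -/
def GRon (W : Finset V) (E : Finset (Finset V)) : Prop :=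
  ∀ p q, Gen W p → SameLen E p q → ∀ u ∈ W, ∀ v ∈ W, sqd p u v = sqd q u v

/-- the edges which do not contain `v` -/
def delV (E : Finset (Finset V)) (v : V) : Finset (Finset V) := E.filter fun e => v ∉ e

/-- the edges from `v` to `N` -/
def starE (v : V) (N : Finset V) : Finset (Finset V) := N.image fun x => {v, x}

/-- the span of the differentials of the coordinates of the points in `W` -/
noncomputable def spanW (W : Finset V) (p : V → Fin 2 → ℝ) : Submodule ℝ Om :=
  Submodule.span ℝ (Set.range fun x : ↥W × Fin 2 => dR (p x.1 x.2))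

/-- the form of two points, with values in a module -/
def ef {M : Type*} [AddCommGroup M] [Module ℝ M] (p : V → Fin 2 → ℝ) (u v : V)
    (m : V → Fin 2 → M) : M :=
  (p u 0 - p v 0) • (m u 0 - m v 0) + (p u 1 - p v 1) • (m u 1 - m v 1)

/-- the form of an edge, with values in a module (for `M = ℝ` it is `rho`) -/
def rhoM {M : Type*} [AddCommGroup M] [Module ℝ M] (p : V → Fin 2 → ℝ) (e : Finset V)
    (m : V → Fin 2 → M) : M := ∑ u ∈ e, ∑ v ∈ e, ef p u v m

/-- the members of `X` which lie in another member of `XX` -/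
def shared (XX : Finset (Finset V)) (X : Finset V) : Finset V :=
  X.filter fun w => ∃ Z ∈ XX, Z ≠ X ∧ w ∈ Z

/-- the lengths of the edges of `B`, and three coordinates -/
def nf (B : Finset (Finset V)) (u v : V) (p : V → Fin 2 → ℝ) : (↥B ⊕ Fin 3) → ℝ :=
  Sum.elim (fun e => rho p (e : Finset V) p) ![p u 0, p u 1, p v 1]

/-- the derivative of `nf`, with values in a module -/
def nfM {M : Type*} [AddCommGroup M] [Module ℝ M] (B : Finset (Finset V)) (u v : V)
    (p : V → Fin 2 → ℝ) (m : V → Fin 2 → M) : (↥B ⊕ Fin 3) → M :=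
  Sum.elim (fun e => (2 : ℝ) • rhoM p (e : Finset V) m) ![m u 0, m u 1, m v 1]

/-- the edges `E1` of the graph after the removal of a vertex `v` of degree three with
neighbours `a, b, c` and of the edge `ab`, and after the addition of `ac, bc` -/
def redE (E : Finset (Finset V)) (v a b : V) : Finset (Finset V) :=
  (delV E v ∪ clique (nb E {v})).erase {a, b}

/-- the situation of the lemma on vertices of degree three -/
structure D3 (W : Finset V) (E : Finset (Finset V)) (v a b c : V) (B XX : Finset (Finset V))
    (X Y : Finset V) : Prop where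
  hG : IsGraph W E
  hC : Conn3 W E
  hR : RedRigid W E
  h5 : 5 ≤ W.card
  hv : v ∈ W
  hN : nb E {v} = {a, b, c}
  hab : a ≠ b
  hbc : b ≠ c
  hac : a ≠ c
  hE : ({a, b} : Finset V) ∈ E
  hr : Rigid (W.erase v) (delV E v)
  hn : ¬ Rigid (W.erase v) (redE E v a b)
  hB : MaxSp (redE E v a b) B
  hX : Bodies (redE E v a b) B XX
  hX1 : X ∈ XX
  haX : a ∈ X
  hcX : c ∈ X
  hY1 : Y ∈ XX
  hbY : b ∈ Y
  hcY : c ∈ Y

/-- the situation of the lemma on the existence of a removable vertex: `R` is a largest proper
rigid set -/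
structure LT (W : Finset V) (E B : Finset (Finset V)) (R : Finset V) : Prop where
  hG : IsGraph W E
  hC : Conn3 W E
  hR : RedRigid W E
  hB : MaxSp E B
  ht : Tight B R
  hRW : R ⊆ W
  hne : R ≠ W
  hmax : ∀ B' R', MaxSp E B' → Tight B' R' → R' ⊆ W → R' ≠ W → R'.card ≤ R.card

end Pool.Agent.Lib.MP_5d015b_lc.JJ
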