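import Pool.Agent.Lib.MP_5d015b_lc.JJ.R1
import Pool.Agent.Lib.MP_5d015b_lc.JJ.A3

/-!
# module N1. Separation by at most one vertex
-/

set_option autoImplicit false
set_option linter.unusedSectionVars false

namespace Pool.Agent.Lib.MP_5d015b_lc.JJ

theorem n1_mem_nb {V : Type*} [DecidableEq V] {E : Finset (Finset V)} {Y : Finset V} {s t : V}
    (hs : s ∈ Y) (ht : t ∉ Y) (h : ({s, t} : Finset V) ∈ E) : t ∈ nb E Y := by
  unfold nb
  rw [Finset.mem_sdiff, Finset.mem_biUnion]
  refine ⟨⟨{s, t}, ?_, ?_⟩, ht⟩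
  · rw [Finset.mem_filter]
    exact ⟨h, ⟨s, Finset.mem_inter.2 ⟨Finset.mem_insert_self _ _, hs⟩⟩⟩
  · exact Finset.mem_insert_of_mem (Finset.mem_singleton_self _)

theorem nec_one {V : Type} [Fintype V] [DecidableEq V] {E : Finset (Finset V)}
    (hG : IsGraph Finset.univ E) (h : GRon Finset.univ E) {Y : Finset V} (hY : Y.Nonempty)
    (hne : Y ∪ nb E Y ≠ Finset.univ) (h1 : (nb E Y).card ≤ 1) : False := by
  classical
  obtain ⟨p, -, hp⟩ := exists_gen_mem (V := V) isOpen_univ Set.univ_nonempty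
  obtain ⟨y, hy⟩ := hY
  obtain ⟨z, hz⟩ : ∃ z, z ∉ Y ∪ nb E Y := by
    by_contra hcon
    push Not at hcon
    exact hne (Finset.eq_univ_iff_forall.2 hcon)
  rw [Finset.mem_union, not_or] at hz
  have hyz : y ≠ z := fun e => hz.1 (e ▸ hy)
  -- the centre of the point reflection
  obtain ⟨o, ho1, ho2, ho3⟩ : ∃ o : Fin 2 → ℝ, (∀ t ∈ nb E Y, o = p t) ∧
      (∀ i, dR (o i) ∈ spanW (Finset.univ.erase y) p) ∧ p z 0 ≠ o 0 := by
    rcases Finset.eq_empty_or_nonempty (nb E Y) with he | ⟨a, ha⟩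
    · refine ⟨fun _ => 0, fun t ht => ?_, fun i => ?_, ?_⟩
      · rw [he] at ht
        exact absurd ht (Finset.notMem_empty t)
      · rw [dR_zero]
        exact Submodule.zero_mem _
      · intro e
        have := hp.ne_zero (⟨z, Finset.mem_univ z⟩, 0)
        simp only [e, dR_zero, ne_eq, not_true_eq_false] at this
    · have haY : a ∉ Y := by
        unfold nb at ha
        exact (Finset.mem_sdiff.1 ha).2
      refine ⟨p a, fun t ht => ?_, fun i => ?_, ?_⟩
      · rw [Finset.card_le_one.1 h1 t ht a ha]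
      · exact mem_spanW (Finset.mem_erase.2 ⟨fun e => haY (by rw [e]; exact hy), Finset.mem_univ a⟩) i
      · exact gen_ne hp (Finset.mem_univ z) (Finset.mem_univ a) (fun e => hz.2 (by rw [e]; exact ha)) 0
  have hsame : SameLen E p (fun w i => if w ∈ Y then 2 * o i - p w i else p w i) := by
    intro s t hst
    unfold sqd
    by_cases hs : s ∈ Y
    · by_cases ht : t ∈ Y
      · simp only [hs, ht, if_true]; ring
      · have hot := ho1 t (n1_mem_nb hs ht hst)
        simp only [hs, ht, if_true, if_false, hot]; ring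
    · by_cases ht : t ∈ Y
      · rw [Finset.pair_comm] at hst
        have hot := ho1 s (n1_mem_nb ht hs hst)
        simp only [hs, ht, if_true, if_false, hot]; ring
      · simp only [hs, ht, if_false]
  have heq := h p _ hp hsame y (Finset.mem_univ _) z (Finset.mem_univ _)
  unfold sqd at heq
  simp only [hy, hz.1, if_true, if_false] at heq
  have hdot : (p y 0 - o 0) * (p z 0 - o 0) + (p y 1 - o 1) * (p z 1 - o 1) = 0 := by
    linarith
  set S := spanW (Finset.univ.erase y) p with hS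
  have hzS : ∀ i, dR (p z i) ∈ S := fun i =>
    mem_spanW (Finset.mem_erase.2 ⟨hyz.symm, Finset.mem_univ z⟩) i
  have hd : dR ((p y 0 - o 0) * (p z 0 - o 0) + (p y 1 - o 1) * (p z 1 - o 1)) = 0 := by
    rw [hdot, dR_zero]
  rw [dR_add, dR_mul, dR_mul, dR_sub (p y 0), dR_sub (p y 1)] at hd
  have hB : ∀ i, dR (p z i - o i) ∈ S := fun i => mem_sub (hzS i) (ho2 i)
  have hmem : (p z 0 - o 0) • dR (p y 0) + (p z 1 - o 1) • dR (p y 1) ∈ S := by
    have : (p z 0 - o 0) • dR (p y 0) + (p z 1 - o 1) • dR (p y 1) =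
        ((p z 0 - o 0) • dR (o 0) + (p z 1 - o 1) • dR (o 1)) -
        ((p y 0 - o 0) • dR (p z 0 - o 0) + (p y 1 - o 1) • dR (p z 1 - o 1)) := by
      rw [smul_sub, smul_sub] at hd
      rw [eq_sub_iff_add_eq, ← sub_eq_zero, ← hd]
      abel
    rw [this]
    exact S.sub_mem (S.add_mem (S.smul_mem _ (ho2 0)) (S.smul_mem _ (ho2 1)))
      (S.add_mem (S.smul_mem _ (hB 0)) (S.smul_mem _ (hB 1)))
  have := (gen_indep_mod hp (Finset.mem_univ y) hmem).1
  exact ho3 (by linarith)

end Pool.Agent.Lib.MP_5d015b_lc.JJ
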