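import Pool.Agent.Lib.MP_5d015b_lc.JJ.N7

/-!
# Module N10: surjectivity of the derivative of `nf`
-/

set_option autoImplicit false
set_option linter.unusedSectionVars false

namespace Pool.Agent.Lib.MP_5d015b_lc.JJ

/-- the derivative of `nf` as a linear map -/
noncomputable def N10.lin {V : Type} [Fintype V] [DecidableEq V] (B : Finset (Finset V)) (u v : V)
    (x : V → Fin 2 → ℝ) : (V → Fin 2 → ℝ) →ₗ[ℝ] ((↥B ⊕ Fin 3) → ℝ) :=
  (fderiv ℝ (nf B u v) x : (V → Fin 2 → ℝ) →ₗ[ℝ] ((↥B ⊕ Fin 3) → ℝ))

theorem N10.lin_apply {V : Type} [Fintype V] [DecidableEq V] (B : Finset (Finset V)) (u v : V)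
    (x m : V → Fin 2 → ℝ) : N10.lin B u v x m = nfM B u v x m := fderiv_nf B u v x m

theorem nf_surj {V : Type} [Fintype V] [DecidableEq V] {B : Finset (Finset V)} {u v : V}
    {x : V → Fin 2 → ℝ} (h : LinearIndependent ℝ (fun k => dR (nf B u v x k))) :
    Function.Surjective (fun m : V → Fin 2 → ℝ => nfM B u v x m) := by
  classical
  have hs : Function.Surjective (N10.lin B u v x) := by
    rw [← LinearMap.range_eq_top]
    by_contra hne
    obtain ⟨f, hf, hle⟩ := Submodule.exists_le_ker_of_lt_top _ (lt_top_iff_ne_top.mpr hne)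
    apply hf
    -- the coefficients
    have hfe : ∀ y : (↥B ⊕ Fin 3) → ℝ, f y = ∑ k, f (Pi.single k 1) * y k := by
      intro y
      conv_lhs => rw [← Finset.univ_sum_single y]
      rw [map_sum]
      refine Finset.sum_congr rfl fun k _ => ?_
      have h1 : Pi.single k (y k) = y k • (Pi.single k 1 : (↥B ⊕ Fin 3) → ℝ) := by
        rw [← Pi.single_smul, smul_eq_mul, mul_one]
      rw [h1, map_smul, smul_eq_mul, mul_comm]
    have hzero : ∀ m : V → Fin 2 → ℝ, ∑ k, f (Pi.single k 1) * nfM B u v x m k = 0 := by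
      intro m
      rw [← hfe]
      have h1 : N10.lin B u v x m ∈ LinearMap.ker f := hle ⟨m, rfl⟩
      rw [LinearMap.mem_ker, N10.lin_apply] at h1
      exact h1
    have hOm : ∑ k, f (Pi.single k 1) • dR (nf B u v x k) = 0 := by
      rw [← Module.forall_dual_apply_eq_zero_iff ℝ]
      intro φ
      rw [map_sum, ← hzero (fun w i => φ (dR (x w i)))]
      refine Finset.sum_congr rfl fun k _ => ?_
      rw [map_smul, smul_eq_mul, dR_nf, nfM_map]
    have h2 := Fintype.linearIndependent_iff.mp h _ hOm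
    apply LinearMap.ext
    intro y
    rw [hfe y]
    simp only [h2, zero_mul, Finset.sum_const_zero, LinearMap.zero_apply]
  intro y
  obtain ⟨m, hm⟩ := hs y
  exact ⟨m, by rw [← hm, N10.lin_apply]⟩

theorem surj_nhds {V : Type} [Fintype V] [DecidableEq V] {B : Finset (Finset V)} {u v : V}
    {x : V → Fin 2 → ℝ} (h : Function.Surjective (fun m : V → Fin 2 → ℝ => nfM B u v x m)) :
    ∀ᶠ y in nhds x, Function.Surjective (fun m : V → Fin 2 → ℝ => nfM B u v y m) := by
  classical
  have hs : Function.Surjective (N10.lin B u v x) := by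
    intro y
    obtain ⟨m, hm⟩ := h y
    exact ⟨m, by rw [N10.lin_apply]; exact hm⟩
  obtain ⟨R, hR⟩ := (N10.lin B u v x).exists_rightInverse_of_surjective
    (LinearMap.range_eq_top.mpr hs)
  let Mt : (V → Fin 2 → ℝ) → Matrix (↥B ⊕ Fin 3) (↥B ⊕ Fin 3) ℝ := fun y =>
    LinearMap.toMatrix' ((N10.lin B u v y).comp R)
  have hcf : Continuous (fun y => fderiv ℝ (nf B u v) y) :=
    (nf_contDiff B u v).continuous_fderiv (by norm_num)
  have hcont : Continuous Mt := by
    refine continuous_pi fun i => continuous_pi fun j => ?_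
    have h1 : ∀ y, Mt y i j = fderiv ℝ (nf B u v) y (R (Pi.single j 1)) i := by
      intro y
      change LinearMap.toMatrix' ((N10.lin B u v y).comp R) i j = _
      rw [LinearMap.toMatrix'_apply]
      rfl
    simp only [h1]
    exact (continuous_apply i).comp (hcf.clm_apply continuous_const)
  have hdet : Continuous (fun y => (Mt y).det) := hcont.matrix_det
  have hx : (Mt x).det ≠ 0 := by
    change (LinearMap.toMatrix' ((N10.lin B u v x).comp R)).det ≠ 0
    rw [hR, LinearMap.toMatrix'_id, Matrix.det_one]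
    exact one_ne_zero
  have hev : ∀ᶠ y in nhds x, (Mt y).det ≠ 0 := hdet.continuousAt.eventually_ne hx
  filter_upwards [hev] with y hy z
  have hu : IsUnit (Mt y) := (Matrix.isUnit_iff_isUnit_det _).mpr (isUnit_iff_ne_zero.mpr hy)
  obtain ⟨w, hw⟩ := (Matrix.mulVec_surjective_iff_isUnit.mpr hu) z
  refine ⟨R w, ?_⟩
  change nfM B u v y (R w) = z
  rw [← N10.lin_apply, ← hw]
  change ((N10.lin B u v y).comp R) w = (LinearMap.toMatrix' ((N10.lin B u v y).comp R)).mulVec w
  rw [← LinearMap.toMatrix'_mulVec]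

theorem rows_of_surj {V : Type} [Fintype V] [DecidableEq V] {B : Finset (Finset V)} {u v : V}
    {x : V → Fin 2 → ℝ} (h : Function.Surjective (fun m : V → Fin 2 → ℝ => nfM B u v x m)) :
    LinearIndepOn ℝ (rho x) (B : Set (Finset V)) := by
  classical
  change LinearIndependent ℝ (fun e : ↥(B : Set (Finset V)) => rho x e)
  rw [linearIndependent_iff']
  intro s g hg e he
  obtain ⟨m, hm⟩ := h (Pi.single (Sum.inl ⟨e.1, e.2⟩) 1)
  have h1 : ∀ e' : ↥(B : Set (Finset V)), 2 * rho x e' m = if e' = e then 1 else 0 := by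
    intro e'
    have h2 := congrFun hm (Sum.inl ⟨e'.1, e'.2⟩)
    change (2 : ℝ) • rhoM x (e' : Finset V) m = _ at h2
    rw [rhoM_real, smul_eq_mul] at h2
    rw [h2]
    by_cases he' : e' = e
    · subst he'
      rw [Pi.single_eq_same, if_pos rfl]
    · rw [if_neg he', Pi.single_eq_of_ne]
      intro h3
      apply he'
      have h4 := Sum.inl.inj h3
      exact Subtype.ext (congrArg Subtype.val h4)
  have h2 := congrArg (fun f : (V → Fin 2 → ℝ) →ₗ[ℝ] ℝ => 2 * f m) hg
  simp only [LinearMap.sum_apply, LinearMap.smul_apply, smul_eq_mul, LinearMap.zero_apply,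
    mul_zero, Finset.mul_sum] at h2
  have h3 : ∀ e' ∈ s, 2 * (g e' * rho x e' m) = if e' = e then g e' else 0 := by
    intro e' _
    have h4 := h1 e'
    by_cases he' : e' = e
    · rw [if_pos he'] at h4 ⊢
      linear_combination g e' * h4
    · rw [if_neg he'] at h4 ⊢
      linear_combination g e' * h4
  rw [Finset.sum_congr rfl h3, Finset.sum_ite_eq' s e g, if_pos he] at h2
  exact h2

end Pool.Agent.Lib.MP_5d015b_lc.JJ
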