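import Pool.Agent.Lib.MP_5d015b_lc.JJ.Basic

/-!
# module N11. A regular point of `nf` is not contained in a line
-/

set_option autoImplicit false
set_option linter.unusedSectionVars false

namespace Pool.Agent.Lib.MP_5d015b_lc.JJ

/-- the components in the direction `d` of the differences with `m u` -/
def n11D {V : Type} [Fintype V] [DecidableEq V] (u : V) (d0 d1 : ℝ) :
    (V → Fin 2 → ℝ) →ₗ[ℝ] ({w : V // w ≠ u} → ℝ) where
  toFun m w := d0 * (m w 0 - m u 0) + d1 * (m w 1 - m u 1)
  map_add' m m' := by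
    funext w
    simp only [Pi.add_apply]
    ring
  map_smul' c m := by
    funext w
    simp only [Pi.smul_apply, smul_eq_mul, RingHom.id_apply]
    ring

theorem nf_noncol {V : Type} [Fintype V] [DecidableEq V] {B : Finset (Finset V)} {u v : V}
    {x : V → Fin 2 → ℝ} (hc : B.card + 4 = 2 * Fintype.card V) (h4 : 4 ≤ Fintype.card V)
    (hr : LinearIndepOn ℝ (rho x) (B : Set (Finset V))) (hx : x u ≠ x v) :
    ∃ w, det3 x u v w ≠ 0 := by
  classical
  by_contra hcon
  push Not at hcon
  set d0 := x v 0 - x u 0 with hd0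
  set d1 := x v 1 - x u 1 with hd1
  have hD : d0 ^ 2 + d1 ^ 2 ≠ 0 := by
    intro h
    apply hx
    have h0 : d0 = 0 := by nlinarith [sq_nonneg d0, sq_nonneg d1]
    have h1 : d1 = 0 := by nlinarith [sq_nonneg d0, sq_nonneg d1]
    funext i
    fin_cases i
    · show x u 0 = x v 0
      linarith
    · show x u 1 = x v 1
      linarith
  obtain ⟨t, ht0, ht1⟩ : ∃ t : V → ℝ, (∀ w, x w 0 - x u 0 = t w * d0) ∧
      ∀ w, x w 1 - x u 1 = t w * d1 := by
    refine ⟨fun w => ((x w 0 - x u 0) * d0 + (x w 1 - x u 1) * d1) / (d0 ^ 2 + d1 ^ 2), ?_, ?_⟩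
    · intro w
      have := hcon w
      unfold det3 at this
      rw [← hd0, ← hd1] at this
      rw [div_mul_eq_mul_div, eq_div_iff hD]
      linear_combination d1 * (-this)
    · intro w
      have := hcon w
      unfold det3 at this
      rw [← hd0, ← hd1] at this
      rw [div_mul_eq_mul_div, eq_div_iff hD]
      linear_combination d0 * this
  set K := LinearMap.ker (n11D u d0 d1) with hK
  have hKm : ∀ m ∈ K, ∀ w, d0 * (m w 0 - m u 0) + d1 * (m w 1 - m u 1) = 0 := by
    intro m hm w
    by_cases hw : w = u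
    · rw [hw]; ring
    · exact congrFun (LinearMap.mem_ker.1 hm) ⟨w, hw⟩
  have hmem : ∀ e : ↥B, rho x (e : Finset V) ∈ K.dualAnnihilator := by
    intro e
    rw [Submodule.mem_dualAnnihilator]
    intro m hm
    rw [rho_apply]
    refine Finset.sum_eq_zero fun s _ => Finset.sum_eq_zero fun r _ => ?_
    have e0 : x s 0 - x r 0 = (t s - t r) * d0 := by
      have h1 := ht0 s; have h2 := ht0 r; linarith
    have e1 : x s 1 - x r 1 = (t s - t r) * d1 := by
      have h1 := ht1 s; have h2 := ht1 r; linarith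
    rw [e0, e1]
    linear_combination (t s - t r) * (hKm m hm s - hKm m hm r)
  have hli : LinearIndependent ℝ (fun e : ↥B => rho x (e : Finset V)) := hr
  have hX2 : LinearIndependent ℝ (fun e : ↥B =>
      (⟨rho x (e : Finset V), hmem e⟩ : K.dualAnnihilator)) :=
    LinearIndependent.of_comp (Submodule.subtype _) hli
  have h1 := hX2.fintype_card_le_finrank
  rw [Fintype.card_coe] at h1
  have h2 := Subspace.finrank_add_finrank_dualAnnihilator_eq K
  have h3 : Module.finrank ℝ (V → Fin 2 → ℝ) = 2 * Fintype.card V := by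
    rw [Module.finrank_pi_fintype]
    simp [mul_comm]
  have h5 := LinearMap.finrank_range_add_finrank_ker (n11D u d0 d1)
  have h6 := Submodule.finrank_le (LinearMap.range (n11D u d0 d1))
  have h7 : Module.finrank ℝ ({w : V // w ≠ u} → ℝ) = Fintype.card V - 1 := by
    rw [Module.finrank_fintype_fun_eq_card, Fintype.card_subtype_compl, Fintype.card_subtype_eq]
  rw [h3] at h2 h5
  rw [h7] at h6
  rw [← hK] at h5
  omega

end Pool.Agent.Lib.MP_5d015b_lc.JJ
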