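import Pool.Agent.Lib.MP_5d015b_lc.JJ.N8
import Pool.Agent.Lib.MP_5d015b_lc.JJ.A4

/-!
# module N12. The length of `uv` is not constant on the fibre of `nf`
-/

set_option autoImplicit false
set_option linter.unusedSectionVars false

namespace Pool.Agent.Lib.MP_5d015b_lc.JJ

theorem nf_hnc {V : Type} [Fintype V] [DecidableEq V] {L : Finset (Finset V)}
    (hG : IsGraph Finset.univ L) (hS : Sparse L) (hc : L.card + 3 = 2 * Fintype.card V)
    (h2 : 2 ≤ Fintype.card V) {u v : V} (huv : u ≠ v) (hL : ({u, v} : Finset V) ∈ L)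
    {p₀ x : V → Fin 2 → ℝ} (hp : Gen Finset.univ p₀)
    (hx : nf (L.erase {u, v}) u v x = nf (L.erase {u, v}) u v p₀) (j : V × Fin 2) (a b : ℝ)
    (γ : ℝ → V → Fin 2 → ℝ) (hab : a < b)
    (hγ : ∀ t ∈ Set.Ioo a b, DifferentiableAt ℝ γ t ∧
      nf (L.erase {u, v}) u v (γ t) = nf (L.erase {u, v}) u v x ∧ γ t j.1 j.2 = t) :
    ∃ t ∈ Set.Ioo a b, sqd (γ t) u v ≠ sqd x u v := by
  classical
  by_contra hcon
  push Not at hcon
  set B := L.erase {u, v} with hB
  have hind := nf_indep_gen hG hS hc h2 huv hL hp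
  obtain ⟨t, ht, hti⟩ := exists_indep_mem hind hab
  obtain ⟨hd, hnf, hjt⟩ := hγ t ht
  set y := γ t with hy
  have hcard : B.card + 1 = L.card := Finset.card_erase_add_one hL
  -- `y` is generic
  have hgen : Gen Finset.univ y := by
    unfold Gen
    rw [linearIndependent_iff_card_le_finrank_span]
    have hsub : Set.range (fun i : Option (↥B ⊕ Fin 3) => dR (i.elim t (nf B u v p₀))) ⊆
        Submodule.span ℝ (Set.range (fun x : ↥(Finset.univ : Finset V) × Fin 2 => dR (y x.1 x.2))) := by
      rintro _ ⟨i, rfl⟩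
      rcases i with _ | k
      · show dR t ∈ _
        rw [← hjt]
        exact Submodule.subset_span ⟨(⟨j.1, Finset.mem_univ _⟩, j.2), rfl⟩
      · show dR (nf B u v p₀ k) ∈ _
        rw [← hx, ← hnf, dR_nf]
        obtain ⟨R, hR⟩ := n8_expand B u v y k
        rw [hR]
        exact Submodule.sum_mem _ fun x _ => Submodule.smul_mem _ _
          (Submodule.subset_span ⟨(⟨x.1, Finset.mem_univ _⟩, x.2), rfl⟩)
    have h1 : Fintype.card (Option (↥B ⊕ Fin 3)) =
        Module.finrank ℝ (Submodule.span ℝ (Set.range (fun i : Option (↥B ⊕ Fin 3) => dR (i.elim t (nf B u v p₀))))) :=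
      (finrank_span_eq_card hti).symm
    have : Module.Finite ℝ (Submodule.span ℝ (Set.range (fun x : ↥(Finset.univ : Finset V) × Fin 2 => dR (y x.1 x.2)))) :=
      FiniteDimensional.span_of_finite ℝ (Set.finite_range _)
    have h3 := Submodule.finrank_mono (Submodule.span_le.2 hsub)
    have h4 : Fintype.card (Option (↥B ⊕ Fin 3)) = Fintype.card (↥(Finset.univ : Finset V) × Fin 2) := by
      rw [Fintype.card_option, Fintype.card_sum, Fintype.card_coe, Fintype.card_fin, Fintype.card_prod,
        Fintype.card_coe, Fintype.card_fin, Finset.card_univ]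
      omega
    rw [← h4, h1]
    exact h3
  -- the velocity
  set m := deriv γ t with hm
  have hdm : HasDerivAt γ m t := hd.hasDerivAt
  have hnhds : Set.Ioo a b ∈ nhds t := isOpen_Ioo.mem_nhds ht
  have h1 : nfM B u v y m = 0 := by
    have hfd : HasFDerivAt (nf B u v) (fderiv ℝ (nf B u v) y) y :=
      ((nf_contDiff B u v).differentiable one_ne_zero y).hasFDerivAt
    have e1 : HasDerivAt (fun s => nf B u v (γ s)) (fderiv ℝ (nf B u v) y m) t :=
      hfd.comp_hasDerivAt t hdm
    have e2 : HasDerivAt (fun s => nf B u v (γ s)) 0 t := by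
      refine (hasDerivAt_const t (nf B u v x)).congr_of_eventuallyEq ?_
      filter_upwards [hnhds] with s hs
      exact (hγ s hs).2.1
    rw [← fderiv_nf]
    exact e1.unique e2
  have h3 : ef y u v m = 0 := by
    obtain ⟨hds, hfs⟩ := hasFDerivAt_sqd u v y
    have e1 : HasDerivAt (fun s => sqd (γ s) u v) (fderiv ℝ (fun p : V → Fin 2 → ℝ => sqd p u v) y m) t :=
      hds.hasFDerivAt.comp_hasDerivAt t hdm
    have e2 : HasDerivAt (fun s => sqd (γ s) u v) 0 t := by
      refine (hasDerivAt_const t (sqd x u v)).congr_of_eventuallyEq ?_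
      filter_upwards [hnhds] with s hs
      exact hcon s hs
    have e3 := e1.unique e2
    rw [hfs] at e3
    linarith
  have hm0 := nf_inj_gen hG hS hc h2 huv hL hgen h1 h3
  have e1 : HasDerivAt (fun s => γ s j.1 j.2) (m j.1 j.2) t :=
    (hasDerivAt_pi.1 ((hasDerivAt_pi.1 hdm) j.1)) j.2
  have e2 : HasDerivAt (fun s => γ s j.1 j.2) 1 t := by
    refine (hasDerivAt_id t).congr_of_eventuallyEq ?_
    filter_upwards [hnhds] with s hs
    exact (hγ s hs).2.2
  have e3 := e1.unique e2
  rw [hm0] at e3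
  exact zero_ne_one e3

end Pool.Agent.Lib.MP_5d015b_lc.JJ
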