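import Pool.Agent.Lib.MP_5d015b_lc.JJ.Basic

/-!
# module N13. The row of an edge in the closure of `B`
-/

set_option autoImplicit false
set_option linter.unusedSectionVars false

namespace Pool.Agent.Lib.MP_5d015b_lc.JJ

variable {V : Type*} [DecidableEq V]

theorem ker_cl {B : Finset (Finset V)} {h : Finset V} (hB : ∀ e ∈ B, e.card = 2)
    (hh : h.card = 2) (hn : ¬ Sparse (insert h B)) {y : V → Fin 2 → ℝ}
    (hr : LinearIndepOn ℝ (rho y) (B : Set (Finset V))) {m : V → Fin 2 → ℝ}
    (hm : ∀ e ∈ B, rho y e m = 0) : rho y h m = 0 := by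
  have hmem : rho y h ∈ Submodule.span ℝ (rho y '' (B : Set (Finset V))) := by
    by_contra hcon
    apply hn
    have h1 := hr.insert hcon
    have h2 : (insert h (B : Set (Finset V))) = ((insert h B : Finset (Finset V)) : Set (Finset V)) := by
      rw [Finset.coe_insert]
    rw [h2] at h1
    refine sparse_of_indep ?_ h1
    intro e he
    rw [Finset.mem_insert] at he
    rcases he with rfl | he
    · exact hh
    · exact hB e he
  have hle : Submodule.span ℝ (rho y '' (B : Set (Finset V))) ≤
      LinearMap.ker (LinearMap.applyₗ m : ((V → Fin 2 → ℝ) →ₗ[ℝ] ℝ) →ₗ[ℝ] ℝ) := by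
    rw [Submodule.span_le]
    rintro _ ⟨e, he, rfl⟩
    rw [SetLike.mem_coe, LinearMap.mem_ker, LinearMap.applyₗ_apply_apply]
    exact hm e he
  have := hle hmem
  rw [LinearMap.mem_ker, LinearMap.applyₗ_apply_apply] at this
  exact this

end Pool.Agent.Lib.MP_5d015b_lc.JJ
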