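import Pool.Agent.Lib.MP_5d015b_lc.JJ.Basic

/-!
# Congruent frameworks which agree at two points
-/

set_option autoImplicit false
set_option linter.unusedSectionVars false

namespace Pool.Agent.Lib.MP_5d015b_lc.JJ

variable {V : Type*} [DecidableEq V]

theorem n14_aux {d0 d1 e0 e1 f0 f1 : ℝ} (h1 : e0 ^ 2 + e1 ^ 2 = f0 ^ 2 + f1 ^ 2)
    (h2 : d0 * e0 + d1 * e1 = d0 * f0 + d1 * f1)
    (hd : 0 < (d0 * e1 - d1 * e0) * (d0 * f1 - d1 * f0)) : e0 = f0 ∧ e1 = f1 := by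
  have hsq : (d0 * e1 - d1 * e0) ^ 2 = (d0 * f1 - d1 * f0) ^ 2 := by
    have e : (d0 * e1 - d1 * e0) ^ 2 = (d0 ^ 2 + d1 ^ 2) * (e0 ^ 2 + e1 ^ 2) -
      (d0 * e0 + d1 * e1) ^ 2 := by ring
    rw [e, h1, h2]
    ring
  have hdet : d0 * e1 - d1 * e0 = d0 * f1 - d1 * f0 := by
    rcases sq_eq_sq_iff_eq_or_eq_neg.1 hsq with h | h
    · exact h
    · rw [h] at hd
      nlinarith [sq_nonneg (d0 * f1 - d1 * f0)]
  have hpos : 0 < d0 ^ 2 + d1 ^ 2 := by
    by_contra hcon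
    have h0 : d0 ^ 2 + d1 ^ 2 = 0 := le_antisymm (not_lt.1 hcon) (by positivity)
    have h3 : d0 = 0 := by nlinarith [sq_nonneg d0, sq_nonneg d1]
    have h4 : d1 = 0 := by nlinarith [sq_nonneg d0, sq_nonneg d1]
    rw [h3, h4] at hd
    simp at hd
  have k0 : (d0 ^ 2 + d1 ^ 2) * (e0 - f0) = 0 := by linear_combination d0 * h2 - d1 * hdet
  have k1 : (d0 ^ 2 + d1 ^ 2) * (e1 - f1) = 0 := by linear_combination d1 * h2 + d0 * hdet
  constructor
  · have := (mul_eq_zero.1 k0).resolve_left hpos.ne'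
    linarith
  · have := (mul_eq_zero.1 k1).resolve_left hpos.ne'
    linarith

theorem eq_of_congr {z z' : V → Fin 2 → ℝ} {u v w : V} (hu : z u = z' u) (hv : z v = z' v)
    (hd : 0 < det3 z u v w * det3 z' u v w) (hc : ∀ a b, sqd z a b = sqd z' a b) : z = z' := by
  unfold det3 at hd
  unfold sqd at hc
  rw [← hu, ← hv] at hd
  have hprod : ∀ x, (z v 0 - z u 0) * (z x 0 - z u 0) + (z v 1 - z u 1) * (z x 1 - z u 1) =
      (z v 0 - z u 0) * (z' x 0 - z u 0) + (z v 1 - z u 1) * (z' x 1 - z u 1) := by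
    intro x
    have h1 := hc x u
    have h2 := hc x v
    rw [← hu] at h1
    rw [← hv] at h2
    linarith
  have hw : z w 0 - z u 0 = z' w 0 - z u 0 ∧ z w 1 - z u 1 = z' w 1 - z u 1 := by
    refine n14_aux (d0 := z v 0 - z u 0) (d1 := z v 1 - z u 1) ?_ (hprod w) hd
    have h1 := hc w u
    rw [← hu] at h1
    exact h1
  have hD : (z v 0 - z u 0) * (z w 1 - z u 1) - (z v 1 - z u 1) * (z w 0 - z u 0) ≠ 0 := by
    intro h
    rw [h] at hd
    simp at hd
  have hw0 : z' w 0 = z w 0 := by linarith [hw.1]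
  have hw1 : z' w 1 = z w 1 := by linarith [hw.2]
  funext x i
  have h1 := hprod x
  have h2 := hc x u
  have h3 := hc x w
  rw [← hu] at h2
  rw [hw0, hw1] at h3
  have h4 : (z w 0 - z u 0) * (z x 0 - z' x 0) + (z w 1 - z u 1) * (z x 1 - z' x 1) = 0 := by
    linarith
  have h5 : (z v 0 - z u 0) * (z x 0 - z' x 0) + (z v 1 - z u 1) * (z x 1 - z' x 1) = 0 := by
    linarith
  have k0 : ((z v 0 - z u 0) * (z w 1 - z u 1) - (z v 1 - z u 1) * (z w 0 - z u 0)) *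
      (z x 0 - z' x 0) = 0 := by
    linear_combination (z w 1 - z u 1) * h5 - (z v 1 - z u 1) * h4
  have k1 : ((z v 0 - z u 0) * (z w 1 - z u 1) - (z v 1 - z u 1) * (z w 0 - z u 0)) *
      (z x 1 - z' x 1) = 0 := by
    linear_combination (z v 0 - z u 0) * h4 - (z w 0 - z u 0) * h5
  have r0 := (mul_eq_zero.1 k0).resolve_left hD
  have r1 := (mul_eq_zero.1 k1).resolve_left hD
  fin_cases i
  · change z x 0 = z' x 0
    linarith
  · change z x 1 = z' x 1
    linarith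

end Pool.Agent.Lib.MP_5d015b_lc.JJ
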