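import Pool.Agent.Lib.MP_5d015b_lc.JJ.N5

/-!
# module N6. The fold
-/

set_option autoImplicit false
set_option linter.unusedSectionVars false

namespace Pool.Agent.Lib.MP_5d015b_lc.JJ

theorem fold {E ι κ : Type} [NormedAddCommGroup E] [NormedSpace ℝ E]
    [FiniteDimensional ℝ E] [Fintype κ] (hdim : Module.finrank ℝ E = Fintype.card κ + 1)
    (π : ι → E →L[ℝ] ℝ) (hπ : ∀ m, (∀ j, π j m = 0) → m = 0) {f : E → κ → ℝ}
    (hf : ContDiff ℝ 1 f) {x : E} (hx : Function.Surjective (fderiv ℝ f x)) {l : E → ℝ}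
    (hl : Continuous l) (hmax : ∀ y, f y = f x → l y ≤ l x)
    (hnc : ∀ (j : ι) (a b : ℝ) (γ : ℝ → E), a < b →
      (∀ t ∈ Set.Ioo a b, DifferentiableAt ℝ γ t ∧ f (γ t) = f x ∧ π j (γ t) = t) →
      ∃ t ∈ Set.Ioo a b, l (γ t) ≠ l x) {N : Set E} (hN : N ∈ nhds x) :
    ∃ O : Set E, IsOpen O ∧ O.Nonempty ∧ O ⊆ N ∧ ∀ z ∈ O, ∃ z' ∈ N, z' ≠ z ∧ f z' = f z ∧
      l z' = l z ∧ ∀ h : E → ℝ, (∀ y ∈ N, DifferentiableAt ℝ h y ∧
        ∀ m, fderiv ℝ f y m = 0 → fderiv ℝ h y m = 0) → h z' = h z := by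
  obtain ⟨j, ε, g, hε, hg0, hg, hgo⟩ := local_coord hdim π hπ hf hx hN
  set c₀ := f x with hc₀
  set τ₀ := π j x with hτ₀
  have hball : ∀ (c : κ → ℝ) (τ : ℝ), (c, τ) ∈ Metric.ball (c₀, τ₀) ε ↔ dist c c₀ < ε ∧ |τ - τ₀| < ε := by
    intro c τ
    rw [Metric.mem_ball, Prod.dist_eq, max_lt_iff, Real.dist_eq]
  have hcc : dist c₀ c₀ < ε := by rw [dist_self]; exact hε
  have hγd : ∀ (c : κ → ℝ) (τ : ℝ), (c, τ) ∈ Metric.ball (c₀, τ₀) ε →
      DifferentiableAt ℝ (fun s => g (c, s)) τ := by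
    intro c τ h
    have h1 := (hg _ h).2.2.2
    exact h1.comp τ ((differentiableAt_const c).prodMk differentiableAt_id)
  have hlt : ∀ τ, (c₀, τ) ∈ Metric.ball (c₀, τ₀) ε → l (g (c₀, τ)) ≤ l x :=
    fun τ h => hmax _ (hg _ h).1
  -- two points where l is smaller
  have hside : ∀ a b : ℝ, a < b → (∀ t ∈ Set.Ioo a b, |t - τ₀| < ε) →
      ∃ t ∈ Set.Ioo a b, l (g (c₀, t)) < l x := by
    intro a b hab hI
    obtain ⟨t, ht, htl⟩ := hnc j a b (fun s => g (c₀, s)) hab (by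
      intro t ht
      have hm := (hball c₀ t).2 ⟨hcc, hI t ht⟩
      exact ⟨hγd _ _ hm, (hg _ hm).1, (hg _ hm).2.1⟩)
    exact ⟨t, ht, lt_of_le_of_ne (hlt t ((hball c₀ t).2 ⟨hcc, hI t ht⟩)) htl⟩
  obtain ⟨τ₁, hτ₁, hl₁⟩ := hside (τ₀ - ε) τ₀ (by linarith) (by
    intro t ht
    rw [abs_lt]
    exact ⟨by linarith [ht.1], by linarith [ht.2]⟩)
  obtain ⟨τ₂, hτ₂, hl₂⟩ := hside τ₀ (τ₀ + ε) (by linarith) (by
    intro t ht
    rw [abs_lt]
    exact ⟨by linarith [ht.1], by linarith [ht.2]⟩)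
  have hin : ∀ (c : κ → ℝ) (τ : ℝ), dist c c₀ < ε → τ₁ ≤ τ → τ ≤ τ₂ →
      (c, τ) ∈ Metric.ball (c₀, τ₀) ε := by
    intro c τ hc h1 h2
    rw [hball]
    refine ⟨hc, ?_⟩
    rw [abs_lt]
    exact ⟨by linarith [hτ₁.1], by linarith [hτ₂.2]⟩
  have hgc : ContinuousOn g (Metric.ball (c₀, τ₀) ε) :=
    fun w hw => ((hg w hw).2.2.2).continuousAt.continuousWithinAt
  have hφc : ContinuousOn (fun w => l (g w)) (Metric.ball (c₀, τ₀) ε) :=
    hl.comp_continuousOn hgc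
  have hφc' : ∀ c, dist c c₀ < ε → ContinuousOn (fun τ => l (g (c, τ))) (Set.Icc τ₁ τ₂) := by
    intro c hc
    refine hφc.comp (Continuous.prodMk_right c).continuousOn ?_
    intro τ hτ
    exact hin c τ hc hτ.1 hτ.2
  have h10 : τ₁ < τ₀ := hτ₁.2
  have h02 : τ₀ < τ₂ := hτ₂.1
  set μ := max (l (g (c₀, τ₁))) (l (g (c₀, τ₂))) with hμ
  have hμl : μ < l x := max_lt hl₁ hl₂
  -- the base point of the open set
  have hbase : ∃ τ ∈ Set.Ioo τ₁ τ₀, l (g (c₀, τ)) = (μ + l x) / 2 := by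
    have hcont : ContinuousOn (fun τ => l (g (c₀, τ))) (Set.Icc τ₁ τ₀) :=
      (hφc' c₀ hcc).mono (Set.Icc_subset_Icc_right h02.le)
    have := intermediate_value_Ioo h10.le hcont
    have hm : (μ + l x) / 2 ∈ Set.Ioo (l (g (c₀, τ₁))) (l (g (c₀, τ₀))) := by
      have e1 : l (g (c₀, τ₁)) ≤ μ := le_max_left _ _
      rw [hg0]
      exact ⟨by linarith, by linarith⟩
    obtain ⟨τ, hτ, he⟩ := this hm
    exact ⟨τ, hτ, he⟩
  obtain ⟨τb, hτb, hlb⟩ := hbase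
  set O' : Set ((κ → ℝ) × ℝ) := {w | w ∈ Metric.ball (c₀, τ₀) ε ∧ τ₁ < w.2 ∧ w.2 < τ₀ ∧
    l (g (w.1, τ₂)) < l (g w) ∧ l (g w) < l (g (w.1, τ₀))} with hO'
  have hcfix : ∀ τ, τ₁ ≤ τ → τ ≤ τ₂ →
      ContinuousOn (fun w : (κ → ℝ) × ℝ => l (g (w.1, τ))) (Metric.ball (c₀, τ₀) ε) := by
    intro τ h1 h2
    refine hφc.comp (Continuous.prodMk_left τ |>.comp continuous_fst).continuousOn ?_
    intro w hw
    have hw' := (hball w.1 w.2).1 hw
    exact hin w.1 τ hw'.1 h1 h2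
  have hopen : IsOpen O' := by
    have e1 : IsOpen (Metric.ball (c₀, τ₀) ε ∩
        (fun w : (κ → ℝ) × ℝ => l (g w) - l (g (w.1, τ₂))) ⁻¹' (Set.Ioi 0)) :=
      (hφc.sub (hcfix τ₂ (h10.le.trans h02.le) le_rfl)).isOpen_inter_preimage Metric.isOpen_ball isOpen_Ioi
    have e2 : IsOpen (Metric.ball (c₀, τ₀) ε ∩
        (fun w : (κ → ℝ) × ℝ => l (g (w.1, τ₀)) - l (g w)) ⁻¹' (Set.Ioi 0)) :=
      ((hcfix τ₀ h10.le h02.le).sub hφc).isOpen_inter_preimage Metric.isOpen_ball isOpen_Ioi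
    have e3 : IsOpen {w : (κ → ℝ) × ℝ | τ₁ < w.2} := isOpen_lt continuous_const continuous_snd
    have e4 : IsOpen {w : (κ → ℝ) × ℝ | w.2 < τ₀} := isOpen_lt continuous_snd continuous_const
    have : O' = ((Metric.ball (c₀, τ₀) ε ∩
        (fun w : (κ → ℝ) × ℝ => l (g w) - l (g (w.1, τ₂))) ⁻¹' (Set.Ioi 0)) ∩
        (Metric.ball (c₀, τ₀) ε ∩
        (fun w : (κ → ℝ) × ℝ => l (g (w.1, τ₀)) - l (g w)) ⁻¹' (Set.Ioi 0))) ∩
        ({w : (κ → ℝ) × ℝ | τ₁ < w.2} ∩ {w : (κ → ℝ) × ℝ | w.2 < τ₀}) := by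
      ext w
      simp only [hO', Set.mem_setOf_eq, Set.mem_inter_iff, Set.mem_preimage, Set.mem_Ioi, sub_pos]
      tauto
    rw [this]
    exact (e1.inter e2).inter (e3.inter e4)
  have hO'ball : O' ⊆ Metric.ball (c₀, τ₀) ε := fun w hw => hw.1
  refine ⟨g '' O', hgo _ hO'ball hopen, ?_, ?_, ?_⟩
  · refine ⟨g (c₀, τb), (c₀, τb), ⟨hin c₀ τb hcc hτb.1.le (hτb.2.le.trans h02.le), hτb.1, hτb.2, ?_, ?_⟩, rfl⟩
    · show l (g (c₀, τ₂)) < l (g (c₀, τb))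
      have e1 : l (g (c₀, τ₂)) ≤ μ := le_max_right _ _
      rw [hlb]; linarith
    · show l (g (c₀, τb)) < l (g (c₀, τ₀))
      rw [hlb, hg0]; linarith
  · rintro _ ⟨w, hw, rfl⟩
    exact (hg w hw.1).2.2.1
  · rintro _ ⟨⟨c, τ⟩, ⟨hb, hw1, hw2, hw3, hw4⟩, rfl⟩
    simp only at hw1 hw2 hw3 hw4
    have hc : dist c c₀ < ε := ((hball c τ).1 hb).1
    obtain ⟨τ', hτ', he⟩ : ∃ τ' ∈ Set.Ioo τ₀ τ₂, l (g (c, τ')) = l (g (c, τ)) := by
      have hcont : ContinuousOn (fun τ => l (g (c, τ))) (Set.Icc τ₀ τ₂) :=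
        (hφc' c hc).mono (Set.Icc_subset_Icc_left h10.le)
      have := intermediate_value_Ioo' h02.le hcont
      have hm : l (g (c, τ)) ∈ Set.Ioo (l (g (c, τ₂))) (l (g (c, τ₀))) := ⟨hw3, hw4⟩
      obtain ⟨τ', hτ', he⟩ := this hm
      exact ⟨τ', hτ', he⟩
    have hb' : (c, τ') ∈ Metric.ball (c₀, τ₀) ε := hin c τ' hc (h10.le.trans hτ'.1.le) hτ'.2.le
    have hττ' : τ < τ' := hw2.trans hτ'.1
    refine ⟨g (c, τ'), (hg _ hb').2.2.1, ?_, ?_, he, ?_⟩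
    · intro heq
      have e1 := (hg _ hb').2.1
      have e2 := (hg _ hb).2.1
      rw [heq, e2] at e1
      simp only at e1
      exact absurd e1 hττ'.ne
    · rw [(hg _ hb').1, (hg _ hb).1]
    · intro h hh
      have hbs : ∀ s ∈ Set.Icc τ τ', (c, s) ∈ Metric.ball (c₀, τ₀) ε := fun s hs =>
        hin c s hc (hw1.le.trans hs.1) (hs.2.trans hτ'.2.le)
      have hder : ∀ s ∈ Set.Icc τ τ', HasDerivAt (fun s => h (g (c, s))) 0 s := by
        intro s hs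
        have hbs' := hbs s hs
        obtain ⟨v, hv⟩ : ∃ v, HasDerivAt (fun s => g (c, s)) v s := ⟨_, (hγd c s hbs').hasDerivAt⟩
        have hyN := (hg _ hbs').2.2.1
        have hfd : HasFDerivAt f (fderiv ℝ f (g (c, s))) (g (c, s)) :=
          (hf.differentiable one_ne_zero _).hasFDerivAt
        have h1 : HasDerivAt (fun s => f (g (c, s))) (fderiv ℝ f (g (c, s)) v) s :=
          hfd.comp_hasDerivAt s hv
        have h2 : HasDerivAt (fun s => f (g (c, s))) 0 s := by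
          refine (hasDerivAt_const s c).congr_of_eventuallyEq ?_
          have : ∀ᶠ s' in nhds s, (c, s') ∈ Metric.ball (c₀, τ₀) ε :=
            (Continuous.prodMk_right c).continuousAt.preimage_mem_nhds
              (Metric.isOpen_ball.mem_nhds hbs')
          filter_upwards [this] with s' hs'
          exact (hg _ hs').1
        have h3 := h1.unique h2
        have h4 : HasDerivAt (fun s => h (g (c, s))) (fderiv ℝ h (g (c, s)) v) s :=
          ((hh _ hyN).1.hasFDerivAt).comp_hasDerivAt s hv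
        rw [(hh _ hyN).2 v h3] at h4
        exact h4
      have hcst := constant_of_has_deriv_right_zero
        (fun s hs => (hder s hs).continuousAt.continuousWithinAt)
        (fun s hs => (hder s ⟨hs.1, hs.2.le⟩).hasDerivWithinAt)
      exact hcst τ' ⟨hττ'.le, le_rfl⟩

end Pool.Agent.Lib.MP_5d015b_lc.JJ
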