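import Pool.Agent.Lib.MP_5d015b_lc.JJ.Basic

/-!
# Module N7: derivatives of `nf`, `sqd` and `rho`
-/

set_option autoImplicit false
set_option linter.unusedSectionVars false

namespace Pool.Agent.Lib.MP_5d015b_lc.JJ

variable {V : Type*} [DecidableEq V]

/-- the coordinate difference as a continuous linear map -/
noncomputable def N7.df {V : Type} (u v : V) (i : Fin 2) : (V → Fin 2 → ℝ) →L[ℝ] ℝ :=
  (ContinuousLinearMap.proj (R := ℝ) (φ := fun _ : Fin 2 => ℝ) i).comp
      (ContinuousLinearMap.proj (R := ℝ) (φ := fun _ : V => Fin 2 → ℝ) u) -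
    (ContinuousLinearMap.proj (R := ℝ) (φ := fun _ : Fin 2 => ℝ) i).comp
      (ContinuousLinearMap.proj (R := ℝ) (φ := fun _ : V => Fin 2 → ℝ) v)

theorem N7.df_apply {V : Type} (u v : V) (i : Fin 2) (m : V → Fin 2 → ℝ) :
    N7.df u v i m = m u i - m v i := rfl

theorem N7.hasFDerivAt_sq {V : Type} [Fintype V] (u v : V) (i : Fin 2) (p : V → Fin 2 → ℝ) :
    HasFDerivAt (fun p : V → Fin 2 → ℝ => (p u i - p v i) * (p u i - p v i))
      ((p u i - p v i) • N7.df u v i + (p u i - p v i) • N7.df u v i) p := by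
  have h := (N7.df u v i).hasFDerivAt (x := p)
  have h2 := h.mul h
  exact h2

theorem N7.hasFDerivAt_pair {V : Type} [Fintype V] (u v : V) (p : V → Fin 2 → ℝ) :
    HasFDerivAt (fun p : V → Fin 2 → ℝ => (p u 0 - p v 0) * (p u 0 - p v 0) +
        (p u 1 - p v 1) * (p u 1 - p v 1))
      (((p u 0 - p v 0) • N7.df u v 0 + (p u 0 - p v 0) • N7.df u v 0) +
        ((p u 1 - p v 1) • N7.df u v 1 + (p u 1 - p v 1) • N7.df u v 1)) p :=
  (N7.hasFDerivAt_sq u v 0 p).add (N7.hasFDerivAt_sq u v 1 p)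

theorem hasFDerivAt_sqd {V : Type} [Fintype V] [DecidableEq V] (u v : V)
    (p : V → Fin 2 → ℝ) : DifferentiableAt ℝ (fun p : V → Fin 2 → ℝ => sqd p u v) p ∧
      ∀ m, fderiv ℝ (fun p : V → Fin 2 → ℝ => sqd p u v) p m = 2 * ef p u v m := by
  have h := N7.hasFDerivAt_pair u v p
  have he : (fun p : V → Fin 2 → ℝ => sqd p u v) = (fun p : V → Fin 2 → ℝ =>
      (p u 0 - p v 0) * (p u 0 - p v 0) + (p u 1 - p v 1) * (p u 1 - p v 1)) := by
    funext p
    unfold sqd
    ring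
  rw [he]
  refine ⟨h.differentiableAt, fun m => ?_⟩
  rw [h.fderiv, ef_real]
  change ((p u 0 - p v 0) * (m u 0 - m v 0) + (p u 0 - p v 0) * (m u 0 - m v 0)) +
    ((p u 1 - p v 1) * (m u 1 - m v 1) + (p u 1 - p v 1) * (m u 1 - m v 1)) = _
  ring

/-- the derivative of `rho p e p` -/
noncomputable def N7.dr {V : Type} (e : Finset V) (p : V → Fin 2 → ℝ) :
    (V → Fin 2 → ℝ) →L[ℝ] ℝ :=
  ∑ u ∈ e, ∑ v ∈ e, (((p u 0 - p v 0) • N7.df u v 0 + (p u 0 - p v 0) • N7.df u v 0) +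
        ((p u 1 - p v 1) • N7.df u v 1 + (p u 1 - p v 1) • N7.df u v 1))

theorem N7.hasFDerivAt_rho' {V : Type} [Fintype V] [DecidableEq V] (e : Finset V)
    (p : V → Fin 2 → ℝ) :
    HasFDerivAt (fun p : V → Fin 2 → ℝ => rho p e p) (N7.dr e p) p := by
  have he : (fun p : V → Fin 2 → ℝ => rho p e p) = (fun p : V → Fin 2 → ℝ =>
      ∑ u ∈ e, ∑ v ∈ e, ((p u 0 - p v 0) * (p u 0 - p v 0) +
        (p u 1 - p v 1) * (p u 1 - p v 1))) := by
    funext p
    rw [rho_apply]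
  rw [he]
  unfold N7.dr
  exact HasFDerivAt.fun_sum fun u _ => HasFDerivAt.fun_sum fun v _ => N7.hasFDerivAt_pair u v p

theorem N7.dr_apply {V : Type} [Fintype V] [DecidableEq V] (e : Finset V)
    (p m : V → Fin 2 → ℝ) : N7.dr e p m = 2 * rho p e m := by
  unfold N7.dr
  rw [rho_apply, _root_.sum_apply, Finset.mul_sum]
  refine Finset.sum_congr rfl fun u _ => ?_
  rw [_root_.sum_apply, Finset.mul_sum]
  refine Finset.sum_congr rfl fun v _ => ?_
  change ((p u 0 - p v 0) * (m u 0 - m v 0) + (p u 0 - p v 0) * (m u 0 - m v 0)) +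
    ((p u 1 - p v 1) * (m u 1 - m v 1) + (p u 1 - p v 1) * (m u 1 - m v 1)) = _
  ring

theorem hasFDerivAt_rho {V : Type} [Fintype V] [DecidableEq V] (e : Finset V)
    (p : V → Fin 2 → ℝ) : DifferentiableAt ℝ (fun p : V → Fin 2 → ℝ => rho p e p) p ∧
      ∀ m, fderiv ℝ (fun p : V → Fin 2 → ℝ => rho p e p) p m = 2 * rho p e m := by
  have h := N7.hasFDerivAt_rho' e p
  exact ⟨h.differentiableAt, fun m => by rw [h.fderiv, N7.dr_apply]⟩

theorem nf_contDiff {V : Type} [Fintype V] [DecidableEq V] (B : Finset (Finset V)) (u v : V) :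
    ContDiff ℝ 1 (nf B u v) := by
  rw [contDiff_pi]
  intro k
  rcases k with e | i
  · have he : (fun p : V → Fin 2 → ℝ => nf B u v p (Sum.inl e)) = (fun p : V → Fin 2 → ℝ =>
      ∑ u ∈ (e : Finset V), ∑ v ∈ (e : Finset V), ((p u 0 - p v 0) * (p u 0 - p v 0) +
        (p u 1 - p v 1) * (p u 1 - p v 1))) := by
      funext p
      change rho p (e : Finset V) p = _
      rw [rho_apply]
    rw [he]
    fun_prop
  · fin_cases i
    · change ContDiff ℝ 1 (fun p : V → Fin 2 → ℝ => p u 0)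
      fun_prop
    · change ContDiff ℝ 1 (fun p : V → Fin 2 → ℝ => p u 1)
      fun_prop
    · change ContDiff ℝ 1 (fun p : V → Fin 2 → ℝ => p v 1)
      fun_prop

theorem fderiv_nf {V : Type} [Fintype V] [DecidableEq V] (B : Finset (Finset V)) (u v : V)
    (p m : V → Fin 2 → ℝ) : fderiv ℝ (nf B u v) p m = nfM B u v p m := by
  have hd : DifferentiableAt ℝ (nf B u v) p :=
    ((nf_contDiff B u v).differentiable (by norm_num)).differentiableAt
  funext k
  have h1 := (hasFDerivAt_pi'.mp hd.hasFDerivAt k)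
  have h2 : fderiv ℝ (fun x => nf B u v x k) p m = fderiv ℝ (nf B u v) p m k := by
    rw [h1.fderiv]
    rfl
  rw [← h2]
  rcases k with e | i
  · change fderiv ℝ (fun x => rho x (e : Finset V) x) p m = (2 : ℝ) • rhoM p (e : Finset V) m
    rw [(hasFDerivAt_rho (e : Finset V) p).2 m, rhoM_real, smul_eq_mul]
  · have key : ∀ (w : V) (j : Fin 2),
        fderiv ℝ (fun x : V → Fin 2 → ℝ => x w j) p m = m w j := by
      intro w j
      have h3 := ((ContinuousLinearMap.proj (R := ℝ) (φ := fun _ : Fin 2 => ℝ) j).comp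
        (ContinuousLinearMap.proj (R := ℝ) (φ := fun _ : V => Fin 2 → ℝ) w)).hasFDerivAt (x := p)
      have h4 : HasFDerivAt (fun x : V → Fin 2 → ℝ => x w j)
        ((ContinuousLinearMap.proj (R := ℝ) (φ := fun _ : Fin 2 => ℝ) j).comp
        (ContinuousLinearMap.proj (R := ℝ) (φ := fun _ : V => Fin 2 → ℝ) w)) p := h3
      rw [h4.fderiv]
      rfl
    fin_cases i
    · exact key u 0
    · exact key u 1
    · exact key v 1

theorem dR_nf (B : Finset (Finset V)) (u v : V) (p : V → Fin 2 → ℝ) (k : ↥B ⊕ Fin 3) :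
    dR (nf B u v p k) = nfM B u v p (fun w i => dR (p w i)) k := by
  rcases k with e | i
  · exact dR_rho p (e : Finset V)
  · fin_cases i <;> rfl

theorem nfM_map {M M' : Type*} [AddCommGroup M] [Module ℝ M] [AddCommGroup M'] [Module ℝ M']
    (f : M →ₗ[ℝ] M') (B : Finset (Finset V)) (u v : V) (p : V → Fin 2 → ℝ) (m : V → Fin 2 → M)
    (k : ↥B ⊕ Fin 3) : f (nfM B u v p m k) = nfM B u v p (fun w i => f (m w i)) k := by
  rcases k with e | i
  · change f ((2 : ℝ) • rhoM p (e : Finset V) m) = (2 : ℝ) • rhoM p (e : Finset V) _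
    rw [map_smul, rhoM_map]
  · fin_cases i <;> rfl

end Pool.Agent.Lib.MP_5d015b_lc.JJ
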