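import Pool.Agent.Lib.MP_5d015b_lc.JJ.N4
import Pool.Agent.Lib.MP_5d015b_lc.JJ.N7

/-!
# Module N9: a point of the fibre with maximal distance of `u` and `v`
-/

set_option autoImplicit false
set_option linter.unusedSectionVars false

namespace Pool.Agent.Lib.MP_5d015b_lc.JJ

theorem nf_exists_max {V : Type} [Fintype V] [DecidableEq V] {B : Finset (Finset V)}
    (hS : Sparse B) (hc : B.card + 4 = 2 * Fintype.card V) (h3 : 3 ≤ Fintype.card V) (u v : V)
    (p₀ : V → Fin 2 → ℝ) : ∃ x, nf B u v x = nf B u v p₀ ∧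
      ∀ y, nf B u v y = nf B u v p₀ → sqd y u v ≤ sqd x u v := by
  obtain ⟨C, hC⟩ := nf_bounded hS hc h3 u v (nf B u v p₀)
  have hcont : Continuous (nf B u v) := (nf_contDiff B u v).continuous
  have hclosed : IsClosed {x | nf B u v x = nf B u v p₀} := isClosed_eq hcont continuous_const
  have hsub : {x | nf B u v x = nf B u v p₀} ⊆ Metric.closedBall 0 (max C 0) := by
    intro x hx
    rw [Metric.mem_closedBall, dist_zero_right]
    rw [pi_norm_le_iff_of_nonneg (le_max_right _ _)]
    intro w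
    rw [pi_norm_le_iff_of_nonneg (le_max_right _ _)]
    intro i
    rw [Real.norm_eq_abs]
    exact (hC x hx w i).trans (le_max_left _ _)
  have hcpt : IsCompact {x | nf B u v x = nf B u v p₀} :=
    (isCompact_closedBall _ _).of_isClosed_subset hclosed hsub
  have hs : Continuous (fun p : V → Fin 2 → ℝ => sqd p u v) := by
    unfold sqd
    fun_prop
  obtain ⟨x, hx, hmax⟩ := hcpt.exists_isMaxOn ⟨p₀, rfl⟩ hs.continuousOn
  exact ⟨x, hx, fun y hy => hmax hy⟩

end Pool.Agent.Lib.MP_5d015b_lc.JJ
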