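import Pool.Agent.Lib.MP_5d015b_lc.JJ.N12
import Pool.Agent.Lib.MP_5d015b_lc.JJ.A3
import Pool.Agent.Lib.MP_5d015b_lc.JJ.N6
import Pool.Agent.Lib.MP_5d015b_lc.JJ.N9
import Pool.Agent.Lib.MP_5d015b_lc.JJ.N10
import Pool.Agent.Lib.MP_5d015b_lc.JJ.N11
import Pool.Agent.Lib.MP_5d015b_lc.JJ.N13
import Pool.Agent.Lib.MP_5d015b_lc.JJ.N14

/-!
# module N15. A generic point which is not globally rigid
-/

set_option autoImplicit false
set_option linter.unusedSectionVars false

namespace Pool.Agent.Lib.MP_5d015b_lc.JJ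

theorem n15_det3_cont {V : Type} [Fintype V] [DecidableEq V] (u v w : V) :
    Continuous (fun y : V → Fin 2 → ℝ => det3 y u v w) := by
  unfold det3
  fun_prop

theorem n15_sqd_cont {V : Type} [Fintype V] [DecidableEq V] (u v : V) :
    Continuous (fun y : V → Fin 2 → ℝ => sqd y u v) := by
  unfold sqd
  fun_prop

theorem nec_core {V : Type} [Fintype V] [DecidableEq V] {L E : Finset (Finset V)}
    (hG : IsGraph Finset.univ L) (hS : Sparse L) (hc : L.card + 3 = 2 * Fintype.card V)
    (h4 : 4 ≤ Fintype.card V) {u v : V} (huv : u ≠ v) (hL : ({u, v} : Finset V) ∈ L)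
    (hGE : IsGraph Finset.univ E)
    (hE : ∀ h ∈ E, h = {u, v} ∨ h ∈ L.erase {u, v} ∨ ¬ Sparse (insert h (L.erase {u, v}))) :
    ∃ p q : V → Fin 2 → ℝ, Gen Finset.univ p ∧ SameLen E p q ∧ ∃ a b, sqd p a b ≠ sqd q a b := by
  classical
  have hcard : (L.erase {u, v}).card + 1 = L.card := Finset.card_erase_add_one hL
  have hSB : Sparse (L.erase {u, v}) := hS.mono (Finset.erase_subset _ _)
  have hB2 : ∀ e ∈ L.erase {u, v}, e.card = 2 := fun e he => hG.card_two e (Finset.mem_of_mem_erase he)
  obtain ⟨p₀, -, hp₀⟩ := exists_gen_mem (V := V) isOpen_univ Set.univ_nonempty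
  obtain ⟨x, hx, hxmax⟩ := nf_exists_max hSB (by omega) (by omega) u v p₀
  have hind : LinearIndependent ℝ (fun k => dR (nf (L.erase {u, v}) u v x k)) := by
    rw [hx]
    exact nf_indep_gen hG hS hc (by omega) huv hL hp₀
  have hsurj := nf_surj hind
  set B := L.erase {u, v} with hB
  have hx0 : x u 0 = p₀ u 0 := congrFun hx (Sum.inr 0)
  have hx1 : x u 1 = p₀ u 1 := congrFun hx (Sum.inr 1)
  have hx2 : x v 1 = p₀ v 1 := congrFun hx (Sum.inr 2)
  have hne0 : x u 0 - x v 0 ≠ 0 := by
    have h1 := hxmax p₀ rfl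
    unfold sqd at h1
    rw [hx1, hx2] at h1
    have h2 := gen_ne hp₀ (Finset.mem_univ u) (Finset.mem_univ v) huv 0
    have h3 : 0 < (p₀ u 0 - p₀ v 0) ^ 2 := by
      have := sub_ne_zero.2 h2
      positivity
    intro h0
    rw [h0] at h1
    nlinarith
  have hxne : x u ≠ x v := fun h => hne0 (by rw [h, sub_self])
  obtain ⟨w, hw⟩ := nf_noncol (by omega) h4 (rows_of_surj hsurj) hxne
  -- the neighbourhood
  set N : Set (V → Fin 2 → ℝ) := {y | Function.Surjective (fun m : V → Fin 2 → ℝ => nfM B u v y m) ∧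
    0 < (y u 0 - y v 0) * (x u 0 - x v 0) ∧ 0 < det3 y u v w * det3 x u v w} with hN
  have hNx : N ∈ nhds x := by
    have e1 := surj_nhds hsurj
    have e2 : ∀ᶠ y in nhds x, 0 < (y u 0 - y v 0) * (x u 0 - x v 0) := by
      have hcont : Continuous (fun y : V → Fin 2 → ℝ => (y u 0 - y v 0) * (x u 0 - x v 0)) := by
        fun_prop
      exact (isOpen_lt continuous_const hcont).mem_nhds (mul_self_pos.2 hne0)
    have e3 : ∀ᶠ y in nhds x, 0 < det3 y u v w * det3 x u v w := by
      have hcont : Continuous (fun y : V → Fin 2 → ℝ => det3 y u v w * det3 x u v w) :=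
        (n15_det3_cont u v w).mul continuous_const
      exact (isOpen_lt continuous_const hcont).mem_nhds (mul_self_pos.2 hw)
    filter_upwards [e1, e2, e3] with y h1 h2 h3
    exact ⟨h1, h2, h3⟩
  have hfs : Function.Surjective (fderiv ℝ (nf B u v) x) := by
    intro c
    obtain ⟨m, hm⟩ := hsurj c
    exact ⟨m, (fderiv_nf B u v x m).trans hm⟩
  have hdim : Module.finrank ℝ (V → Fin 2 → ℝ) = Fintype.card (↥B ⊕ Fin 3) + 1 := by
    rw [Fintype.card_sum, Fintype.card_coe, Fintype.card_fin, Module.finrank_pi_fintype]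
    simp only [Module.finrank_fintype_fun_eq_card, Fintype.card_fin, Finset.sum_const,
      Finset.card_univ, smul_eq_mul]
    omega
  obtain ⟨O, hO, hOne, hON, hOz⟩ := fold hdim
    (fun j : V × Fin 2 => (ContinuousLinearMap.proj (R := ℝ) (φ := fun _ : Fin 2 => ℝ) j.2).comp
      (ContinuousLinearMap.proj (R := ℝ) (φ := fun _ : V => Fin 2 → ℝ) j.1))
    (by
      intro m hm
      funext w i
      exact hm (w, i))
    (nf_contDiff B u v) hfs (n15_sqd_cont u v)
    (fun y hy => hxmax y (hy.trans hx))
    (by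
      intro j a b γ hab hγ
      exact nf_hnc hG hS hc (by omega) huv hL hp₀ hx j a b γ hab hγ)
    hNx
  obtain ⟨z, hzO, hz⟩ := exists_gen_mem hO hOne
  obtain ⟨z', hz'N, hne, hf, hl, hh⟩ := hOz z hzO
  have hzN := hON hzO
  refine ⟨z, z', hz, ?_, ?_⟩
  · intro s t hst
    have hst' : s ≠ t := by
      rintro rfl
      have := hGE.card_two _ hst
      simp at this
    rcases hE _ hst with h1 | h1 | h1
    · have hs : s = u ∨ s = v := by
        have : s ∈ ({u, v} : Finset V) := h1 ▸ Finset.mem_insert_self s {t}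
        simpa using this
      have ht : t = u ∨ t = v := by
        have : t ∈ ({u, v} : Finset V) := h1 ▸ Finset.mem_insert_of_mem (Finset.mem_singleton_self t)
        simpa using this
      rcases hs with rfl | rfl <;> rcases ht with rfl | rfl
      · exact absurd rfl hst'
      · exact hl.symm
      · rw [sqd_comm z, sqd_comm z']
        exact hl.symm
      · exact absurd rfl hst'
    · have h2 : rho z' {s, t} z' = rho z {s, t} z := congrFun hf (Sum.inl ⟨{s, t}, h1⟩)
      rw [rho_self_pair _ hst', rho_self_pair _ hst'] at h2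
      linarith
    · have h2 := hh (fun p => rho p {s, t} p) (by
        intro y hy
        obtain ⟨h3, h4⟩ := hasFDerivAt_rho ({s, t} : Finset V) y
        refine ⟨h3, fun m hm => ?_⟩
        rw [h4]
        rw [fderiv_nf] at hm
        have h5 : ∀ e ∈ B, rho y e m = 0 := by
          intro e he
          have h6 : (2 : ℝ) • rhoM y (e : Finset V) m = 0 := congrFun hm (Sum.inl ⟨e, he⟩)
          rw [rhoM_real, smul_eq_mul] at h6
          linarith
        rw [ker_cl hB2 (hGE.card_two _ hst) h1 (rows_of_surj hy.1) h5, mul_zero])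
      have h3 : rho z' {s, t} z' = rho z {s, t} z := h2
      rw [rho_self_pair _ hst', rho_self_pair _ hst'] at h3
      linarith
  · by_contra hcon
    push Not at hcon
    have g0 : z' u 0 = z u 0 := congrFun hf (Sum.inr 0)
    have g1 : z' u 1 = z u 1 := congrFun hf (Sum.inr 1)
    have g2 : z' v 1 = z v 1 := congrFun hf (Sum.inr 2)
    have hu : z u = z' u := by
      funext i
      fin_cases i
      · exact g0.symm
      · exact g1.symm
    have hv0 : z v 0 = z' v 0 := by
      have h1 : sqd z' u v = sqd z u v := hl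
      unfold sqd at h1
      rw [g1, g2, g0] at h1
      have h2 := hzN.2.1
      have h3 := hz'N.2.1
      rw [g0] at h3
      have h5 : (z u 0 - z' v 0 - (z u 0 - z v 0)) * (z u 0 - z' v 0 + (z u 0 - z v 0)) = 0 := by
        linarith
      rcases mul_eq_zero.1 h5 with h6 | h6
      · linarith
      · exfalso
        have h7 : z u 0 - z' v 0 = -(z u 0 - z v 0) := by linarith
        rw [h7] at h3
        linarith
    have hv : z v = z' v := by
      funext i
      fin_cases i
      · exact hv0
      · exact g2.symm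
    have hd : 0 < det3 z u v w * det3 z' u v w := by
      have h2 := hzN.2.2
      have h3 := hz'N.2.2
      have h5 := mul_pos h2 h3
      have h6 : det3 z u v w * det3 x u v w * (det3 z' u v w * det3 x u v w) =
        (det3 z u v w * det3 z' u v w) * (det3 x u v w) ^ 2 := by ring
      rw [h6] at h5
      exact (pos_iff_pos_of_mul_pos h5).2 (by positivity)
    exact hne (eq_of_congr hu hv hd hcon).symm

end Pool.Agent.Lib.MP_5d015b_lc.JJ
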