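import Pool.Agent.Lib.MP_5d015b_lc.JJ.N1

/-!
# module N2. Separation by two vertices
-/

set_option autoImplicit false
set_option linter.unusedSectionVars false

namespace Pool.Agent.Lib.MP_5d015b_lc.JJ

/-- reflection: distances inside -/
theorem n2_in {d0 d1 x y x' y' k k' : ℝ} (h : k * (d0 ^ 2 + d1 ^ 2) = 2 * (x * d0 + y * d1))
    (h' : k' * (d0 ^ 2 + d1 ^ 2) = 2 * (x' * d0 + y' * d1)) :
    ((k * d0 - x) - (k' * d0 - x')) ^ 2 + ((k * d1 - y) - (k' * d1 - y')) ^ 2 =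
      (x - x') ^ 2 + (y - y') ^ 2 := by
  linear_combination (k - k') * (h - h')

theorem n2_out {d0 d1 x y x' y' k : ℝ} (h : k * (d0 ^ 2 + d1 ^ 2) = 2 * (x * d0 + y * d1)) :
    (d0 ^ 2 + d1 ^ 2) * (((k * d0 - x) - x') ^ 2 + ((k * d1 - y) - y') ^ 2 -
      ((x - x') ^ 2 + (y - y') ^ 2)) = 4 * ((d0 * y - d1 * x) * (d0 * y' - d1 * x')) := by
  linear_combination (k * (d0 ^ 2 + d1 ^ 2) - 2 * (d0 * x' + d1 * y')) * h

theorem nec_two {V : Type} [Fintype V] [DecidableEq V] {E : Finset (Finset V)}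
    (hG : IsGraph Finset.univ E) (h : GRon Finset.univ E) {Y : Finset V} (hY : Y.Nonempty)
    (hne : Y ∪ nb E Y ≠ Finset.univ) (h1 : (nb E Y).card = 2) : False := by
  classical
  obtain ⟨p, -, hp⟩ := exists_gen_mem (V := V) isOpen_univ Set.univ_nonempty
  obtain ⟨y, hy⟩ := hY
  obtain ⟨z, hz⟩ : ∃ z, z ∉ Y ∪ nb E Y := by
    by_contra hcon
    push Not at hcon
    exact hne (Finset.eq_univ_iff_forall.2 hcon)
  rw [Finset.mem_union, not_or] at hz
  obtain ⟨a, b, hab, hnb⟩ := Finset.card_eq_two.1 h1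
  have ha : a ∈ nb E Y := by rw [hnb]; exact Finset.mem_insert_self _ _
  have hb : b ∈ nb E Y := by rw [hnb]; exact Finset.mem_insert_of_mem (Finset.mem_singleton_self _)
  have haY : a ∉ Y := by unfold nb at ha; exact (Finset.mem_sdiff.1 ha).2
  have hbY : b ∉ Y := by unfold nb at hb; exact (Finset.mem_sdiff.1 hb).2
  have hay : a ≠ y := fun e => haY (e ▸ hy)
  have hby : b ≠ y := fun e => hbY (e ▸ hy)
  have haz : a ≠ z := fun e => hz.2 (e ▸ ha)
  have hbz : b ≠ z := fun e => hz.2 (e ▸ hb)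
  set d0 := p b 0 - p a 0 with hd0
  set d1 := p b 1 - p a 1 with hd1
  have hd0n : d0 ≠ 0 := sub_ne_zero.2 (gen_ne hp (Finset.mem_univ b) (Finset.mem_univ a) hab.symm 0)
  have hD : d0 ^ 2 + d1 ^ 2 ≠ 0 := by positivity
  set k : V → ℝ := fun w => 2 * ((p w 0 - p a 0) * d0 + (p w 1 - p a 1) * d1) / (d0 ^ 2 + d1 ^ 2) with hk
  have hkD : ∀ w, k w * (d0 ^ 2 + d1 ^ 2) = 2 * ((p w 0 - p a 0) * d0 + (p w 1 - p a 1) * d1) := by
    intro w
    rw [hk]
    exact div_mul_cancel₀ _ hD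
  set q : V → Fin 2 → ℝ := fun w => if w ∈ Y then
    ![p a 0 + (k w * d0 - (p w 0 - p a 0)), p a 1 + (k w * d1 - (p w 1 - p a 1))] else p w with hq
  have hqY0 : ∀ w ∈ Y, q w 0 = p a 0 + (k w * d0 - (p w 0 - p a 0)) := by
    intro w hw; rw [hq]; simp only [hw, if_true]; rfl
  have hqY1 : ∀ w ∈ Y, q w 1 = p a 1 + (k w * d1 - (p w 1 - p a 1)) := by
    intro w hw; rw [hq]; simp only [hw, if_true]; rfl
  have hqn : ∀ w, w ∉ Y → q w = p w := by
    intro w hw; rw [hq]; simp only [hw, if_false]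
  have hka : k a = 0 := by
    have := hkD a
    rw [sub_self, sub_self, zero_mul, zero_mul, add_zero, mul_zero] at this
    exact (mul_eq_zero.1 this).resolve_right hD
  have hkb : k b = 2 := by
    have := hkD b
    have h2 : k b * (d0 ^ 2 + d1 ^ 2) = 2 * (d0 ^ 2 + d1 ^ 2) := by
      rw [this]; ring
    exact mul_right_cancel₀ hD h2
  -- mixed edges
  have hmix : ∀ s ∈ Y, ∀ t ∉ Y, ({s, t} : Finset V) ∈ E → sqd p s t = sqd q s t := by
    intro s hs t ht hst
    have htn := n1_mem_nb hs ht hst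
    rw [hnb, Finset.mem_insert, Finset.mem_singleton] at htn
    unfold sqd
    rw [hqY0 s hs, hqY1 s hs, hqn t ht]
    rcases htn with rfl | rfl
    · have := n2_in (hkD s) (hkD t)
      rw [hka] at this
      linarith
    · have := n2_in (hkD s) (hkD t)
      rw [hkb] at this
      have e0 : p t 0 - p a 0 = d0 := rfl
      have e1 : p t 1 - p a 1 = d1 := rfl
      have e0' : p t 0 = p a 0 + d0 := by rw [← e0]; ring
      have e1' : p t 1 = p a 1 + d1 := by rw [← e1]; ring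
      rw [e0, e1] at this
      rw [e0', e1']
      linarith
  have hsame : SameLen E p q := by
    intro s t hst
    by_cases hs : s ∈ Y
    · by_cases ht : t ∈ Y
      · unfold sqd
        rw [hqY0 s hs, hqY1 s hs, hqY0 t ht, hqY1 t ht]
        have := n2_in (hkD s) (hkD t)
        linarith
      · exact hmix s hs t ht hst
    · by_cases ht : t ∈ Y
      · rw [sqd_comm p, sqd_comm q]
        rw [Finset.pair_comm] at hst
        exact hmix t ht s hs hst
      · unfold sqd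
        rw [hqn s hs, hqn t ht]
  have heq := h p q hp hsame y (Finset.mem_univ _) z (Finset.mem_univ _)
  unfold sqd at heq
  rw [hqY0 y hy, hqY1 y hy, hqn z hz.1] at heq
  have hout := n2_out (x' := p z 0 - p a 0) (y' := p z 1 - p a 1) (hkD y)
  have hzero : ((k y * d0 - (p y 0 - p a 0)) - (p z 0 - p a 0)) ^ 2 +
      ((k y * d1 - (p y 1 - p a 1)) - (p z 1 - p a 1)) ^ 2 -
      (((p y 0 - p a 0) - (p z 0 - p a 0)) ^ 2 + ((p y 1 - p a 1) - (p z 1 - p a 1)) ^ 2) = 0 := by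
    linarith
  rw [hzero, mul_zero] at hout
  have hy3 := gen_det3 hp (Finset.mem_univ a) (Finset.mem_univ b) (Finset.mem_univ y) hab hby hay
  have hz3 := gen_det3 hp (Finset.mem_univ a) (Finset.mem_univ b) (Finset.mem_univ z) hab hbz haz
  unfold det3 at hy3 hz3
  have : (d0 * (p y 1 - p a 1) - d1 * (p y 0 - p a 0)) * (d0 * (p z 1 - p a 1) - d1 * (p z 0 - p a 0)) = 0 := by
    linarith
  rcases mul_eq_zero.1 this with h0 | h0
  · exact hy3 h0
  · exact hz3 h0

end Pool.Agent.Lib.MP_5d015b_lc.JJ
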