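import Pool.Agent.Lib.MP_5d015b_lc.JJ.Basic
import Pool.Agent.Lib.MP_5d015b_lc.SP2

/-! # Module N3 -/

set_option autoImplicit false
set_option linter.unusedSectionVars false

namespace Pool.Agent.Lib.MP_5d015b_lc.JJ

variable {V : Type*} [DecidableEq V]

theorem n3_clique_full {W : Finset V} {L : Finset (Finset V)} (h2 : 2 ≤ W.card)
    (hL : MaxSp (clique W) L) : L.card + 3 = 2 * W.card := by
  classical
  have hcl : ∀ e ∈ clique W, e.card = 2 := fun e he => (Finset.mem_powersetCard.1 he).2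
  have hLW : ∀ e ∈ L, e ⊆ W := fun e he => (Finset.mem_powersetCard.1 (hL.1 he)).1
  have hpair : ∀ u ∈ W, ∀ v ∈ W, u ≠ v → ∃ X, Tight L X ∧ u ∈ X ∧ v ∈ X := by
    intro u hu v hv huv
    have he : ({u, v} : Finset V) ∈ clique W := by
      rw [clique, Finset.mem_powersetCard]
      refine ⟨?_, Finset.card_pair huv⟩
      intro x hx
      rw [Finset.mem_insert, Finset.mem_singleton] at hx
      rcases hx with rfl | rfl
      · exact hu
      · exact hv
    obtain ⟨X, hX, heX⟩ := exists_tight hL hcl he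
    exact ⟨X, hX, heX (by simp), heX (by simp)⟩
  obtain ⟨p, hp, q, hq, hpq⟩ := Finset.one_lt_card.1 (show 1 < W.card by omega)
  have hb : ∀ X, Tight L X → X.card ≤ L.card + 3 := by
    intro X hX
    have h1 := hX.2
    have h3 : (ins L X).card ≤ L.card := Finset.card_le_card (Finset.filter_subset _ _)
    omega
  let P : ℕ → Prop := fun k => ∃ X, Tight L X ∧ p ∈ X ∧ q ∈ X ∧ X.card = k
  obtain ⟨X0, hX0, hpX0, hqX0⟩ := hpair p hp q hq hpq
  have hP0 : P X0.card := ⟨X0, hX0, hpX0, hqX0, rfl⟩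
  have hPg : P (Nat.findGreatest P (L.card + 3)) :=
    Nat.findGreatest_spec (hb X0 hX0) hP0
  obtain ⟨Z, hZ, hpZ, hqZ, hZc⟩ := hPg
  have hmax : ∀ X, Tight L X → Z ⊆ X → X = Z := by
    intro X hX hZX
    have h1 : X.card ≤ Nat.findGreatest P (L.card + 3) :=
      Nat.le_findGreatest (hb X hX) ⟨X, hX, hZX hpZ, hZX hqZ, rfl⟩
    exact (Finset.eq_of_subset_of_card_le hZX (by omega)).symm
  have hWZ : W ⊆ Z := clique_in hL.2.1 hZ hmax hp hq hpq hpZ hqZ hpair
  have h3 : ins L Z = L := by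
    ext e
    rw [mem_ins]
    exact ⟨fun h => h.1, fun h => ⟨h, (hLW e h).trans hWZ⟩⟩
  have h4 : ins L W = L := by
    ext e
    rw [mem_ins]
    exact ⟨fun h => h.1, fun h => ⟨h, hLW e h⟩⟩
  have h5 := hZ.2
  rw [h3] at h5
  have h6 := hL.2.1.2 W h2
  rw [h4] at h6
  have h7 := Finset.card_le_card hWZ
  omega

theorem exists_LB {W : Finset V} {E : Finset (Finset V)} (hG : IsGraph W E) (h2 : 2 ≤ W.card)
    {e₀ : Finset V} (he : e₀ ∈ E) (hn : ¬ Rigid W (E.erase e₀)) :
    ∃ L, ∃ g ∈ L, L ⊆ clique W ∧ Sparse L ∧ L.card + 3 = 2 * W.card ∧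
      ∀ h ∈ E, h = g ∨ h ∈ L.erase g ∨ ¬ Sparse (insert h (L.erase g)) := by
  classical
  have hEc : E ⊆ clique W := fun e h => Finset.mem_powersetCard.2 ⟨hG.sub e h, hG.card_two e h⟩
  have hemp : Sparse (∅ : Finset (Finset V)) := by
    refine ⟨by simp, ?_⟩
    intro X hX
    have : ins (∅ : Finset (Finset V)) X = ∅ := by
      ext e
      rw [mem_ins]
      simp
    rw [this, Finset.card_empty]
    omega
  obtain ⟨D, -, hD⟩ := exists_maxSp (E := E.erase e₀) hemp (Finset.empty_subset _)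
  have he₀D : e₀ ∉ D := fun h => Finset.notMem_erase e₀ E (hD.1 h)
  have hDE : D ⊆ E := hD.1.trans (Finset.erase_subset _ _)
  have hDc : D.card + 3 < 2 * W.card := by
    have h4 : ins D W = D := by
      ext e
      rw [mem_ins]
      exact ⟨fun h => h.1, fun h => ⟨h, hG.sub e (hDE h)⟩⟩
    have h6 := hD.2.1.2 W h2
    rw [h4] at h6
    have h7 : D.card + 3 ≠ 2 * W.card := fun h => hn ⟨D, hD.1, hD.2.1, h⟩
    omega
  have hmono : ∀ (L : Finset (Finset V)) (h : Finset V), D ⊆ L → ¬ Sparse (insert h D) →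
      ¬ Sparse (insert h L) := by
    intro L h hDL hnot hs
    exact hnot (hs.mono (Finset.insert_subset_insert _ hDL))
  by_cases hsp : Sparse (insert e₀ D)
  · obtain ⟨L, hDL, hL⟩ := exists_maxSp hsp
      (Finset.insert_subset (hEc he) (hDE.trans hEc))
    refine ⟨L, e₀, hDL (Finset.mem_insert_self _ _), hL.1, hL.2.1, n3_clique_full h2 hL, ?_⟩
    have hDL' : D ⊆ L.erase e₀ := by
      intro e h
      exact Finset.mem_erase.2 ⟨fun hh => he₀D (hh ▸ h), hDL (Finset.mem_insert_of_mem h)⟩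
    intro h hh
    by_cases h0 : h = e₀
    · exact Or.inl h0
    by_cases h1 : h ∈ D
    · exact Or.inr (Or.inl (hDL' h1))
    · exact Or.inr (Or.inr (hmono _ h hDL' (hD.2.2 h (Finset.mem_erase.2 ⟨h0, hh⟩) h1)))
  · obtain ⟨L, hDL, hL⟩ := exists_maxSp hD.2.1 (hDE.trans hEc)
    have hLc := n3_clique_full h2 hL
    obtain ⟨g, hgL, hgD⟩ : ∃ g ∈ L, g ∉ D := by
      by_contra hcon
      push Not at hcon
      have := Finset.card_le_card hcon
      omega
    refine ⟨L, g, hgL, hL.1, hL.2.1, hLc, ?_⟩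
    have hDL' : D ⊆ L.erase g := by
      intro e h
      exact Finset.mem_erase.2 ⟨fun hh => hgD (hh ▸ h), hDL h⟩
    intro h hh
    by_cases h1 : h ∈ D
    · exact Or.inr (Or.inl (hDL' h1))
    · refine Or.inr (Or.inr (hmono _ h hDL' ?_))
      by_cases h0 : h = e₀
      · rw [h0]; exact hsp
      · exact hD.2.2 h (Finset.mem_erase.2 ⟨h0, hh⟩) h1

end Pool.Agent.Lib.MP_5d015b_lc.JJ
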