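import Pool.Agent.Lib.MP_5d015b_lc.JJ.N1
import Pool.Agent.Lib.MP_5d015b_lc.JJ.N2
import Pool.Agent.Lib.MP_5d015b_lc.JJ.N3
import Pool.Agent.Lib.MP_5d015b_lc.JJ.N15
import Pool.Agent.Lib.MP_5d015b_lc.NBS

/-!
# N16: necessity
-/

set_option autoImplicit false
set_option linter.unusedSectionVars false

namespace Pool.Agent.Lib.MP_5d015b_lc.JJ

theorem nec {V : Type} [Fintype V] [DecidableEq V] {E : Finset (Finset V)}
    (hG : IsGraph Finset.univ E) (h : GRon Finset.univ E) : GR Finset.univ E := by
  by_cases h3 : (Finset.univ : Finset V).card ≤ 3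
  · left
    refine ⟨h3, fun e he => ?_⟩
    rw [mem_clique_iff] at he
    obtain ⟨x, y, hxy, rfl⟩ := Finset.card_eq_two.1 he.2
    by_contra hE
    have hy : y ∉ ({x} : Finset V) ∪ nb E {x} := by
      rw [Finset.mem_union, mem_nb hG]
      rintro (hy | ⟨-, u, hu, hE'⟩)
      · exact hxy (Finset.mem_singleton.1 hy).symm
      · rw [Finset.mem_singleton] at hu
        subst hu
        exact hE hE'
    refine nec_one hG h (Finset.singleton_nonempty x) (fun hu => hy (hu ▸ Finset.mem_univ y)) ?_
    have hsub : nb E {x} ⊆ (Finset.univ.erase x).erase y := by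
      intro z hz
      rw [Finset.mem_erase, Finset.mem_erase]
      refine ⟨?_, ?_, Finset.mem_univ z⟩
      · rintro rfl
        exact hy (Finset.mem_union_right _ hz)
      · rintro rfl
        rw [mem_nb hG] at hz
        exact hz.1 (Finset.mem_singleton_self _)
    have h1 := Finset.card_le_card hsub
    rw [Finset.card_erase_of_mem, Finset.card_erase_of_mem (Finset.mem_univ x)] at h1
    · omega
    · rw [Finset.mem_erase]
      exact ⟨fun hh => hxy hh.symm, Finset.mem_univ y⟩
  · right
    rw [Finset.card_univ] at h3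
    have h4 : 4 ≤ Fintype.card V := by omega
    refine ⟨⟨by rw [Finset.card_univ]; exact h4, fun Y _ hne hu => ?_⟩, fun e₀ he₀ => ?_⟩
    · by_contra hcon
      rcases (by omega : (nb E Y).card ≤ 1 ∨ (nb E Y).card = 2) with h1 | h1
      · exact nec_one hG h hne hu h1
      · exact nec_two hG h hne hu h1
    · by_contra hn
      obtain ⟨L, g, hg, hLc, hLS, hcard, hall⟩ :=
        exists_LB hG (by rw [Finset.card_univ]; omega) he₀ hn
      have hGL : IsGraph Finset.univ L :=
        ⟨fun e he => (mem_clique_iff.1 (hLc he)).2, fun e he => (mem_clique_iff.1 (hLc he)).1⟩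
      obtain ⟨u, v, huv, rfl⟩ := Finset.card_eq_two.1 (hGL.card_two g hg)
      rw [Finset.card_univ] at hcard
      obtain ⟨p, q, hp, hs, a, b, hab⟩ := nec_core hGL hLS hcard h4 huv hg hG hall
      exact hab (h p q hp hs a (Finset.mem_univ a) b (Finset.mem_univ b))

end Pool.Agent.Lib.MP_5d015b_lc.JJ
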