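import Pool.Agent.Lib.MP_5d015b_lc.JJ.Basic

/-!
# Module N4: the fibres of `nf` are bounded
-/

set_option autoImplicit false
set_option linter.unusedSectionVars false

namespace Pool.Agent.Lib.MP_5d015b_lc.JJ

/-- number of edges inside a set, with the trivial bound for one point -/
theorem N4.ins_le {V : Type} [DecidableEq V] {B : Finset (Finset V)} (hS : Sparse B)
    {X : Finset V} (hX : X.Nonempty) :
    (2 ≤ X.card ∧ (ins B X).card + 3 ≤ 2 * X.card) ∨ (X.card = 1 ∧ (ins B X).card = 0) := by
  by_cases h : 2 ≤ X.card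
  · exact Or.inl ⟨h, hS.2 X h⟩
  · right
    have h1 : X.card = 1 := by
      have := hX.card_pos
      omega
    refine ⟨h1, ?_⟩
    rw [Finset.card_eq_zero, Finset.eq_empty_iff_forall_notMem]
    intro e he
    unfold ins at he
    rw [Finset.mem_filter] at he
    have h2 := hS.1 e he.1
    have h3 := Finset.card_le_card he.2
    omega

/-- some edge leaves `S` -/
theorem N4.exists_edge {V : Type} [Fintype V] [DecidableEq V] {B : Finset (Finset V)}
    (hS : Sparse B) (hc : B.card + 4 = 2 * Fintype.card V) (h3 : 3 ≤ Fintype.card V)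
    {S : Finset V} (hne : S.Nonempty) (hne' : S ≠ Finset.univ) :
    ∃ x ∈ S, ∃ y, y ∉ S ∧ ({x, y} : Finset V) ∈ B := by
  by_contra hcon
  push Not at hcon
  have hne2 : (Sᶜ).Nonempty := by
    rw [Finset.nonempty_iff_ne_empty]
    intro h
    exact hne' ((Finset.compl_eq_empty_iff S).mp h)
  have hsub : B ⊆ ins B S ∪ ins B Sᶜ := by
    intro e he
    obtain ⟨x, y, hxy, rfl⟩ := Finset.card_eq_two.mp (hS.1 e he)
    rw [Finset.mem_union]
    unfold ins
    rw [Finset.mem_filter, Finset.mem_filter]
    by_cases hx : x ∈ S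
    · left
      have hy : y ∈ S := by
        by_contra hy
        exact hcon x hx y hy he
      refine ⟨he, ?_⟩
      intro z hz
      rw [Finset.mem_insert, Finset.mem_singleton] at hz
      rcases hz with rfl | rfl
      · exact hx
      · exact hy
    · right
      have hy : y ∉ S := by
        intro hy
        exact hcon y hy x hx (by rw [Finset.pair_comm]; exact he)
      refine ⟨he, ?_⟩
      intro z hz
      rw [Finset.mem_insert, Finset.mem_singleton] at hz
      rw [Finset.mem_compl]
      rcases hz with rfl | rfl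
      · exact hx
      · exact hy
  have h1 := (Finset.card_le_card hsub).trans (Finset.card_union_le _ _)
  have h2 : S.card + (Sᶜ).card = Fintype.card V := by
    rw [Finset.card_compl]
    have := Finset.card_le_univ S
    omega
  rcases N4.ins_le hS hne with ⟨a1, a2⟩ | ⟨a1, a2⟩ <;>
    rcases N4.ins_le hS hne2 with ⟨b1, b2⟩ | ⟨b1, b2⟩ <;> omega

theorem nf_bounded {V : Type} [Fintype V] [DecidableEq V] {B : Finset (Finset V)}
    (hS : Sparse B) (hc : B.card + 4 = 2 * Fintype.card V) (h3 : 3 ≤ Fintype.card V) (u v : V)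
    (c : (↥B ⊕ Fin 3) → ℝ) : ∃ C : ℝ, ∀ p, nf B u v p = c → ∀ w i, |p w i| ≤ C := by
  classical
  -- bound for the edges
  let D : ℝ := 1 + ∑ e : ↥B, |c (Sum.inl e)|
  have hD1 : 1 ≤ D := by
    have : 0 ≤ ∑ e : ↥B, |c (Sum.inl e)| := Finset.sum_nonneg (fun _ _ => abs_nonneg _)
    change 1 ≤ 1 + ∑ e : ↥B, |c (Sum.inl e)|
    linarith
  have hedge : ∀ x y, ({x, y} : Finset V) ∈ B → ∀ p, nf B u v p = c → ∀ i,
      |p x i - p y i| ≤ D := by
    intro x y he p hp i
    have hxy : x ≠ y := by
      rintro rfl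
      have := hS.1 _ he
      rw [Finset.pair_eq_singleton, Finset.card_singleton] at this
      omega
    have h1 : rho p {x, y} p = c (Sum.inl ⟨_, he⟩) := by
      rw [← hp]
      rfl
    rw [rho_self_pair p hxy] at h1
    have h2 : |c (Sum.inl ⟨_, he⟩)| ≤ ∑ e : ↥B, |c (Sum.inl e)| :=
      Finset.single_le_sum (f := fun e : ↥B => |c (Sum.inl e)|) (fun _ _ => abs_nonneg _)
        (Finset.mem_univ _)
    have h4 := le_abs_self (c (Sum.inl ⟨_, he⟩))
    have h5 : sqd p x y ≤ D := by
      have h6 := sqd_nonneg p x y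
      change sqd p x y ≤ 1 + ∑ e : ↥B, |c (Sum.inl e)|
      linarith
    have h7 : (p x i - p y i) ^ 2 ≤ sqd p x y := by
      unfold sqd
      fin_cases i
      · simp only [Fin.zero_eta, Fin.isValue]
        nlinarith [sq_nonneg (p x 1 - p y 1)]
      · simp only [Fin.mk_one, Fin.isValue]
        nlinarith [sq_nonneg (p x 0 - p y 0)]
    apply abs_le_of_sq_le_sq _ (by linarith)
    nlinarith
  -- vertices with bounded coordinates
  let S : Finset V := Finset.univ.filter fun w => ∃ C : ℝ, ∀ p, nf B u v p = c → ∀ i, |p w i| ≤ C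
  have hu : u ∈ S := by
    rw [Finset.mem_filter]
    refine ⟨Finset.mem_univ _, |c (Sum.inr 0)| + |c (Sum.inr 1)|, ?_⟩
    intro p hp i
    have h1 : p u 0 = c (Sum.inr 0) := by rw [← hp]; rfl
    have h2 : p u 1 = c (Sum.inr 1) := by rw [← hp]; rfl
    fin_cases i
    · change |p u 0| ≤ _
      rw [h1]
      have := abs_nonneg (c (Sum.inr 1))
      linarith
    · change |p u 1| ≤ _
      rw [h2]
      have := abs_nonneg (c (Sum.inr 0))
      linarith
  have hSu : S = Finset.univ := by
    by_contra hne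
    obtain ⟨x, hx, y, hy, he⟩ := N4.exists_edge hS hc h3 ⟨u, hu⟩ hne
    apply hy
    rw [Finset.mem_filter] at hx ⊢
    obtain ⟨_, C, hC⟩ := hx
    refine ⟨Finset.mem_univ _, C + D, ?_⟩
    intro p hp i
    have h1 := hC p hp i
    have h2 := hedge x y he p hp i
    have h3 : p y i = p x i - (p x i - p y i) := by ring
    rw [h3]
    exact (abs_sub _ _).trans (add_le_add h1 h2)
  have hall : ∀ w, ∃ C : ℝ, ∀ p, nf B u v p = c → ∀ i, |p w i| ≤ C := by
    intro w
    have : w ∈ S := by rw [hSu]; exact Finset.mem_univ _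
    exact (Finset.mem_filter.mp this).2
  choose C hC using hall
  refine ⟨∑ w, |C w|, ?_⟩
  intro p hp w i
  have h1 := hC w p hp i
  have h2 : |C w| ≤ ∑ w, |C w| :=
    Finset.single_le_sum (f := fun w => |C w|) (fun _ _ => abs_nonneg _) (Finset.mem_univ _)
  exact (h1.trans (le_abs_self _)).trans h2

end Pool.Agent.Lib.MP_5d015b_lc.JJ
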