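import Pool.Agent.Lib.MP_5d015b_lc.JJ.Basic

/-!
# Module N5 of `JJ`: local coordinates (inverse function theorem)
-/

set_option autoImplicit false
set_option linter.unusedSectionVars false

namespace Pool.Agent.Lib.MP_5d015b_lc.JJ

theorem local_coord {E ι κ : Type} [NormedAddCommGroup E] [NormedSpace ℝ E]
    [FiniteDimensional ℝ E] [Fintype κ] (hdim : Module.finrank ℝ E = Fintype.card κ + 1)
    (π : ι → E →L[ℝ] ℝ) (hπ : ∀ m, (∀ j, π j m = 0) → m = 0) {f : E → κ → ℝ}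
    (hf : ContDiff ℝ 1 f) {x : E} (hx : Function.Surjective (fderiv ℝ f x)) {N : Set E}
    (hN : N ∈ nhds x) :
    ∃ (j : ι) (ε : ℝ) (g : (κ → ℝ) × ℝ → E), 0 < ε ∧ g (f x, π j x) = x ∧
      (∀ w ∈ Metric.ball (f x, π j x) ε,
        f (g w) = w.1 ∧ π j (g w) = w.2 ∧ g w ∈ N ∧ DifferentiableAt ℝ g w) ∧
      ∀ O ⊆ Metric.ball (f x, π j x) ε, IsOpen O → IsOpen (g '' O) := by
  classical
  haveI : CompleteSpace E := FiniteDimensional.complete ℝ E
  set A : E →L[ℝ] (κ → ℝ) := fderiv ℝ f x with hA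
  -- the kernel of `A` is a line
  have hrk : Module.finrank ℝ (LinearMap.ker (A : E →ₗ[ℝ] (κ → ℝ))) = 1 := by
    have h1 := LinearMap.finrank_range_add_finrank_ker (A : E →ₗ[ℝ] (κ → ℝ))
    have h2 : LinearMap.range (A : E →ₗ[ℝ] (κ → ℝ)) = ⊤ := LinearMap.range_eq_top.2 hx
    rw [h2, finrank_top, Module.finrank_fintype_fun_eq_card, hdim] at h1
    omega
  obtain ⟨v, hv0, hv⟩ := finrank_eq_one_iff'.1 hrk
  have hvne : (v : E) ≠ 0 := fun h => hv0 (Subtype.ext h)
  obtain ⟨j, hj⟩ : ∃ j, π j (v : E) ≠ 0 := by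
    by_contra hcon
    push_neg at hcon
    exact hvne (hπ _ hcon)
  have hinj : Function.Injective (A.prod (π j)) := by
    refine (injective_iff_map_eq_zero _).2 fun m hm => ?_
    have hm1 : A m = 0 := congrArg Prod.fst hm
    have hm2 : π j m = 0 := congrArg Prod.snd hm
    obtain ⟨c, hc⟩ := hv ⟨m, hm1⟩
    have hc' : m = c • (v : E) := by
      have := congrArg Subtype.val hc
      exact this.symm
    rw [hc', map_smul, smul_eq_mul] at hm2
    have : c = 0 := by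
      rcases mul_eq_zero.1 hm2 with h | h
      · exact h
      · exact absurd h hj
    rw [hc', this, zero_smul]
  have hfr : Module.finrank ℝ E = Module.finrank ℝ ((κ → ℝ) × ℝ) := by
    rw [Module.finrank_prod, Module.finrank_fintype_fun_eq_card, Module.finrank_self, hdim]
  let L : E ≃ₗ[ℝ] ((κ → ℝ) × ℝ) :=
    LinearEquiv.ofInjectiveOfFinrankEq (A.prod (π j) : E →ₗ[ℝ] ((κ → ℝ) × ℝ)) hinj hfr
  let L' : E ≃L[ℝ] ((κ → ℝ) × ℝ) := L.toContinuousLinearEquiv
  let F : E → (κ → ℝ) × ℝ := fun y => (f y, π j y)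
  have hF : ContDiff ℝ 1 F := hf.prodMk (π j).contDiff
  have hFd : HasFDerivAt F (L' : E →L[ℝ] ((κ → ℝ) × ℝ)) x := by
    have h1 : HasFDerivAt f A x := (hf.differentiable (by norm_num) x).hasFDerivAt
    have h2 : HasFDerivAt F (A.prod (π j)) x := h1.prodMk (π j).hasFDerivAt
    have h3 : (L' : E →L[ℝ] ((κ → ℝ) × ℝ)) = A.prod (π j) := by
      ext m
      · rfl
      · rfl
    rw [h3]
    exact h2
  have hcd : ContDiffAt ℝ 1 F x := hF.contDiffAt
  let Φ := hcd.toOpenPartialHomeomorph F hFd (by norm_num)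
  have hΦ : (Φ : E → (κ → ℝ) × ℝ) = F := rfl
  have hxs : x ∈ Φ.source := hcd.mem_toOpenPartialHomeomorph_source hFd (by norm_num)
  have hxt : F x ∈ Φ.target := hcd.image_mem_toOpenPartialHomeomorph_target hFd (by norm_num)
  have hgx : Φ.symm (F x) = x := Φ.left_inv hxs
  have hgc : ContDiffAt ℝ 1 Φ.symm (F x) := hcd.to_localInverse hFd (by norm_num)
  have hev1 : ∀ᶠ w in nhds (F x), ContDiffAt ℝ 1 Φ.symm w := hgc.eventually (by norm_num)
  have hev2 : ∀ᶠ w in nhds (F x), Φ.symm w ∈ N := by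
    have : Filter.Tendsto Φ.symm (nhds (F x)) (nhds x) := by
      have h := hgc.continuousAt
      rw [ContinuousAt, hgx] at h
      exact h
    exact this hN
  have hev3 : ∀ᶠ w in nhds (F x), w ∈ Φ.target := Φ.open_target.mem_nhds hxt
  obtain ⟨ε, hε, hball⟩ := Metric.eventually_nhds_iff_ball.1 (hev1.and (hev2.and hev3))
  refine ⟨j, ε, Φ.symm, hε, hgx, ?_, ?_⟩
  · intro w hw
    obtain ⟨h1, h2, h3⟩ := hball w hw
    have h4 : F (Φ.symm w) = w := Φ.right_inv h3
    exact ⟨congrArg Prod.fst h4, congrArg Prod.snd h4, h2, h1.differentiableAt (by norm_num)⟩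
  · intro O hO hOo
    exact Φ.isOpen_image_symm_of_subset_target hOo fun w hw => (hball w (hO hw)).2.2

end Pool.Agent.Lib.MP_5d015b_lc.JJ
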