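import Pool.Agent.Lib.MP_5d015b_lc.JJ.R1
import Pool.Agent.Lib.MP_5d015b_lc.JJ.R5
import Pool.Agent.Lib.MP_5d015b_lc.JJ.N7

/-!
# module N8. Laman graphs at generic points: the function `nf` together with the length of `uv`
-/

set_option autoImplicit false
set_option linter.unusedSectionVars false

namespace Pool.Agent.Lib.MP_5d015b_lc.JJ

theorem nf_inj_gen {V : Type} [Fintype V] [DecidableEq V] {L : Finset (Finset V)}
    (hG : IsGraph Finset.univ L) (hS : Sparse L) (hc : L.card + 3 = 2 * Fintype.card V)
    (h2 : 2 ≤ Fintype.card V) {u v : V} (huv : u ≠ v) (hL : ({u, v} : Finset V) ∈ L)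
    {p : V → Fin 2 → ℝ} (hp : Gen Finset.univ p) {m : V → Fin 2 → ℝ}
    (h1 : nfM (L.erase {u, v}) u v p m = 0) (h3 : ef p u v m = 0) : m = 0 := by
  have hIR := infRigid_gen hG hS (by rw [Finset.card_univ]; exact hc)
    (by rw [Finset.card_univ]; exact h2) hp
  have e0 : m u 0 = 0 := congrFun h1 (Sum.inr 0)
  have e1 : m u 1 = 0 := congrFun h1 (Sum.inr 1)
  have e2 : m v 1 = 0 := congrFun h1 (Sum.inr 2)
  have hef : ∀ s t, s ≠ t → ({s, t} : Finset V) ∈ L → ef p s t m = 0 := by
    intro s t hst hmem
    by_cases he : ({s, t} : Finset V) = {u, v}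
    · have hs : s = u ∨ s = v := by
        have : s ∈ ({u, v} : Finset V) := he ▸ Finset.mem_insert_self s {t}
        simpa using this
      have ht : t = u ∨ t = v := by
        have : t ∈ ({u, v} : Finset V) := he ▸ Finset.mem_insert_of_mem (Finset.mem_singleton_self t)
        simpa using this
      rcases hs with rfl | rfl <;> rcases ht with rfl | rfl
      · exact absurd rfl hst
      · exact h3
      · rw [ef_comm]; exact h3
      · exact absurd rfl hst
    · have hm : ({s, t} : Finset V) ∈ L.erase {u, v} := Finset.mem_erase.2 ⟨he, hmem⟩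
      have := congrFun h1 (Sum.inl ⟨{s, t}, hm⟩)
      have h5 : (2 : ℝ) • rhoM p ({s, t} : Finset V) m = 0 := this
      rw [rhoM_pair p hst, smul_eq_mul, smul_eq_mul] at h5
      linarith
  obtain ⟨a, b, c, habc⟩ := hIR m (by
    intro s t hst
    have hne : s ≠ t := by
      rintro rfl
      have := hG.card_two _ hst
      simp at this
    have := hef s t hne hst
    rw [ef_real] at this
    exact this)
  have hu := habc u (Finset.mem_univ u)
  have hv := habc v (Finset.mem_univ v)
  have hpn := gen_ne hp (Finset.mem_univ v) (Finset.mem_univ u) huv.symm 0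
  have hc0 : c = 0 := by
    have : c * (p v 0 - p u 0) = 0 := by
      have h6 := hu.2; have h7 := hv.2
      rw [e1] at h6; rw [e2] at h7
      linarith
    exact (mul_eq_zero.1 this).resolve_right (sub_ne_zero.2 hpn)
  rw [e0, e1, hc0] at hu
  have ha : a = 0 := by linarith [hu.1]
  have hb : b = 0 := by linarith [hu.2]
  funext w i
  have hw := habc w (Finset.mem_univ w)
  rw [ha, hb, hc0] at hw
  fin_cases i
  · show m w 0 = 0
    linarith [hw.1]
  · show m w 1 = 0
    linarith [hw.2]

/-- the function `m ↦ (nfM m, ef m)` as a linear map -/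
noncomputable def n8map {V : Type} [Fintype V] [DecidableEq V] (B : Finset (Finset V)) (u v : V)
    (p : V → Fin 2 → ℝ) : (V → Fin 2 → ℝ) →ₗ[ℝ] ((↥B ⊕ Fin 3) → ℝ) × ℝ where
  toFun m := (nfM B u v p m, ef p u v m)
  map_add' m m' := by
    refine Prod.ext ?_ ?_
    · funext k
      rcases k with e | i
      · show (2 : ℝ) • rhoM p (e : Finset V) (m + m') = (2 : ℝ) • rhoM p (e : Finset V) m + (2 : ℝ) • rhoM p (e : Finset V) m'
        rw [rhoM_real, rhoM_real, rhoM_real, map_add, smul_add]
      · fin_cases i <;> rfl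
    · show ef p u v (m + m') = ef p u v m + ef p u v m'
      rw [ef_real, ef_real, ef_real]
      simp only [Pi.add_apply]
      ring
  map_smul' c m := by
    refine Prod.ext ?_ ?_
    · funext k
      rcases k with e | i
      · show (2 : ℝ) • rhoM p (e : Finset V) (c • m) = c • (2 : ℝ) • rhoM p (e : Finset V) m
        rw [rhoM_real, rhoM_real, map_smul, smul_comm]
      · fin_cases i <;> rfl
    · show ef p u v (c • m) = c • ef p u v m
      rw [ef_real, ef_real]
      simp only [Pi.smul_apply, smul_eq_mul]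
      ring

/-- values of `nfM` in a module are combinations of the entries with real coefficients -/
theorem n8_expand {V : Type} [Fintype V] [DecidableEq V] (B : Finset (Finset V)) (u v : V)
    (p : V → Fin 2 → ℝ) (k : ↥B ⊕ Fin 3) :
    ∃ R : V × Fin 2 → ℝ, ∀ {M : Type} [AddCommGroup M] [Module ℝ M] (m : V → Fin 2 → M),
      nfM B u v p m k = ∑ x : V × Fin 2, R x • m x.1 x.2 := by
  classical
  refine ⟨nfM B u v p (fun w i => (Pi.single (w, i) (1 : ℝ) : V × Fin 2 → ℝ)) k, ?_⟩
  intro M _ _ m
  have h := nfM_map (Fintype.linearCombination ℝ (fun x : V × Fin 2 => m x.1 x.2)) B u v p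
    (fun w i => (Pi.single (w, i) (1 : ℝ) : V × Fin 2 → ℝ)) k
  rw [Fintype.linearCombination_apply] at h
  rw [h]
  congr 1
  funext w i
  rw [Fintype.linearCombination_apply_single, one_smul]

theorem nf_indep_gen {V : Type} [Fintype V] [DecidableEq V] {L : Finset (Finset V)}
    (hG : IsGraph Finset.univ L) (hS : Sparse L) (hc : L.card + 3 = 2 * Fintype.card V)
    (h2 : 2 ≤ Fintype.card V) {u v : V} (huv : u ≠ v) (hL : ({u, v} : Finset V) ∈ L)
    {p : V → Fin 2 → ℝ} (hp : Gen Finset.univ p) :
    LinearIndependent ℝ (fun k => dR (nf (L.erase {u, v}) u v p k)) := by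
  classical
  set B := L.erase {u, v} with hB
  have hinj : Function.Injective (n8map B u v p) := by
    rw [← LinearMap.ker_eq_bot, LinearMap.ker_eq_bot']
    intro m hm
    exact nf_inj_gen hG hS hc h2 huv hL hp (congrArg Prod.fst hm) (congrArg Prod.snd hm)
  have hcard : B.card + 1 = L.card := Finset.card_erase_add_one hL
  have hdim : Module.finrank ℝ (V → Fin 2 → ℝ) = Module.finrank ℝ (((↥B ⊕ Fin 3) → ℝ) × ℝ) := by
    rw [Module.finrank_prod, Module.finrank_fintype_fun_eq_card, Module.finrank_self,
      Fintype.card_sum, Fintype.card_coe, Fintype.card_fin, Module.finrank_pi_fintype]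
    simp only [Module.finrank_fintype_fun_eq_card, Fintype.card_fin, Finset.sum_const,
      Finset.card_univ, smul_eq_mul]
    omega
  have hsurj : Function.Surjective (n8map B u v p) :=
    (LinearMap.injective_iff_surjective_of_finrank_eq_finrank hdim).1 hinj
  choose R hR using fun k => n8_expand B u v p k
  have hp' : LinearIndependent ℝ (fun x : V × Fin 2 => dR (p x.1 x.2)) := by
    have hj : Function.Injective (fun x : V × Fin 2 =>
        ((⟨x.1, Finset.mem_univ x.1⟩, x.2) : ↥(Finset.univ : Finset V) × Fin 2)) := by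
      rintro ⟨a, i⟩ ⟨b, j⟩ hab
      simp only [Prod.mk.injEq, Subtype.mk.injEq] at hab
      exact Prod.ext hab.1 hab.2
    exact hp.comp _ hj
  rw [Fintype.linearIndependent_iff]
  intro μ hμ
  have h0 : ∑ x : V × Fin 2, (∑ k, μ k * R k x) • dR (p x.1 x.2) = 0 := by
    rw [← hμ]
    simp only [Finset.sum_smul, mul_smul]
    rw [Finset.sum_comm]
    refine Finset.sum_congr rfl fun k _ => ?_
    rw [← Finset.smul_sum, dR_nf, hR]
  have hz := Fintype.linearIndependent_iff.1 hp' _ h0
  obtain ⟨m, hm⟩ := hsurj (μ, 0)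
  have hm1 : ∀ k, nfM B u v p m k = μ k := fun k => congrFun (congrArg Prod.fst hm) k
  have hsum : ∑ k, μ k * μ k = 0 := by
    have : ∀ k, μ k * μ k = ∑ x : V × Fin 2, (μ k * R k x) * m x.1 x.2 := by
      intro k
      have e1 : μ k * μ k = μ k * nfM B u v p m k := by rw [hm1 k]
      rw [e1, hR k m, Finset.mul_sum]
      refine Finset.sum_congr rfl fun x _ => ?_
      rw [smul_eq_mul, mul_assoc]
    simp only [this]
    rw [Finset.sum_comm]
    refine Finset.sum_eq_zero fun x _ => ?_
    rw [← Finset.sum_mul, hz x, zero_mul]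
  intro k
  have := (Finset.sum_eq_zero_iff_of_nonneg (fun k _ => mul_self_nonneg (μ k))).1 hsum k (Finset.mem_univ k)
  exact mul_self_eq_zero.1 this

end Pool.Agent.Lib.MP_5d015b_lc.JJ
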