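import Mathlib

/-!
# Generic global rigidity in the plane: the definitions used in the statement of the result
-/

set_option autoImplicit false
set_option linter.unusedSectionVars false

namespace Pool.Agent.Lib.MP_5d015b_lc

/-- a realization of `V` in the plane is generic if its `2 |V|` coordinates are algebraically
independent over `ℚ` -/
def Generic {V : Type} (p : V → EuclideanSpace ℝ (Fin 2)) : Prop :=
  AlgebraicIndependent ℚ (fun x : V × Fin 2 => p x.1 x.2)

/-- the frameworks `(G, p)` and `(G, q)` are equivalent -/
def Equivalent {V : Type} (G : SimpleGraph V) (p q : V → EuclideanSpace ℝ (Fin 2)) : Prop :=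
  ∀ u v, G.Adj u v → dist (p u) (p v) = dist (q u) (q v)

/-- the realizations `p` and `q` are congruent -/
def Congruent {V : Type} (p q : V → EuclideanSpace ℝ (Fin 2)) : Prop :=
  ∀ u v, dist (p u) (p v) = dist (q u) (q v)

/-- the graph `G` is globally rigid in the plane: for every generic realization `p`, every
realization `q` with the same edge lengths is congruent to `p` -/
def GloballyRigid {V : Type} (G : SimpleGraph V) : Prop :=
  ∀ p : V → EuclideanSpace ℝ (Fin 2), Generic p → ∀ q, Equivalent G p q → Congruent p q

end Pool.Agent.Lib.MP_5d015b_lc
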