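import Pool.Agent.Lib.MP_5d015b_lc.JJ.Basic
import Pool.Agent.Lib.MP_5d015b_lc.FG3

/-! # Module X1: transport of `GR` along an injection -/

set_option autoImplicit false
set_option linter.unusedSectionVars false

namespace Pool.Agent.Lib.MP_5d015b_lc.JJ

open Classical in
/-- the edges of a graph -/
noncomputable def esetF {n : ℕ} (G : SimpleGraph (Fin n)) : Finset (Finset (Fin n)) :=
  ((Finset.univ : Finset (Fin n × Fin n)).filter fun q => G.Adj q.1 q.2).image fun q => {q.1, q.2}

theorem isGraph_esetF {n : ℕ} (G : SimpleGraph (Fin n)) :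
    IsGraph (Finset.univ : Finset (Fin n)) (esetF G) := by
  classical
  refine ⟨?_, fun e _ => Finset.subset_univ e⟩
  intro e he
  rw [esetF, Finset.mem_image] at he
  obtain ⟨q, hq, rfl⟩ := he
  rw [Finset.mem_filter] at hq
  exact Finset.card_pair hq.2.ne

theorem mem_esetF {n : ℕ} (G : SimpleGraph (Fin n)) (u v : Fin n) :
    ({u, v} : Finset (Fin n)) ∈ esetF G ↔ G.Adj u v := by
  classical
  rw [esetF, Finset.mem_image]
  constructor
  · rintro ⟨⟨a, b⟩, hq, hab⟩
    rw [Finset.mem_filter] at hq
    have hne : a ≠ b := hq.2.ne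
    have ha : a ∈ ({u, v} : Finset (Fin n)) := hab ▸ by simp
    have hb : b ∈ ({u, v} : Finset (Fin n)) := hab ▸ by simp
    rw [Finset.mem_insert, Finset.mem_singleton] at ha hb
    rcases ha with rfl | rfl <;> rcases hb with rfl | rfl
    · exact absurd rfl hne
    · exact hq.2
    · exact hq.2.symm
    · exact absurd rfl hne
  · intro h
    exact ⟨(u, v), Finset.mem_filter.2 ⟨Finset.mem_univ _, h⟩, rfl⟩

section map

variable {α β : Type} [DecidableEq α] [DecidableEq β] (φ : α ↪ β)

theorem x1_ins (D : Finset (Finset α)) (X : Finset β) :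
    ins (D.image (Finset.map φ)) X =
      (ins D (X.preimage φ φ.injective.injOn)).image (Finset.map φ) := by
  ext e
  rw [mem_ins, Finset.mem_image, Finset.mem_image]
  constructor
  · rintro ⟨⟨d, hd, rfl⟩, h⟩
    refine ⟨d, mem_ins.2 ⟨hd, ?_⟩, rfl⟩
    intro a ha
    rw [Finset.mem_preimage]
    exact h (Finset.mem_map_of_mem φ ha)
  · rintro ⟨d, hd, rfl⟩
    rw [mem_ins] at hd
    refine ⟨⟨d, hd.1, rfl⟩, ?_⟩
    intro b hb
    rw [Finset.mem_map] at hb
    obtain ⟨a, ha, rfl⟩ := hb
    exact Finset.mem_preimage.1 (hd.2 ha)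

theorem x1_card_image (D : Finset (Finset α)) : (D.image (Finset.map φ)).card = D.card :=
  Finset.card_image_of_injective _ (Finset.map_injective φ)

theorem x1_card_preimage (X : Finset β) :
    (X.preimage φ φ.injective.injOn).card ≤ X.card := by
  rw [← Finset.card_map φ]
  apply Finset.card_le_card
  intro b hb
  rw [Finset.mem_map] at hb
  obtain ⟨a, ha, rfl⟩ := hb
  exact Finset.mem_preimage.1 ha

theorem x1_sparse (D : Finset (Finset α)) : Sparse (D.image (Finset.map φ)) ↔ Sparse D := by
  constructor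
  · intro h
    refine ⟨?_, ?_⟩
    · intro e he
      have := h.1 _ (Finset.mem_image_of_mem _ he)
      rwa [Finset.card_map] at this
    · intro X hX
      have h1 := h.2 (X.map φ) (by rwa [Finset.card_map])
      have h2 : (X.map φ).preimage φ φ.injective.injOn = X := by
        ext a
        rw [Finset.mem_preimage, Finset.mem_map' φ]
      rw [x1_ins, x1_card_image, Finset.card_map, h2] at h1
      exact h1
  · intro h
    refine ⟨?_, ?_⟩
    · intro e he
      rw [Finset.mem_image] at he
      obtain ⟨d, hd, rfl⟩ := he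
      rw [Finset.card_map]
      exact h.1 d hd
    · intro X hX
      rw [x1_ins, x1_card_image]
      have h1 := x1_card_preimage φ X
      by_cases h2 : 2 ≤ (X.preimage φ φ.injective.injOn).card
      · have := h.2 _ h2
        omega
      · have h3 : ins D (X.preimage φ φ.injective.injOn) = ∅ := by
          rw [Finset.eq_empty_iff_forall_notMem]
          intro e he
          rw [mem_ins] at he
          have h4 := Finset.card_le_card he.2
          rw [h.1 e he.1] at h4
          omega
        rw [h3, Finset.card_empty]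
        omega

theorem x1_rigid (W : Finset α) (F : Finset (Finset α)) :
    Rigid (W.map φ) (F.image (Finset.map φ)) ↔ Rigid W F := by
  constructor
  · rintro ⟨D, hD, hS, hc⟩
    obtain ⟨D', hD', rfl⟩ := Finset.subset_image_iff.1 hD
    rw [x1_card_image, Finset.card_map] at hc
    exact ⟨D', by exact_mod_cast hD', (x1_sparse φ D').1 hS, hc⟩
  · rintro ⟨D, hD, hS, hc⟩
    refine ⟨D.image (Finset.map φ), Finset.image_subset_image hD, (x1_sparse φ D).2 hS, ?_⟩
    rw [x1_card_image, Finset.card_map]
    exact hc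

theorem x1_redRigid (W : Finset α) (E : Finset (Finset α)) :
    RedRigid (W.map φ) (E.image (Finset.map φ)) ↔ RedRigid W E := by
  have key : ∀ e, (E.image (Finset.map φ)).erase (e.map φ) = (E.erase e).image (Finset.map φ) :=
    fun e => (Finset.image_erase (Finset.map_injective φ) E e).symm
  constructor
  · intro h e he
    have h1 := h _ (Finset.mem_image_of_mem _ he)
    rw [key, x1_rigid] at h1
    exact h1
  · intro h e he
    rw [Finset.mem_image] at he
    obtain ⟨d, hd, rfl⟩ := he
    rw [key, x1_rigid]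
    exact h d hd

theorem x1_nb (E : Finset (Finset α)) (Y : Finset α) :
    nb (E.image (Finset.map φ)) (Y.map φ) = (nb E Y).map φ := by
  ext b
  unfold nb
  rw [Finset.mem_sdiff, Finset.mem_biUnion]
  constructor
  · rintro ⟨⟨e, he, hb⟩, hbY⟩
    rw [Finset.mem_filter, Finset.mem_image] at he
    obtain ⟨⟨d, hd, rfl⟩, hne⟩ := he
    rw [id, Finset.mem_map] at hb
    obtain ⟨a, ha, rfl⟩ := hb
    apply Finset.mem_map_of_mem
    rw [Finset.mem_sdiff, Finset.mem_biUnion]
    refine ⟨⟨d, ?_, ha⟩, fun h => hbY (Finset.mem_map_of_mem φ h)⟩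
    rw [Finset.mem_filter]
    refine ⟨hd, ?_⟩
    obtain ⟨x, hx⟩ := hne
    rw [Finset.mem_inter, Finset.mem_map, Finset.mem_map] at hx
    obtain ⟨⟨y, hy, rfl⟩, z, hz, hzy⟩ := hx
    rw [φ.injective hzy] at hz
    exact ⟨y, Finset.mem_inter.2 ⟨hy, hz⟩⟩
  · intro hb
    obtain ⟨a, ha, rfl⟩ := Finset.mem_map.1 hb
    rw [Finset.mem_sdiff, Finset.mem_biUnion] at ha
    obtain ⟨⟨d, hd, had⟩, haY⟩ := ha
    rw [Finset.mem_filter] at hd
    refine ⟨⟨d.map φ, ?_, Finset.mem_map_of_mem φ had⟩, ?_⟩
    · rw [Finset.mem_filter]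
      refine ⟨Finset.mem_image_of_mem _ hd.1, ?_⟩
      obtain ⟨x, hx⟩ := hd.2
      rw [Finset.mem_inter] at hx
      exact ⟨φ x, Finset.mem_inter.2 ⟨Finset.mem_map_of_mem φ hx.1,
        Finset.mem_map_of_mem φ hx.2⟩⟩
    · rw [Finset.mem_map' φ]
      exact haY

theorem x1_conn3 (W : Finset α) (E : Finset (Finset α)) :
    Conn3 (W.map φ) (E.image (Finset.map φ)) ↔ Conn3 W E := by
  unfold Conn3
  rw [Finset.card_map]
  apply and_congr_right
  intro _
  constructor
  · intro h Y hY hne hYW
    have h1 := h (Y.map φ) (Finset.map_subset_map.2 hY) (Finset.map_nonempty.2 hne) (by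
      rw [x1_nb, ← Finset.map_union]
      intro hh
      exact hYW (Finset.map_injective φ hh))
    rwa [x1_nb, Finset.card_map] at h1
  · intro h Y hY hne hYW
    obtain ⟨Y', hY', rfl⟩ := Finset.subset_map_iff.1 hY
    rw [x1_nb, Finset.card_map]
    apply h Y' hY' (Finset.map_nonempty.1 hne)
    intro hh
    apply hYW
    rw [x1_nb, ← Finset.map_union, hh]

theorem x1_clique (W : Finset α) : clique (W.map φ) = (clique W).image (Finset.map φ) := by
  unfold clique
  rw [Finset.powersetCard_map, Finset.map_eq_image]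
  rfl

theorem GR_map {α β : Type} [DecidableEq α] [DecidableEq β] (φ : α ↪ β) (W : Finset α)
    {E : Finset (Finset α)} (hG : IsGraph W E) :
    GR (W.map φ) (E.image (Finset.map φ)) ↔ GR W E := by
  unfold GR
  rw [x1_conn3, x1_redRigid, Finset.card_map, x1_clique,
    Finset.image_subset_image_iff (Finset.map_injective φ)]

end map

/-- with `globallyRigidPlane_iff` (FG3), `eset G = (esetF G).image (Finset.map Fin.valEmbedding)` -/
theorem globallyRigidPlane_iff_univ {n : ℕ} (G : SimpleGraph (Fin n)) :
    GloballyRigidPlane G ↔ GR Finset.univ (esetF G) := by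
  classical
  rw [globallyRigidPlane_iff, ← GR_map Fin.valEmbedding Finset.univ (isGraph_esetF G)]
  have h1 : (Finset.univ : Finset (Fin n)).map Fin.valEmbedding = Finset.range n := by
    ext x
    rw [Finset.mem_map, Finset.mem_range]
    constructor
    · rintro ⟨a, -, rfl⟩
      exact a.2
    · intro h
      exact ⟨⟨x, h⟩, Finset.mem_univ _, rfl⟩
  have h2 : (esetF G).image (Finset.map Fin.valEmbedding) = eset G := by
    rw [esetF, eset, Finset.image_image]
    apply Finset.image_congr
    intro q _
    simp only [Function.comp]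
    rw [Finset.map_insert, Finset.map_singleton]
    rfl
  rw [h1, h2]

end Pool.Agent.Lib.MP_5d015b_lc.JJ
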