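import Pool.Agent.Lib.MP_5d015b_lc.JJ.A1
import Pool.Agent.Lib.MP_5d015b_lc.JJ.A2
import Pool.Agent.Lib.MP_5d015b_lc.JJ.X1
import Pool.Agent.Lib.MP_5d015b_lc.JJ.StatementG

/-!
# X2: generic global rigidity, translation to differentials
-/

set_option autoImplicit false
set_option linter.unusedSectionVars false

namespace Pool.Agent.Lib.MP_5d015b_lc.JJ

theorem dist_eq_iff_sqd {V : Type} (P Q : V → EuclideanSpace ℝ (Fin 2)) (u v : V) :
    dist (P u) (P v) = dist (Q u) (Q v) ↔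
      sqd (fun w i => P w i) u v = sqd (fun w i => Q w i) u v := by
  rw [EuclideanSpace.dist_eq, EuclideanSpace.dist_eq, Fin.sum_univ_two, Fin.sum_univ_two,
    Real.sqrt_inj (by positivity) (by positivity)]
  unfold sqd
  simp only [Real.dist_eq, sq_abs]

theorem generic_iff_gen {V : Type} [Fintype V] (P : V → EuclideanSpace ℝ (Fin 2)) :
    Generic P ↔ Gen Finset.univ (fun w i => P w i) := by
  have h1 : Generic P ↔ LinearIndependent ℝ (fun x : V × Fin 2 => dR (P x.1 x.2)) :=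
    ⟨fun h => dR_of_algInd h, fun h => algInd_of_dR h⟩
  rw [h1]
  unfold Gen
  let e : ↥(Finset.univ : Finset V) × Fin 2 ≃ V × Fin 2 :=
    Equiv.prodCongr (Equiv.subtypeUnivEquiv (fun x => Finset.mem_univ x)) (Equiv.refl _)
  exact (linearIndependent_equiv e (f := fun x : V × Fin 2 => dR (P x.1 x.2))).symm

theorem globallyRigid_iff_GRon {n : ℕ} (G : SimpleGraph (Fin n)) :
    GloballyRigid G ↔ GRon Finset.univ (esetF G) := by
  constructor
  · intro h p q hp hs u _ v _
    obtain ⟨P, hP⟩ : ∃ P : Fin n → EuclideanSpace ℝ (Fin 2), (fun w i => P w i) = p :=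
      ⟨fun w => WithLp.toLp 2 (p w), rfl⟩
    obtain ⟨Q, hQ⟩ : ∃ Q : Fin n → EuclideanSpace ℝ (Fin 2), (fun w i => Q w i) = q :=
      ⟨fun w => WithLp.toLp 2 (q w), rfl⟩
    rw [← hP, ← hQ, ← dist_eq_iff_sqd]
    refine h P ?_ Q (fun a b hab => ?_) u v
    · rw [generic_iff_gen, hP]
      exact hp
    · rw [dist_eq_iff_sqd, hP, hQ]
      exact hs a b ((mem_esetF G a b).2 hab)
  · intro h P hP Q hPQ u v
    rw [dist_eq_iff_sqd]
    refine h _ _ ((generic_iff_gen P).1 hP) (fun a b hab => ?_) u (Finset.mem_univ u) v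
      (Finset.mem_univ v)
    rw [mem_esetF] at hab
    rw [← dist_eq_iff_sqd]
    exact hPQ a b hab

end Pool.Agent.Lib.MP_5d015b_lc.JJ
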