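import Pool.Agent.Lib.MP_5d015b_lc.JJ.C15
import Pool.Agent.Lib.MP_5d015b_lc.JJ.N16
import Pool.Agent.Lib.MP_5d015b_lc.JJ.X1
import Pool.Agent.Lib.MP_5d015b_lc.JJ.X2

/-!
# Generic global rigidity in the plane: the theorem of Connelly, Hendrickson, Jackson and Jordan
-/

set_option autoImplicit false
set_option linter.unusedSectionVars false

namespace Pool.Agent.Lib.MP_5d015b_lc.JJ

theorem globallyRigid_iff {n : ℕ} (G : SimpleGraph (Fin n)) :
    GloballyRigid G ↔ GloballyRigidPlane G := by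
  rw [globallyRigid_iff_GRon, globallyRigidPlane_iff_univ]
  exact ⟨nec (isGraph_esetF G), suff (isGraph_esetF G)⟩

end Pool.Agent.Lib.MP_5d015b_lc.JJ
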